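import Mathlib
import Pool.Agent.TH504.VL.Defs

/-!
# Families of abelian varieties with many moduli which need not be simple: definitions

A family of principally polarized abelian varieties over an open set `U` of `ℂ ^ d` is given by
its period matrices `Z t`, symmetric with positive definite imaginary part: the member `t` is
`ℂ ^ g / (ℤ ^ g + Z(t) ℤ ^ g)`, its rational homology is `ℚ ^ g ⊕ ℚ ^ g`, and `perOne (Z t)`,
`(a, b) ↦ a + Z(t) b`, is the inclusion of the homology in the tangent space. `IsHodge per f` says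
that the rational alternating form `f` on the homology is a Hodge class: it extends to a real
multilinear form on the tangent space which is invariant under the complex numbers of norm one.
-/

set_option autoImplicit false

namespace Pool.Agent.TH504.CB

open Module Pool.Agent.H204R3.CM Pool.Agent.W437.HD Pool.Agent.W437.HP Pool.Agent.TH504.VL

/-- `Z` is a holomorphic family of period matrices over `U` with a simple member. -/
def IsPeriodFamily {g d : ℕ} (U : Set (Fin d → ℂ))
    (Z : (Fin d → ℂ) → Matrix (Fin g) (Fin g) ℂ) : Prop :=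
  (∀ i j, AnalyticOnNhd ℂ (fun t => Z t i j) U) ∧
  (∀ t ∈ U, (Z t).transpose = Z t ∧ ((Z t).map Complex.im).PosDef) ∧ ∃ s ∈ U, IsSimpleAV (Z s)

/-- The number of moduli at `s` of the product of the families `Z i`: the rank of the
Kodaira-Spencer map `v ↦ (∂_v Z i)_i`. -/
noncomputable def modNum {ι : Type} [Fintype ι] {g : ι → ℕ} {d : ℕ}
    (Z : ∀ i, (Fin d → ℂ) → Matrix (Fin (g i)) (Fin (g i)) ℂ) (s : Fin d → ℂ) : ℕ :=
  finrank ℂ (LinearMap.range (LinearMap.pi fun i => ksMap (Z i) s))

/-- The product of the abelian varieties with the period matrices `Z (c 0), ..., Z (c (n - 1))`: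
the inclusion of its rational homology in its tangent space. -/
noncomputable def productOf {ι : Type} {g : ι → ℕ} (Z : ∀ i, Matrix (Fin (g i)) (Fin (g i)) ℂ)
    {n : ℕ} (c : Fin n → ι) :
    (∀ j, Fin (g (c j)) ⊕ Fin (g (c j)) → ℚ) →+ (∀ j, Fin (g (c j)) → ℂ) :=
  perFam Z c

/-- The form `η` on the homology `⊕ H j` of a product is the pullback of a form on the homology of
the product of the factors `j` with `P j`: it only depends on the components in these factors. -/
def IsPullback {n l : ℕ} {H : Fin n → Type} [∀ j, AddCommGroup (H j)] [∀ j, Module ℚ (H j)]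
    (P : Fin n → Prop) (η : (∀ j, H j) [⋀^Fin l]→ₗ[ℚ] ℚ) : Prop :=
  ∀ v v' : Fin l → ∀ j, H j, (∀ a j, P j → v a j = v' a j) → η v = η v'

/-- The span of the wedge products `B 0 ∧ ... ∧ B (r - 1) ∧ η`, of degree `k`, of classes `B s` of
degree two and a class `η` which is pulled back from the product of the factors `j` with `P j`, such
that the classes `B s` and `η` have the property `hodge`. -/
def productSpan {n : ℕ} {H : Fin n → Type} [∀ j, AddCommGroup (H j)] [∀ j, Module ℚ (H j)]
    (hodge : ∀ l : ℕ, ((∀ j, H j) [⋀^Fin l]→ₗ[ℚ] ℚ) → Prop) (P : Fin n → Prop) (k : ℕ) :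
    Submodule ℚ ((∀ j, H j) [⋀^Fin k]→ₗ[ℚ] ℚ) :=
  Submodule.span ℚ {f | ∃ (r l : ℕ) (e : (Fin r × Fin 2) ⊕ Fin l ≃ Fin k)
    (B : Fin r → (∀ j, H j) [⋀^Fin 2]→ₗ[ℚ] ℚ) (η : (∀ j, H j) [⋀^Fin l]→ₗ[ℚ] ℚ),
    (∀ s, hodge 2 (B s)) ∧ hodge l η ∧ IsPullback P η ∧
    ∀ v, f v = ∑ σ : Equiv.Perm (Fin k), (Equiv.Perm.sign σ : ℤ) *
      ((∏ s, B s ![v (σ (e (Sum.inl (s, 0)))), v (σ (e (Sum.inl (s, 1))))]) *
        η (fun a => v (σ (e (Sum.inr a)))))}

/-- `t` is a very general point of `U` if it is not a zero of the functions `F m`; here the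
functions `F m` are holomorphic on `U` and none of them is zero. -/
def IsThin {d : ℕ} (U : Set (Fin d → ℂ)) (F : ℕ → (Fin d → ℂ) → ℂ) : Prop :=
  ∀ m, AnalyticOnNhd ℂ (F m) U ∧ ∃ s ∈ U, F m s ≠ 0

end Pool.Agent.TH504.CB
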