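import Mathlib
import Pool.Agent.TH504.CB.Defs
import Pool.Agent.TH504.VY.Defs

/-!
# Flat classes on families of abelian varieties: definitions
-/

set_option autoImplicit false

namespace Pool.Agent.TH504.CB

open Module Pool.Agent.H204R3.CM Pool.Agent.TH504.VL Pool.Agent.TH504.VY

/-- The span of the wedge products `C 0 ∧ ... ∧ C (r - 1)`, of degree `k = 2 r`, of flat classes of
degree two which are Hodge classes (divisor classes) on all members of a family of complex tori.
The homology `W` of the members is trivialized, `per s` is the inclusion of the homology in the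
tangent space of the member `s`. -/
def flatDivisorSpan {E W T : Type} [AddCommGroup W] [Module ℚ W] [AddCommGroup T] [Module ℂ T]
    (U : Set E) (per : E → W →+ T) (k : ℕ) : Submodule ℚ (W [⋀^Fin k]→ₗ[ℚ] ℚ) :=
  Submodule.span ℚ {f | ∃ (r : ℕ) (e : Fin r × Fin 2 ≃ Fin k) (C : Fin r → W [⋀^Fin 2]→ₗ[ℚ] ℚ),
    (∀ l, ∀ s ∈ U, IsHodge (per s) (C l)) ∧
    ∀ w, f w = ∑ σ : Equiv.Perm (Fin k), (Equiv.Perm.sign σ : ℤ) *
      ∏ l, C l ![w (σ (e (l, 0))), w (σ (e (l, 1)))]}

section families

variable {ι : Type} [Fintype ι] {g : ι → ℕ} {d : ℕ}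

/-- The set `R` of indices of the families `Z i` is small if there are many moduli: it is empty if
all families are moving; and if `w i` are positive multiplicities, `G = ∑ w i * g i` is the
dimension of the product of the `A i ^ (w i)` and `D` is the number of its moduli at a point `s`,
`4 D > G ^ 2` and `4 D > (ρ + 1) ^ 2 + 2 (G - ρ - 1) (G - ρ)`, then the product of the
`A i ^ (w i)` with `i` in `R` has dimension at most `ρ`. -/
def IsSmallPart (U : Set (Fin d → ℂ)) (Z : ∀ i, (Fin d → ℂ) → Matrix (Fin (g i)) (Fin (g i)) ℂ)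
    (R : Finset ι) : Prop :=
  ((∀ i, IsMovingFamily U (Z i)) → R = ∅) ∧
  ∀ s ∈ U, ∀ w : ι → ℕ, (∀ i, 1 ≤ w i) → ∀ ρ : ℕ,
    (∑ i, w i * g i) ^ 2 < 4 * modNum Z s →
    (ρ + 1) ^ 2 + 2 * (∑ i, w i * g i - ρ - 1) * (∑ i, w i * g i - ρ) < 4 * modNum Z s →
    ∑ i ∈ R, w i * g i ≤ ρ

/-- A flat class, on the fibre product `Z (c 0) × ... × Z (c (n - 1))` of the families, which is a
Hodge class on all members. -/
def IsFlatHodge (U : Set (Fin d → ℂ)) (Z : ∀ i, (Fin d → ℂ) → Matrix (Fin (g i)) (Fin (g i)) ℂ)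
    {n : ℕ} (c : Fin n → ι) (l : ℕ)
    (η : (∀ j, Fin (g (c j)) ⊕ Fin (g (c j)) → ℚ) [⋀^Fin l]→ₗ[ℚ] ℚ) : Prop :=
  ∀ s ∈ U, IsHodge (productOf (fun i => Z i s) c) η

/-- On each fibre product of the families each flat class which is a Hodge class on all members is a
combination of wedge products of flat divisor classes and one flat Hodge class which is pulled back
from the factors with index in `R`. -/
def FlatClassesDecompose (U : Set (Fin d → ℂ))
    (Z : ∀ i, (Fin d → ℂ) → Matrix (Fin (g i)) (Fin (g i)) ℂ) (R : Finset ι) : Prop :=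
  ∀ (n : ℕ) (c : Fin n → ι) (k : ℕ)
    (f : (∀ j, Fin (g (c j)) ⊕ Fin (g (c j)) → ℚ) [⋀^Fin k]→ₗ[ℚ] ℚ),
    IsFlatHodge U Z c k f → f ∈ productSpan (IsFlatHodge U Z c) (fun j => c j ∈ R) k

/-- On each fibre product of the families such that the factors with index in `R` have total
dimension at most three each flat class which is a Hodge class on all members is a combination of
products of flat divisor classes. -/
def FlatClassesDivisorial [DecidableEq ι] (U : Set (Fin d → ℂ))
    (Z : ∀ i, (Fin d → ℂ) → Matrix (Fin (g i)) (Fin (g i)) ℂ) (R : Finset ι) : Prop :=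
  ∀ (n : ℕ) (c : Fin n → ι), ∑ j with c j ∈ R, g (c j) ≤ 3 → ∀ (k : ℕ)
    (f : (∀ j, Fin (g (c j)) ⊕ Fin (g (c j)) → ℚ) [⋀^Fin k]→ₗ[ℚ] ℚ),
    IsFlatHodge U Z c k f → f ∈ flatDivisorSpan U (fun s => productOf (fun i => Z i s) c) k

end families

end Pool.Agent.TH504.CB
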