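import Mathlib
import Pool.Agent.TH131.GHC.Conv2
import Pool.Agent.TH504.VY.Flat

/-!
# Slices of tensors
-/

set_option linter.unusedSectionVars false

namespace Pool.Agent.TH504.CB

open Matrix Equiv Module Pool.Agent.H204R3.SP Pool.Agent.H204R3.CM Pool.Agent.W437.HC
  Pool.Agent.W437.HD Pool.Agent.W437.HP Pool.Agent.TH131.GHC

noncomputable section

section multi

variable {B : Type*} [Fintype B] [DecidableEq B] {κ : Type*} [Fintype κ] [DecidableEq κ]
  {K : Type*} [Field K]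

/-- A multilinear form is given by its coefficients. -/
theorem multi_eq (m : MultilinearMap K (fun _ : κ => B → K) K) (x : κ → B → K) :
    m x = evalF (fun I => m (fun k => Pi.single (I k) 1)) x := by
  have h1 : m = evalM (fun I => m (fun k => Pi.single (I k) 1)) := by
    refine Basis.ext_multilinear (fun _ => Pi.basisFun K B) fun I => ?_
    simp only [Pi.basisFun_apply]
    rw [evalM_apply, evalF_single]
  exact congrArg (fun F => F x) h1

theorem evalF_castK [CharZero K] (c : (κ → B) → ℚ) (x : κ → B → ℚ) :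
    ((evalF c x : ℚ) : K) = evalF (cst K c) (fun k i => (x k i : K)) := by
  unfold evalF
  push_cast
  rfl

end multi

variable {B B' B'' : Type*} [Fintype B] [DecidableEq B] [Fintype B'] [DecidableEq B']
  [Fintype B''] [DecidableEq B''] {κ₁ κ₂ : Type*} [Fintype κ₁] [DecidableEq κ₁] [Fintype κ₂]
  [DecidableEq κ₂]

section field

variable {K : Type*} [Field K]

/-- The slice of a tensor with given vectors in the second slots. -/
def slL (c : (κ₁ ⊕ κ₂ → B) → K) (A : Matrix B B' K) (v : κ₂ → B → K) : (κ₁ → B') → K :=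
  fun I => evalF c (Sum.elim (fun a => A *ᵥ Pi.single (I a) 1) v)

/-- The slice of a tensor with given vectors in the first slots. -/
def slR (c : (κ₁ ⊕ κ₂ → B) → K) (A : Matrix B B'' K) (u : κ₁ → B → K) : (κ₂ → B'') → K :=
  fun J => evalF c (Sum.elim u (fun a => A *ᵥ Pi.single (J a) 1))

theorem evalF_slL (c : (κ₁ ⊕ κ₂ → B) → K) (A : Matrix B B' K) (v : κ₂ → B → K)
    (u : κ₁ → B' → K) :
    evalF (slL c A v) u = evalF c (Sum.elim (fun a => A *ᵥ u a) v) := by
  let ev : MultilinearMap K (fun _ : κ₂ => B → K) K →ₗ[K] K :=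
    { toFun := fun F => F v
      map_add' := fun _ _ => rfl
      map_smul' := fun _ _ => rfl }
  let m : MultilinearMap K (fun _ : κ₁ => B' → K) K :=
    ev.compMultilinearMap (((evalM c).currySum).compLinearMap (fun _ => mulVecLin A))
  have hm : ∀ u : κ₁ → B' → K, m u = evalF c (Sum.elim (fun a => A *ᵥ u a) v) := by
    intro u
    change ((evalM c).currySum (fun a => A *ᵥ u a)) v = _
    rw [MultilinearMap.currySum_apply]
    rfl
  rw [← hm, multi_eq m u]
  rfl

theorem evalF_slR (c : (κ₁ ⊕ κ₂ → B) → K) (A : Matrix B B'' K) (u : κ₁ → B → K)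
    (v : κ₂ → B'' → K) :
    evalF (slR c A u) v = evalF c (Sum.elim u (fun a => A *ᵥ v a)) := by
  let m : MultilinearMap K (fun _ : κ₂ => B'' → K) K :=
    ((evalM c).currySum u).compLinearMap (fun _ => mulVecLin A)
  have hm : ∀ v : κ₂ → B'' → K, m v = evalF c (Sum.elim u (fun a => A *ᵥ v a)) := by
    intro v
    change ((evalM c).currySum u) (fun a => A *ᵥ v a) = _
    rw [MultilinearMap.currySum_apply]
    rfl
  rw [← hm, multi_eq m v]
  rfl

theorem evalF_update_zero {κ : Type*} [Fintype κ] [DecidableEq κ] (c : (κ → B) → K)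
    (x : κ → B → K) (k : κ) : evalF c (Function.update x k 0) = 0 := by
  have h := evalF_update_smul c x k 0 0
  rwa [zero_smul, zero_mul] at h

/-- The operator on a slice. -/
theorem act_slL {c : (κ₁ ⊕ κ₂ → B) → K} {A : Matrix B B' K} {v : κ₂ → B → K}
    {X : Matrix B' B' K} {Y : Matrix B B K} (hA : A * X = Y * A) (hv : ∀ k, Y *ᵥ v k = 0)
    (hc : act Y c = 0) : act X (slL c A v) = 0 := by
  apply eq_zero_of_evalF
  intro u
  rw [evalF_act]
  have h1 : evalF (act Y c) (Sum.elim (fun a => A *ᵥ u a) v) = 0 := by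
    rw [hc, evalF_zero]
  rw [evalF_act, Fintype.sum_sum_type] at h1
  have h2 : ∑ k : κ₂, evalF c (Function.update (Sum.elim (fun a => A *ᵥ u a) v) (Sum.inr k)
      (Y *ᵥ (Sum.elim (fun a => A *ᵥ u a) v (Sum.inr k)))) = 0 := by
    refine Finset.sum_eq_zero fun k _ => ?_
    rw [Sum.elim_inr, hv, evalF_update_zero]
  rw [h2, add_zero] at h1
  rw [← h1]
  refine Finset.sum_congr rfl fun k _ => ?_
  rw [evalF_slL, Sum.elim_inl]
  congr 1
  funext l
  rcases l with l | l
  · by_cases hl : l = k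
    · subst hl
      rw [Sum.elim_inl, Function.update_self, Function.update_self, mulVec_mulVec, mulVec_mulVec,
        hA]
    · rw [Sum.elim_inl, Function.update_of_ne hl, Function.update_of_ne
        (fun h => hl (Sum.inl_injective h)), Sum.elim_inl]
  · rw [Sum.elim_inr, Function.update_of_ne (by simp), Sum.elim_inr]

/-- The operator on a slice. -/
theorem act_slR {c : (κ₁ ⊕ κ₂ → B) → K} {A : Matrix B B'' K} {u : κ₁ → B → K}
    {X : Matrix B'' B'' K} {Y : Matrix B B K} (hA : A * X = Y * A) (hu : ∀ k, Y *ᵥ u k = 0)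
    (hc : act Y c = 0) : act X (slR c A u) = 0 := by
  apply eq_zero_of_evalF
  intro v
  rw [evalF_act]
  have h1 : evalF (act Y c) (Sum.elim u (fun a => A *ᵥ v a)) = 0 := by
    rw [hc, evalF_zero]
  rw [evalF_act, Fintype.sum_sum_type] at h1
  have h2 : ∑ k : κ₁, evalF c (Function.update (Sum.elim u (fun a => A *ᵥ v a)) (Sum.inl k)
      (Y *ᵥ (Sum.elim u (fun a => A *ᵥ v a) (Sum.inl k)))) = 0 := by
    refine Finset.sum_eq_zero fun k _ => ?_
    rw [Sum.elim_inl, hu, evalF_update_zero]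
  rw [h2, zero_add] at h1
  rw [← h1]
  refine Finset.sum_congr rfl fun k _ => ?_
  rw [evalF_slR, Sum.elim_inr]
  congr 1
  funext l
  rcases l with l | l
  · rw [Sum.elim_inl, Function.update_of_ne (by simp), Sum.elim_inl]
  · by_cases hl : l = k
    · subst hl
      rw [Sum.elim_inr, Function.update_self, Function.update_self, mulVec_mulVec, mulVec_mulVec,
        hA]
    · rw [Sum.elim_inr, Function.update_of_ne hl, Function.update_of_ne
        (fun h => hl (Sum.inr_injective h)), Sum.elim_inr]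

end field

section rat

theorem cast_mulVec_single {R : Type*} [Fintype R] [DecidableEq R] (A : Matrix B R ℚ) (i : R) :
    (fun b => (((A *ᵥ Pi.single i 1) b : ℚ) : ℂ)) = cK ℂ A *ᵥ Pi.single i 1 := by
  rw [mulVec_single_one, mulVec_single_one]
  rfl

theorem cst_slL (c : (κ₁ ⊕ κ₂ → B) → ℚ) (A : Matrix B B' ℚ) (v : κ₂ → B → ℚ) :
    cst ℂ (slL c A v) = slL (cst ℂ c) (cK ℂ A) (fun k i => (v k i : ℂ)) := by
  funext I
  rw [cst_apply, slL, evalF_castK, slL]
  congr 1
  funext k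
  rcases k with k | k
  · exact cast_mulVec_single A (I k)
  · rfl

variable {D : Matrix B B ℂ} {D' : Matrix B' B' ℂ} {Q : Matrix B' B ℚ}

/-- **Decomposition of Hodge tensors**: a tensor which is killed by the Hodge operators of both
factors is a sum of products of Hodge tensors. -/
theorem decompose (hQQ : Q * Qᵀ = 1) (hQD : cK ℂ Q * D = D' * cK ℂ Q)
    (hQD' : D * (cK ℂ Q)ᵀ = (cK ℂ Q)ᵀ * D')
    (hmem : (cK ℂ Q)ᵀ * D' * cK ℂ Q ∈ lieM D ℂ) {c : (κ₁ ⊕ κ₂ → B) → ℚ} (hc : IsH D c) :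
    ∃ (m : ℕ) (φ : Fin m → (κ₁ → B') → ℚ) (ψ : Fin m → (κ₂ → B) → ℚ), (∀ i, IsH D' (φ i)) ∧
      (∀ i, IsH D (ψ i)) ∧
      (∀ i (v v' : κ₂ → B → ℚ), (∀ k, (1 - Qᵀ * Q) *ᵥ v k = (1 - Qᵀ * Q) *ᵥ v' k) →
        evalF (ψ i) v = evalF (ψ i) v') ∧
      ∀ (u : κ₁ → B' → ℚ) (v : κ₂ → B → ℚ),
        evalF c (Sum.elim (fun a => Qᵀ *ᵥ u a) (fun a => (1 - Qᵀ * Q) *ᵥ v a)) =
          ∑ i, evalF (φ i) u * evalF (ψ i) v := by
  obtain ⟨F, hF⟩ : ∃ F : Matrix B B ℚ, F = 1 - Qᵀ * Q := ⟨_, rfl⟩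
  rw [← hF]
  have hFF : F * F = F := by
    rw [hF]
    have h1 : Qᵀ * Q * (Qᵀ * Q) = Qᵀ * Q := by
      rw [Matrix.mul_assoc, ← Matrix.mul_assoc Q, hQQ, Matrix.one_mul]
    rw [Matrix.mul_sub, Matrix.sub_mul, Matrix.sub_mul, h1]
    simp
  have hFQ : F * Qᵀ = 0 := by
    rw [hF, Matrix.sub_mul, Matrix.one_mul, Matrix.mul_assoc, hQQ, Matrix.mul_one, sub_self]
  have hQF : Q * F = 0 := by
    rw [hF, Matrix.mul_sub, Matrix.mul_one, ← Matrix.mul_assoc, hQQ, Matrix.one_mul, sub_self]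
  obtain ⟨DS, hDS⟩ : ∃ DS, DS = (cK ℂ Q)ᵀ * D' * cK ℂ Q := ⟨_, rfl⟩
  rw [← hDS] at hmem
  have hcS : act DS (cst ℂ c) = 0 := lieM_kills D hmem hc
  have hcR : act (D - DS) (cst ℂ c) = 0 := lieM_kills D (Submodule.sub_mem _ (D_mem D) hmem) hc
  have hQQc : cK ℂ Q * (cK ℂ Q)ᵀ = 1 := by rw [← cK_transpose, ← cK_mul, hQQ, cK_one]
  have hFc : cK ℂ F = 1 - (cK ℂ Q)ᵀ * cK ℂ Q := by
    rw [hF, ← cK_transpose, ← cK_mul, ← cK_one (n := B) ℂ]
    ext i j
    simp only [cK, Matrix.map_apply, Matrix.sub_apply, Rat.cast_sub]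
  have hDS1 : DS = (cK ℂ Q)ᵀ * cK ℂ Q * D := by
    rw [hDS, Matrix.mul_assoc, ← hQD, Matrix.mul_assoc]
  have hDS2 : DS = D * ((cK ℂ Q)ᵀ * cK ℂ Q) := by
    rw [hDS, ← hQD', Matrix.mul_assoc]
  have hDR1 : D - DS = cK ℂ F * D := by rw [hFc, hDS1, Matrix.sub_mul, Matrix.one_mul]
  have hDR2 : D - DS = D * cK ℂ F := by rw [hFc, hDS2, Matrix.mul_sub, Matrix.mul_one]
  -- the space of Hodge tensors
  let V1 : Submodule ℚ ((κ₁ → B') → ℚ) :=
    { carrier := {x | IsH D' x}
      zero_mem' := by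
        change act D' (cst ℂ 0) = 0
        rw [cst_zero, act_zero_right]
      add_mem' := fun {x y} hx hy => by
        change act D' (cst ℂ (x + y)) = 0
        rw [cst_add, act_add_right, show act D' (cst ℂ x) = 0 from hx,
          show act D' (cst ℂ y) = 0 from hy, add_zero]
      smul_mem' := fun r x hx => by
        change act D' (cst ℂ (r • x)) = 0
        have h1 : cst ℂ (r • x) = (r : ℂ) • cst ℂ x := by
          funext I
          simp [cst]
        rw [h1, act_smul_right, show act D' (cst ℂ x) = 0 from hx, smul_zero] }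
  let bb := finBasis ℚ V1
  have hext : ∀ i, ∃ Λ : ((κ₁ → B') → ℚ) →ₗ[ℚ] ℚ, Λ ∘ₗ V1.subtype = bb.coord i := fun i =>
    LinearMap.exists_extend (bb.coord i)
  choose Λ hΛ using hext
  have hsl : ∀ v : κ₂ → B → ℚ, slL c Qᵀ (fun a => F *ᵥ v a) ∈ V1 := by
    intro v
    change act D' (cst ℂ (slL c Qᵀ _)) = 0
    rw [cst_slL]
    refine act_slL (Y := DS) ?_ (fun k => ?_) hcS
    · rw [cK_transpose, hDS2, ← hQD', Matrix.mul_assoc, Matrix.mul_assoc, hQQc, Matrix.mul_one]
    · have h1 : (fun i => (((F *ᵥ v k) i : ℚ) : ℂ)) = cK ℂ F *ᵥ (fun i => ((v k i : ℚ) : ℂ)) := by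
        funext i
        simp [mulVec, dotProduct, cK]
      rw [h1, mulVec_mulVec, hDS, Matrix.mul_assoc, ← cK_mul, hQF, cK_zero, Matrix.mul_zero,
        zero_mulVec]
  let ψ : Fin (finrank ℚ V1) → (κ₂ → B) → ℚ := fun i J =>
    Λ i (slL c Qᵀ (fun a => F *ᵥ Pi.single (J a) 1))
  -- the values of the second factors
  have hψ : ∀ i (v : κ₂ → B → ℚ), evalF (ψ i) v = Λ i (slL c Qᵀ (fun a => F *ᵥ v a)) := by
    intro i v
    have h1 : slL c Qᵀ (fun a => F *ᵥ v a) = ∑ J : κ₂ → B, (∏ a, v a (J a)) •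
        slL c Qᵀ (fun a => F *ᵥ Pi.single (J a) 1) := by
      funext I
      have h2 : slL c Qᵀ (fun a => F *ᵥ v a) I =
          evalF (slR c F (fun a => Qᵀ *ᵥ Pi.single (I a) 1)) v := by
        rw [evalF_slR]
        rfl
      rw [h2, Finset.sum_apply]
      unfold evalF
      refine Finset.sum_congr rfl fun J _ => ?_
      rw [Pi.smul_apply, smul_eq_mul, mul_comm]
      rfl
    rw [h1, map_sum]
    unfold evalF
    refine Finset.sum_congr rfl fun J _ => ?_
    rw [map_smul, smul_eq_mul, mul_comm]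
  refine ⟨finrank ℚ V1, fun i => (bb i : (κ₁ → B') → ℚ), ψ, fun i => (bb i).2, ?_, ?_, ?_⟩
  · intro i
    have h1 : cst ℂ (ψ i) = ∑ I : κ₁ → B', ((Λ i (Pi.single I 1) : ℚ) : ℂ) •
        slR (cst ℂ c) (cK ℂ F) (fun a => cK ℂ Qᵀ *ᵥ Pi.single (I a) 1) := by
      funext J
      have h2 : slL c Qᵀ (fun a => F *ᵥ Pi.single (J a) 1) = ∑ I : κ₁ → B',
          (slL c Qᵀ (fun a => F *ᵥ Pi.single (J a) 1) I) • (Pi.single I 1 : (κ₁ → B') → ℚ) := by
        funext I
        rw [Finset.sum_apply, Finset.sum_eq_single I]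
        · simp
        · intro I' _ hI'
          rw [Pi.smul_apply, Pi.single_eq_of_ne (Ne.symm hI'), smul_zero]
        · intro h
          exact absurd (Finset.mem_univ _) h
      change ((Λ i (slL c Qᵀ (fun a => F *ᵥ Pi.single (J a) 1)) : ℚ) : ℂ) = _
      rw [h2, map_sum, Rat.cast_sum, Finset.sum_apply]
      refine Finset.sum_congr rfl fun I _ => ?_
      rw [map_smul, smul_eq_mul, Rat.cast_mul, Pi.smul_apply, smul_eq_mul, mul_comm]
      congr 1
      unfold slL slR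
      rw [evalF_castK]
      congr 1
      funext k
      rcases k with k | k
      · exact cast_mulVec_single Qᵀ (I k)
      · exact cast_mulVec_single F (J k)
    change act D (cst ℂ (ψ i)) = 0
    rw [h1]
    have h2 : ∀ I : κ₁ → B', act D (slR (cst ℂ c) (cK ℂ F)
        (fun a => cK ℂ Qᵀ *ᵥ Pi.single (I a) 1)) = 0 := by
      intro I
      refine act_slR (Y := D - DS) ?_ (fun k => ?_) hcR
      · rw [hDR1, Matrix.mul_assoc, ← hDR2, hDR1, ← Matrix.mul_assoc, ← cK_mul, hFF]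
      · rw [mulVec_mulVec, hDR2, Matrix.mul_assoc, ← cK_mul, hFQ, cK_zero, Matrix.mul_zero,
          zero_mulVec]
    have h3 : ∀ s : Finset (κ₁ → B'), act D (∑ I ∈ s, ((Λ i (Pi.single I 1) : ℚ) : ℂ) •
        slR (cst ℂ c) (cK ℂ F) (fun a => cK ℂ Qᵀ *ᵥ Pi.single (I a) 1)) = 0 := by
      intro s
      induction s using Finset.induction_on with
      | empty => rw [Finset.sum_empty, act_zero_right]
      | insert a s ha ih => rw [Finset.sum_insert ha, act_add_right, ih, act_smul_right, h2,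
          smul_zero, add_zero]
    exact h3 _
  · intro i v v' h1
    rw [hψ, hψ]
    congr 2
    funext k
    exact h1 k
  · intro u v
    have h1 := bb.sum_repr ⟨slL c Qᵀ (fun a => F *ᵥ v a), hsl v⟩
    have h2 : ∀ i, bb.repr ⟨slL c Qᵀ (fun a => F *ᵥ v a), hsl v⟩ i = evalF (ψ i) v := by
      intro i
      rw [hψ]
      have h3 := congrArg (fun G => G ⟨slL c Qᵀ (fun a => F *ᵥ v a), hsl v⟩) (hΛ i)
      exact h3.symm
    have h3 := congrArg Subtype.val h1
    rw [← evalF_slL]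
    change evalF (⟨slL c Qᵀ (fun a => F *ᵥ v a), hsl v⟩ : V1).1 u = _
    rw [← h3]
    have h4 : ((∑ i, bb.repr ⟨slL c Qᵀ (fun a => F *ᵥ v a), hsl v⟩ i • bb i : V1) :
        (κ₁ → B') → ℚ) = ∑ i, evalF (ψ i) v • (bb i : (κ₁ → B') → ℚ) := by
      rw [Submodule.coe_sum]
      refine Finset.sum_congr rfl fun i _ => ?_
      rw [Submodule.coe_smul, h2]
    rw [h4]
    have h5 : evalF (∑ i, evalF (ψ i) v • (bb i : (κ₁ → B') → ℚ)) u =
        ∑ i, evalF (ψ i) v * evalF (bb i : (κ₁ → B') → ℚ) u := by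
      rw [evalF]
      simp only [Finset.sum_apply, Pi.smul_apply, smul_eq_mul, Finset.sum_mul]
      rw [Finset.sum_comm]
      refine Finset.sum_congr rfl fun i _ => ?_
      have h6 : evalF (bb i : (κ₁ → B') → ℚ) u = ∑ I, (bb i : (κ₁ → B') → ℚ) I *
          ∏ k, u k (I k) := rfl
      rw [h6, Finset.mul_sum]
      exact Finset.sum_congr rfl fun I _ => mul_assoc _ _ _
    rw [h5]
    exact Finset.sum_congr rfl fun i _ => mul_comm _ _

end rat

end

end Pool.Agent.TH504.CB
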