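import Mathlib
import Pool.Agent.TH504.CB.Slice

/-!
# Hodge tensors and Hodge classes
-/

set_option linter.unusedSectionVars false

namespace Pool.Agent.TH504.CB

open Matrix Equiv Module Pool.Agent.H204R3.SP Pool.Agent.H204R3.CM Pool.Agent.W437.HC
  Pool.Agent.W437.HD Pool.Agent.W437.HP Pool.Agent.TH131.GHC Pool.Agent.W546.GHC

noncomputable section

section rot

variable {B : Type*} [Fintype B] [DecidableEq B] {κ : Type*} [Fintype κ] [DecidableEq κ]

theorem hasDerivAt_rot (J : Matrix B B ℝ) (c : (κ → B) → ℝ) (x : κ → B → ℝ) :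
    HasDerivAt (fun θ : ℝ =>
      evalF c (fun k => Real.cos θ • x k + Real.sin θ • (J *ᵥ x k))) (evalF (act J c) x) 0 := by
  have h1 : HasDerivAt (fun θ : ℝ =>
      evalF c (fun k => Real.cos θ • x k + Real.sin θ • (J *ᵥ x k)))
      (∑ I, c I * ∑ k, (∏ l ∈ Finset.univ.erase k, (Real.cos 0 * x l (I l) +
        Real.sin 0 * (J *ᵥ x l) (I l))) • (-Real.sin 0 * x k (I k) +
          Real.cos 0 * (J *ᵥ x k) (I k))) 0 := by
    unfold evalF
    refine HasDerivAt.fun_sum fun I _ => ?_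
    refine HasDerivAt.const_mul _ ?_
    refine HasDerivAt.fun_finsetProd fun k _ => ?_
    exact ((Real.hasDerivAt_cos 0).mul_const _).add ((Real.hasDerivAt_sin 0).mul_const _)
  convert h1 using 1
  rw [evalF_act]
  unfold evalF
  rw [Finset.sum_comm]
  refine Finset.sum_congr rfl fun I _ => ?_
  rw [Finset.mul_sum]
  refine Finset.sum_congr rfl fun k _ => ?_
  rw [← Finset.mul_prod_erase _ _ (Finset.mem_univ k), Function.update_self]
  have h2 : ∏ l ∈ Finset.univ.erase k, Function.update x k (J *ᵥ (x k)) l (I l) =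
      ∏ l ∈ Finset.univ.erase k, x l (I l) := by
    refine Finset.prod_congr rfl fun l hl => ?_
    rw [Function.update_of_ne (Finset.ne_of_mem_erase hl)]
  rw [h2]
  simp only [Real.cos_zero, Real.sin_zero, one_mul, zero_mul, add_zero, neg_zero, zero_add,
    smul_eq_mul]
  ring

/-- Tensors killed by the complex structure are invariant under rotations. -/
theorem rot_of_act {J : Matrix B B ℝ} (hJ : J * J = -1) {c : (κ → B) → ℝ} (h : act J c = 0)
    (θ : ℝ) (x : κ → B → ℝ) :
    evalF c (fun k => Real.cos θ • x k + Real.sin θ • (J *ᵥ x k)) = evalF c x := by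
  have hd : ∀ θ₀ : ℝ, HasDerivAt (fun θ : ℝ =>
      evalF c (fun k => Real.cos θ • x k + Real.sin θ • (J *ᵥ x k))) 0 θ₀ := by
    intro θ₀
    have h1 := hasDerivAt_rot J c (fun k => Real.cos θ₀ • x k + Real.sin θ₀ • (J *ᵥ x k))
    rw [h, evalF_zero] at h1
    have h2 : HasDerivAt (fun s : ℝ => evalF c (fun k =>
        Real.cos (s - θ₀) • (Real.cos θ₀ • x k + Real.sin θ₀ • (J *ᵥ x k)) +
        Real.sin (s - θ₀) • (J *ᵥ (Real.cos θ₀ • x k + Real.sin θ₀ • (J *ᵥ x k))))) 0 θ₀ := by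
      have h3 := HasDerivAt.comp_sub_const (f := fun θ : ℝ => evalF c (fun k =>
        Real.cos θ • (Real.cos θ₀ • x k + Real.sin θ₀ • (J *ᵥ x k)) +
        Real.sin θ • (J *ᵥ (Real.cos θ₀ • x k + Real.sin θ₀ • (J *ᵥ x k))))) θ₀ θ₀
        (f' := 0) (by rw [sub_self]; exact h1)
      exact h3
    convert h2 using 1
    funext s
    congr 1
    funext k
    have h3 : J *ᵥ (Real.cos θ₀ • x k + Real.sin θ₀ • (J *ᵥ x k)) =
        Real.cos θ₀ • (J *ᵥ x k) - Real.sin θ₀ • x k := by
      rw [mulVec_add, mulVec_smul, mulVec_smul, mulVec_mulVec, hJ, neg_mulVec, one_mulVec,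
        smul_neg, ← sub_eq_add_neg]
    rw [h3]
    have h4 : Real.cos s = Real.cos (s - θ₀) * Real.cos θ₀ - Real.sin (s - θ₀) * Real.sin θ₀ := by
      rw [← Real.cos_add, sub_add_cancel]
    have h5 : Real.sin s = Real.sin (s - θ₀) * Real.cos θ₀ + Real.cos (s - θ₀) * Real.sin θ₀ := by
      rw [← Real.sin_add, sub_add_cancel]
    funext i
    simp only [Pi.add_apply, Pi.smul_apply, Pi.sub_apply, smul_eq_mul]
    rw [h4, h5]
    ring
  have h1 := is_const_of_deriv_eq_zero (fun θ₀ => (hd θ₀).differentiableAt)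
    (fun θ₀ => (hd θ₀).deriv) θ 0
  rw [h1]
  congr 1
  funext k
  rw [Real.cos_zero, Real.sin_zero, one_smul, zero_smul, add_zero]

theorem act_real {J : Matrix B B ℝ} {D : Matrix B B ℂ}
    (hD : D = (-Complex.I) • J.map (fun x : ℝ => (x : ℂ))) {c : (κ → B) → ℚ} :
    IsH D c ↔ act J (cst ℝ c) = 0 := by
  have h1 : ∀ I, act (J.map (fun x : ℝ => (x : ℂ))) (cst ℂ c) I =
      ((act J (cst ℝ c) I : ℝ) : ℂ) := by
    intro I
    simp [act, cst]
  constructor
  · intro h
    have h2 : (-Complex.I) • act (J.map (fun x : ℝ => (x : ℂ))) (cst ℂ c) = 0 := by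
      rw [← act_smul_left, ← hD]
      exact h
    have h3 := (smul_eq_zero.1 h2).resolve_left (neg_ne_zero.2 Complex.I_ne_zero)
    funext I
    have h4 := congrFun h3 I
    rw [h1, Pi.zero_apply] at h4
    exact_mod_cast h4
  · intro h
    unfold IsH
    rw [hD, act_smul_left]
    have h2 : act (J.map (fun x : ℝ => (x : ℂ))) (cst ℂ c) = 0 := by
      funext I
      rw [h1, h]
      simp
    rw [h2, smul_zero]

end rot

variable {W T : Type*} [AddCommGroup W] [Module ℚ W] [AddCommGroup T] [Module ℂ T]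
  {per : W →+ T} {B : Type*} [Fintype B] [DecidableEq B] {J : Matrix B B ℝ} {ν : Type}
  [Fintype ν] [DecidableEq ν] (Fr : Frame per J ν) {κ : Type} [Fintype κ] [DecidableEq κ]
  {D : Matrix B B ℂ} (hD : D = (-Complex.I) • J.map (fun x : ℝ => (x : ℂ)))

include hD in
/-- The coordinates of Hodge classes are Hodge tensors. -/
theorem isH_cf {f : W [⋀^κ]→ₗ[ℚ] ℚ} (hf : IsHodge per f) (σ : κ → ν) : IsH D (Fr.cf σ f) := by
  obtain ⟨ψ, hψ1, hψ2⟩ := hf
  rw [act_real hD]
  have h1 : ∀ x : κ → B → ℝ,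
      ψ (fun k => Fr.sR (σ k) (x k)) = evalF (cst ℝ (Fr.cf σ f)) x := by
    intro x
    rw [show ψ (fun k => Fr.sR (σ k) (x k)) = ψ.compLinearMap (fun k => Fr.sR (σ k)) x from rfl,
      multi_eq]
    congr 1
    funext I
    change ψ (fun k => Fr.sR (σ k) (Pi.single (I k) 1)) = ((Fr.cf σ f I : ℚ) : ℝ)
    rw [Fr.cf_apply, ← hψ1]
    congr 1
    funext k
    rw [← Fr.sR_per]
    congr 1
    funext i
    by_cases hi : i = I k
    · subst hi
      rw [Pi.single_eq_same, Pi.single_eq_same, Rat.cast_one]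
    · rw [Pi.single_eq_of_ne hi, Pi.single_eq_of_ne hi, Rat.cast_zero]
  apply act_of_rotate
  intro θ x
  rw [← h1, ← h1]
  refine Eq.trans ?_ (hψ2 (Complex.cos θ + Complex.sin θ * Complex.I) (by
    rw [← Complex.exp_mul_I, Complex.norm_exp_ofReal_mul_I]) _)
  congr 1
  funext k
  rw [map_add, map_smul, map_smul, Fr.sR_rot, add_smul, mul_smul]
  congr 1
  · rw [← Complex.ofReal_cos]
    exact (RCLike.real_smul_eq_coe_smul (K := ℂ) (Real.cos θ) (Fr.sR (σ k) (x k)))
  · rw [← Complex.ofReal_sin]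
    exact (RCLike.real_smul_eq_coe_smul (K := ℂ) (Real.sin θ) (Complex.I • Fr.sR (σ k) (x k)))

include hD in
/-- Hodge tensors give Hodge classes. -/
theorem isHodge_pf (hJ : J * J = -1) {c : (κ → B) → ℚ} (hc : IsH D c) (σ : κ → ν) :
    IsHodge per (MultilinearMap.alternatization
      ((evalM c).compLinearMap (fun k => Fr.a (σ k)))) := by
  refine isHodge_alt ((evalM (cst ℝ c)).compLinearMap (fun k => Fr.aR (σ k)))
    (fun v => ?_) (fun z hz u => ?_)
  · rw [MultilinearMap.compLinearMap_apply, MultilinearMap.compLinearMap_apply, evalM_apply,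
      evalM_apply, evalF_castK]
    congr 1
    funext k
    exact Fr.aR_per (σ k) (v k)
  · rw [MultilinearMap.compLinearMap_apply, MultilinearMap.compLinearMap_apply, evalM_apply,
      evalM_apply]
    have h1 : z.re = Real.cos z.arg ∧ z.im = Real.sin z.arg := by
      have h2 := Complex.norm_mul_cos_arg z
      have h3 := Complex.norm_mul_sin_arg z
      rw [hz, one_mul] at h2 h3
      exact ⟨h2.symm, h3.symm⟩
    have h2 : (fun k => Fr.aR (σ k) (z • u k)) = fun k => Real.cos z.arg • Fr.aR (σ k) (u k) +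
        Real.sin z.arg • (J *ᵥ Fr.aR (σ k) (u k)) := by
      funext k
      rw [Fr.aR_rot, h1.1, h1.2]
    rw [h2]
    exact rot_of_act hJ ((act_real hD).1 hc) z.arg _

end

end Pool.Agent.TH504.CB
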