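import Mathlib
import Pool.Agent.TH125.VhcMain
import Pool.Agent.TH504.CB.Fr

/-!
# Hodge classes on a product which are sums of products of Hodge classes
-/

set_option linter.unusedSectionVars false

namespace Pool.Agent.TH504.CB

open Matrix Equiv Module Pool.Agent.H204R3.SP Pool.Agent.H204R3.CM Pool.Agent.H204R3.GH
  Pool.Agent.W437.HC Pool.Agent.W437.HD Pool.Agent.W437.HP Pool.Agent.TH131.GHC
  Pool.Agent.W546.GHC

noncomputable section

section pull

variable {B B' : Type*} [Fintype B] [DecidableEq B] [Fintype B'] [DecidableEq B']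
  {D : Matrix B B ℂ} {D' : Matrix B' B' ℂ} {Q : Matrix B' B ℚ}

theorem pull_mulB {κ : Type*} [Fintype κ] [DecidableEq κ] {a b : κ} (hab : a ≠ b)
    (β : Matrix B' B' ℚ) (c : ({l // l ≠ a ∧ l ≠ b} → B') → ℚ) :
    pull Q (mulB a b β c) = mulB a b (Qᵀ * β * Q) (pull Q c) := by
  refine evalF_ext fun x => ?_
  rw [evalF_pull, evalF_mulB hab, evalF_mulB hab, evalF_pull]
  congr 1
  rw [dotProduct_mulVec, ← vecMul_transpose, vecMul_vecMul, dotProduct_mulVec, vecMul_vecMul,
    ← dotProduct_mulVec]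

theorem pull_bilc (β : Matrix B' B' ℚ) : pull Q (bilc β) = bilc (Qᵀ * β * Q) := by
  refine evalF_ext fun x => ?_
  rw [evalF_pull, evalF_bilc, evalF_bilc]
  rw [dotProduct_mulVec, ← vecMul_transpose, vecMul_vecMul, dotProduct_mulVec, vecMul_vecMul,
    ← dotProduct_mulVec]

/-- Pullbacks of products of Hodge tensors. -/
theorem pull_IJ (hQD : cK ℂ Q * D = D' * cK ℂ Q) (j : ℕ) :
    ∀ (κ : Type) [Fintype κ] [DecidableEq κ] (c : (κ → B') → ℚ), c ∈ IJ D' j κ →
      pull Q c ∈ IJ D j κ := by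
  induction j with
  | zero =>
    intro κ _ _ c _
    exact Submodule.mem_top
  | succ j ih =>
    intro κ _ _ c hc
    change c ∈ Submodule.span ℚ _ at hc
    change pull Q c ∈ Submodule.span ℚ _
    have hadd : ∀ x y : (κ → B') → ℚ, pull Q (x + y) = pull Q x + pull Q y := by
      intro x y
      funext I
      simp only [pull, Pi.add_apply, add_mul, Finset.sum_add_distrib]
    have hsmul : ∀ (r : ℚ) (x : (κ → B') → ℚ), pull Q (r • x) = r • pull Q x := by
      intro r x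
      funext I
      simp only [pull, Pi.smul_apply, smul_eq_mul, mul_assoc, Finset.mul_sum]
    induction hc using Submodule.span_induction with
    | zero =>
      rw [pull_zero]
      exact Submodule.zero_mem _
    | add x y _ _ hx hy =>
      rw [hadd]
      exact Submodule.add_mem _ hx hy
    | smul r x _ hx =>
      rw [hsmul]
      exact Submodule.smul_mem _ _ hx
    | mem F hF =>
      obtain ⟨a, b, β, c, hab, hβ, hc, rfl⟩ := hF
      refine Submodule.subset_span ⟨a, b, Qᵀ * β * Q, pull Q c, hab, ?_, ih _ c hc,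
        pull_mulB hab β c⟩
      rw [← pull_bilc]
      exact isH_pull hQD hβ

end pull

section alt

variable {W T : Type*} [AddCommGroup W] [Module ℚ W] [AddCommGroup T] [Module ℂ T]
  (per : W →+ T) (same : W → W → Prop)

/-- The form only depends on the classes of the arguments. -/
def Only {l : ℕ} (η : (Fin l → W) → ℚ) : Prop :=
  ∀ v v' : Fin l → W, (∀ a, same (v a) (v' a)) → η v = η v'

/-- The wedge products of Hodge classes of degree two and a Hodge class which only depends on the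
classes of the arguments. -/
def prodSet (k : ℕ) : Set (W [⋀^Fin k]→ₗ[ℚ] ℚ) :=
  {f | ∃ (r l : ℕ) (e : (Fin r × Fin 2) ⊕ Fin l ≃ Fin k) (B : Fin r → W [⋀^Fin 2]→ₗ[ℚ] ℚ)
    (η : W [⋀^Fin l]→ₗ[ℚ] ℚ), (∀ s, IsHodge per (B s)) ∧ IsHodge per η ∧
      Only same (fun v => η v) ∧
    ∀ v : Fin k → W, f v = ∑ σ : Equiv.Perm (Fin k), (Equiv.Perm.sign σ : ℤ) *
      ((∏ s, B s ![v (σ (e (Sum.inl (s, 0)))), v (σ (e (Sum.inl (s, 1))))]) *
        η (fun r => v (σ (e (Sum.inr r)))))}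

/-- The products before alternation. -/
def SR (κ : Type) : Set ((κ → W) → ℚ) :=
  {F | ∃ (r l : ℕ) (e : (Fin r × Fin 2) ⊕ Fin l ≃ κ)
    (b : Fin r → MultilinearMap ℚ (fun _ : Fin 2 => W) ℚ)
    (η : MultilinearMap ℚ (fun _ : Fin l => W) ℚ),
    (∀ s, IsHodge per (MultilinearMap.alternatization (b s))) ∧
    IsHodge per (MultilinearMap.alternatization η) ∧ Only same (fun v => η v) ∧
    F = fun v => (∏ s, b s (fun ε => v (e (Sum.inl (s, ε))))) * η (fun r => v (e (Sum.inr r)))}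

variable {per same}

theorem alt_SR {i : ℕ} (f : W [⋀^Fin i]→ₗ[ℚ] ℚ)
    (hf : (fun v => f v) ∈ Submodule.span ℚ (SR per same (Fin i))) :
    f ∈ Submodule.span ℚ (prodSet per same i) := by
  classical
  have hA : altFun (R := ℚ) (fun v => f v) ∈
      Submodule.map (altFun (R := ℚ)) (Submodule.span ℚ (SR per same (Fin i))) :=
    Submodule.mem_map_of_mem hf
  rw [Submodule.map_span, altFun_alt] at hA
  let K : (W [⋀^Fin i]→ₗ[ℚ] ℚ) →ₗ[ℚ] ((Fin i → W) → ℚ) :=
    { toFun := fun g v => g v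
      map_add' := fun _ _ => rfl
      map_smul' := fun _ _ => rfl }
  have hKinj : Function.Injective K := fun g g' h => AlternatingMap.ext fun v => congrFun h v
  have hsub : altFun (R := ℚ) '' (SR per same (Fin i)) ⊆
      (Submodule.span ℚ (prodSet per same i)).map K := by
    rintro _ ⟨_, ⟨j, k, e, b, η, hb, hη, hη', rfl⟩, rfl⟩
    let A : Fin j → W [⋀^Fin 2]→ₗ[ℚ] ℚ := fun s => MultilinearMap.alternatization (b s)
    let H : W [⋀^Fin k]→ₗ[ℚ] ℚ := MultilinearMap.alternatization η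
    let g : W [⋀^Fin i]→ₗ[ℚ] ℚ := MultilinearMap.alternatization
      (prodForm e (fun s => (A s).toMultilinearMap) H.toMultilinearMap)
    have hg : ∀ v, g v = ∑ σ : Perm (Fin i), ((Perm.sign σ : ℤ) : ℚ) *
        ((∏ s, A s (fun ε => v (σ (e (Sum.inl (s, ε)))))) *
          H (fun r => v (σ (e (Sum.inr r))))) := by
      intro v
      change MultilinearMap.alternatization _ v = _
      rw [MultilinearMap.alternatization_apply]
      refine Finset.sum_congr rfl fun σ _ => ?_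
      rw [Units.smul_def, zsmul_eq_mul, MultilinearMap.domDomCongr_apply, prodForm_apply]
      rfl
    have hH : Only same (fun v => H v) := by
      intro v v' hvv
      change MultilinearMap.alternatization η v = MultilinearMap.alternatization η v'
      rw [MultilinearMap.alternatization_apply, MultilinearMap.alternatization_apply]
      refine Finset.sum_congr rfl fun σ _ => ?_
      rw [MultilinearMap.domDomCongr_apply, MultilinearMap.domDomCongr_apply]
      congr 1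
      exact hη' _ _ fun a => hvv (σ a)
    have hgT : g ∈ prodSet per same i := by
      refine ⟨j, k, e, A, H, hb, hη, hH, fun v => ?_⟩
      rw [hg v]
      refine Finset.sum_congr rfl fun σ _ => ?_
      congr 2
      refine Finset.prod_congr rfl fun s _ => ?_
      congr 1
      funext ε
      fin_cases ε <;> rfl
    refine ⟨(((2 : ℚ) ^ j * (k.factorial : ℚ))⁻¹) • g,
      Submodule.smul_mem _ _ (Submodule.subset_span hgT), ?_⟩
    rw [map_smul]
    funext v
    have h2 : (K g) v = ((2 : ℚ) ^ j * (k.factorial : ℚ)) *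
        ∑ σ : Perm (Fin i), ((Perm.sign σ : ℤ) : ℚ) *
          ((∏ s, b s (fun ε => v (σ (e (Sum.inl (s, ε)))))) *
            η (fun r => v (σ (e (Sum.inr r))))) := by
      change g v = _
      rw [hg v]
      exact alt_gen e b η v
    have h6 : (2 : ℚ) ^ j * (k.factorial : ℚ) ≠ 0 :=
      mul_ne_zero (pow_ne_zero _ two_ne_zero) (Nat.cast_ne_zero.2 (Nat.factorial_ne_zero _))
    rw [Pi.smul_apply, h2, smul_eq_mul, ← mul_assoc, inv_mul_cancel₀ h6, one_mul]
    rfl
  have h1 : ((Fintype.card (Fin i)).factorial : ℚ) • (fun v => f v) ∈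
      (Submodule.span ℚ (prodSet per same i)).map K := Submodule.span_le.2 hsub hA
  have hne : ((Fintype.card (Fin i)).factorial : ℚ) ≠ 0 :=
    Nat.cast_ne_zero.2 (Nat.factorial_ne_zero _)
  have h2 : (fun v => f v) ∈ (Submodule.span ℚ (prodSet per same i)).map K := by
    have h3 := Submodule.smul_mem _ (((Fintype.card (Fin i)).factorial : ℚ))⁻¹ h1
    rwa [smul_smul, inv_mul_cancel₀ hne, one_smul] at h3
  obtain ⟨f', hf', hff⟩ := h2
  have h3 : f' = f := hKinj hff
  rw [← h3]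
  exact hf'

end alt

section main

variable {W T : Type*} [AddCommGroup W] [Module ℚ W] [AddCommGroup T] [Module ℂ T]
  {per : W →+ T} {same : W → W → Prop} {B B' : Type*} [Fintype B] [DecidableEq B] [Fintype B']
  [DecidableEq B'] {J : Matrix B B ℝ} {ν : Type}
  [Fintype ν] [DecidableEq ν] (Fr : Frame per J ν)
  {D : Matrix B B ℂ} (hD : D = (-Complex.I) • J.map (fun x : ℝ => (x : ℂ))) (hJ : J * J = -1)
  {D' : Matrix B' B' ℂ} {Q : Matrix B' B ℚ}

theorem evalF_reindex {κ κ' : Type*} [Fintype κ] [DecidableEq κ] [Fintype κ'] [DecidableEq κ']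
    (e : κ ≃ κ') (c : (κ' → B) → ℚ) (x : κ' → B → ℚ) :
    evalF c x = evalF (fun I : κ → B => c (fun k => I (e.symm k))) (fun k => x (e k)) := by
  unfold evalF
  refine Fintype.sum_equiv (Equiv.arrowCongr e.symm (Equiv.refl B)) _ _ fun I => ?_
  have h1 : (fun k => (Equiv.arrowCongr e.symm (Equiv.refl B)) I (e.symm k)) = I := by
    funext k
    simp [Equiv.arrowCongr]
  change c I * _ = c (fun k => (Equiv.arrowCongr e.symm (Equiv.refl B)) I (e.symm k)) * _
  rw [h1]
  congr 1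
  exact Fintype.prod_equiv e.symm _ _ fun k => by simp [Equiv.arrowCongr]

include hD hJ in
/-- Products of the two kinds of forms. -/
theorem mul_mem_SR (hsame : ∀ w w', same w w' → ∀ j,
      (1 - Qᵀ * Q) *ᵥ Fr.a j w = (1 - Qᵀ * Q) *ᵥ Fr.a j w')
    {κ κ₁ κ₂ : Type} [Fintype κ] [DecidableEq κ] [Fintype κ₁] [DecidableEq κ₁] [Fintype κ₂]
    [DecidableEq κ₂] (e : κ₁ ⊕ κ₂ ≃ κ) (σ : κ → ν) {r : ℕ} (hr : Fintype.card κ₁ = 2 * r)
    {x : (κ₁ → B) → ℚ} (hx : x ∈ IJ D r κ₁) {ψ : (κ₂ → B) → ℚ} (hψ : IsH D ψ)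
    (hψ' : ∀ v v' : κ₂ → B → ℚ, (∀ k, (1 - Qᵀ * Q) *ᵥ v k = (1 - Qᵀ * Q) *ᵥ v' k) →
        evalF ψ v = evalF ψ v') :
    (fun v : κ → W => evalF x (fun k => Fr.a (σ (e (Sum.inl k))) (v (e (Sum.inl k)))) *
      evalF ψ (fun k => Fr.a (σ (e (Sum.inr k))) (v (e (Sum.inr k))))) ∈
      Submodule.span ℚ (SR per same κ) := by
  classical
  obtain ⟨e₂⟩ : Nonempty (Fin (Fintype.card κ₂) ≃ κ₂) := ⟨(Fintype.equivFin κ₂).symm⟩
  let ψ2 : (Fin (Fintype.card κ₂) → B) → ℚ := fun I => ψ (fun k => I (e₂.symm k))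
  have hψ2 : IsH D ψ2 := isH_reindex D e₂ hψ
  let η : MultilinearMap ℚ (fun _ : Fin (Fintype.card κ₂) => W) ℚ :=
    (evalM ψ2).compLinearMap (fun k => Fr.a (σ (e (Sum.inr (e₂ k)))))
  have hη1 : IsHodge per (MultilinearMap.alternatization η) :=
    isHodge_pf Fr hD hJ hψ2 (fun k => σ (e (Sum.inr (e₂ k))))
  have hηv : ∀ v : Fin (Fintype.card κ₂) → W, η v =
      evalF ψ2 (fun k => Fr.a (σ (e (Sum.inr (e₂ k)))) (v k)) := fun v => rfl
  have hψe : ∀ y : κ₂ → B → ℚ, evalF ψ y = evalF ψ2 (fun k => y (e₂ k)) :=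
    fun y => evalF_reindex e₂ ψ y
  have hη2 : Only same (fun v => η v) := by
    intro v v' hvv
    change η v = η v'
    rw [hηv, hηv]
    have h1 : ∀ z : Fin (Fintype.card κ₂) → B → ℚ, evalF ψ2 z =
        evalF ψ (fun k => z (e₂.symm k)) := by
      intro z
      rw [hψe]
      congr 1
      funext k
      rw [Equiv.symm_apply_apply]
    rw [h1, h1]
    refine hψ' _ _ fun k => ?_
    exact hsame _ _ (hvv _) _
  let Lm : ((κ₁ → W) → ℚ) →ₗ[ℚ] ((κ → W) → ℚ) :=
    { toFun := fun F v => F (fun k => v (e (Sum.inl k))) *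
        evalF ψ (fun k => Fr.a (σ (e (Sum.inr k))) (v (e (Sum.inr k))))
      map_add' := fun F G => by
        funext v
        simp only [Pi.add_apply, add_mul]
      map_smul' := fun r F => by
        funext v
        simp only [Pi.smul_apply, smul_eq_mul, RingHom.id_apply, mul_assoc] }
  have h1 := Fr.pf_mem hD hJ r κ₁ (fun k => σ (e (Sum.inl k))) x hx
  have h2 := Submodule.mem_map_of_mem (f := Lm) h1
  rw [Submodule.map_span] at h2
  refine Submodule.span_le.2 ?_ h2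
  rintro _ ⟨_, ⟨k', e₁, b, η₀, hb, rfl⟩, rfl⟩
  have hk' : k' = 0 := by
    have h3 := Fintype.card_congr e₁
    simp only [Fintype.card_sum, Fintype.card_prod, Fintype.card_fin] at h3
    omega
  subst hk'
  let e₁' : Fin r × Fin 2 ≃ κ₁ := (Equiv.sumEmpty (Fin r × Fin 2) (Fin 0)).symm.trans e₁
  let E : (Fin r × Fin 2) ⊕ Fin (Fintype.card κ₂) ≃ κ := (Equiv.sumCongr e₁' e₂).trans e
  have h3 : Lm (fun v => (∏ s, b s (fun ε => v (e₁ (Sum.inl (s, ε))))) *
      η₀ (fun r => v (e₁ (Sum.inr r)))) = (η₀ (fun r => r.elim0)) •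
      (fun v : κ → W => (∏ s, b s (fun ε => v (E (Sum.inl (s, ε))))) *
        η (fun r => v (E (Sum.inr r)))) := by
    funext v
    change ((∏ s, b s (fun ε => v (e (Sum.inl (e₁ (Sum.inl (s, ε))))))) *
      η₀ (fun r => v (e (Sum.inl (e₁ (Sum.inr r)))))) *
        evalF ψ (fun k => Fr.a (σ (e (Sum.inr k))) (v (e (Sum.inr k)))) =
      (η₀ (fun r => r.elim0)) * ((∏ s, b s (fun ε => v (E (Sum.inl (s, ε))))) *
        η (fun r => v (E (Sum.inr r))))
    have h4 : (fun r : Fin 0 => v (e (Sum.inl (e₁ (Sum.inr r))))) = fun r => r.elim0 :=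
      funext fun r => r.elim0
    have h5 : evalF ψ (fun k => Fr.a (σ (e (Sum.inr k))) (v (e (Sum.inr k)))) =
        η (fun r => v (E (Sum.inr r))) := by
      rw [hψe]
      rfl
    have h6 : ∀ s ε, v (E (Sum.inl (s, ε))) = v (e (Sum.inl (e₁ (Sum.inl (s, ε))))) :=
      fun s ε => rfl
    rw [h4, h5]
    simp only [h6]
    ring
  rw [h3]
  exact Submodule.smul_mem _ _ (Submodule.subset_span
    ⟨r, Fintype.card κ₂, E, b, η, hb, hη1, hη2, rfl⟩)

include hD hJ in
/-- **Hodge classes are sums of products**. -/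
theorem mem_prodSet (hsame : ∀ w w', same w w' → ∀ j,
      (1 - Qᵀ * Q) *ᵥ Fr.a j w = (1 - Qᵀ * Q) *ᵥ Fr.a j w')
    (hQQ : Q * Qᵀ = 1) (hQD : cK ℂ Q * D = D' * cK ℂ Q)
    (hQD' : D * (cK ℂ Q)ᵀ = (cK ℂ Q)ᵀ * D')
    (hmem : (cK ℂ Q)ᵀ * D' * cK ℂ Q ∈ lieM D ℂ) (hdd : D' * D' = 1)
    (hIJ : ∀ (r : ℕ) (κ : Type) [Fintype κ] [DecidableEq κ] (c : (κ → B') → ℚ),
      Fintype.card κ = 2 * r → IsH D' c → c ∈ IJ D' r κ)
    {k : ℕ} {f : W [⋀^Fin k]→ₗ[ℚ] ℚ} (hf : IsHodge per f) :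
    f ∈ Submodule.span ℚ (prodSet per same k) := by
  classical
  apply alt_SR
  have h1 : (fun v => f v) = ∑ σ : Fin k → ν, Fr.pf σ (Fr.cf σ f) := by
    funext v
    rw [Fr.expand f v, Finset.sum_apply]
    rfl
  rw [h1]
  refine Submodule.sum_mem _ fun σ _ => ?_
  have hx := isH_cf Fr hD hf σ
  obtain ⟨x, hxdef⟩ : ∃ x, x = Fr.cf σ f := ⟨_, rfl⟩
  rw [← hxdef] at hx ⊢
  let E : Bool → Matrix B B ℚ := fun b => if b = true then Qᵀ * Q else 1 - Qᵀ * Q
  have h2 : Fr.pf σ x = ∑ τ : Fin k → Bool,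
      (fun v : Fin k → W => evalF x (fun i => E (τ i) *ᵥ Fr.a (σ i) (v i))) := by
    funext v
    rw [Fr.pf_apply, Finset.sum_apply]
    have h3 : (fun i => Fr.a (σ i) (v i)) = fun i => ∑ b : Bool, E b *ᵥ Fr.a (σ i) (v i) := by
      funext i
      rw [Fintype.sum_bool]
      change _ = (Qᵀ * Q) *ᵥ _ + (1 - Qᵀ * Q) *ᵥ _
      rw [← add_mulVec, add_sub_cancel, one_mulVec]
    conv_lhs => rw [h3]
    exact (evalM x).map_sum (fun i b => E b *ᵥ Fr.a (σ i) (v i))
  rw [h2]
  refine Submodule.sum_mem _ fun τ _ => ?_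
  let e : {i // τ i = true} ⊕ {i // ¬τ i = true} ≃ Fin k := Equiv.sumCompl (fun i => τ i = true)
  obtain ⟨m, φ, ψ, hφ, hψ, hψ', hdec⟩ := decompose (κ₁ := {i // τ i = true})
    (κ₂ := {i // ¬τ i = true}) hQQ hQD hQD' hmem (isH_reindex D e hx)
  have h3 : (fun v : Fin k → W => evalF x (fun i => E (τ i) *ᵥ Fr.a (σ i) (v i))) =
      ∑ i, (fun v : Fin k → W => evalF (pull Q (φ i))
        (fun k => Fr.a (σ (e (Sum.inl k))) (v (e (Sum.inl k)))) *
        evalF (ψ i) (fun k => Fr.a (σ (e (Sum.inr k))) (v (e (Sum.inr k))))) := by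
    funext v
    rw [evalF_reindex e, Finset.sum_apply]
    have h4 := hdec (fun k => Q *ᵥ Fr.a (σ (e (Sum.inl k))) (v (e (Sum.inl k))))
      (fun k => Fr.a (σ (e (Sum.inr k))) (v (e (Sum.inr k))))
    have h5 : (fun k => E (τ (e k)) *ᵥ Fr.a (σ (e k)) (v (e k))) =
        Sum.elim (fun a => Qᵀ *ᵥ (Q *ᵥ Fr.a (σ (e (Sum.inl a))) (v (e (Sum.inl a)))))
          (fun a => (1 - Qᵀ * Q) *ᵥ Fr.a (σ (e (Sum.inr a))) (v (e (Sum.inr a)))) := by
      funext p
      rcases p with p | p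
      · have h6 : τ (e (Sum.inl p)) = true := p.2
        change E (τ (e (Sum.inl p))) *ᵥ _ = Qᵀ *ᵥ (Q *ᵥ _)
        rw [mulVec_mulVec, h6]
        rfl
      · have h6 : τ (e (Sum.inr p)) = false := by
          have h7 := p.2
          rwa [Bool.not_eq_true] at h7
        change E (τ (e (Sum.inr p))) *ᵥ _ = (1 - Qᵀ * Q) *ᵥ _
        rw [h6]
        rfl
    rw [h5, h4]
    refine Finset.sum_congr rfl fun i _ => ?_
    rw [evalF_pull]
  rw [h3]
  refine Submodule.sum_mem _ fun i _ => ?_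
  by_cases hodd : Odd (Fintype.card {i // τ i = true})
  · have h4 : φ i = 0 := Pool.Agent.TH504.VY.isH_odd hdd (hφ i) hodd
    rw [h4, pull_zero]
    have h5 : (fun v : Fin k → W => evalF (0 : ({i // τ i = true} → B) → ℚ)
        (fun k => Fr.a (σ (e (Sum.inl k))) (v (e (Sum.inl k)))) *
        evalF (ψ i) (fun k => Fr.a (σ (e (Sum.inr k))) (v (e (Sum.inr k))))) = 0 := by
      funext v
      rw [evalF_zero, zero_mul]
      rfl
    rw [h5]
    exact Submodule.zero_mem _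
  · obtain ⟨r, hr⟩ := Nat.not_odd_iff_even.1 hodd
    have hr' : Fintype.card {i // τ i = true} = 2 * r := by omega
    exact mul_mem_SR Fr hD hJ hsame e σ hr'
      (pull_IJ hQD r _ _ (hIJ r _ _ hr' (hφ i))) (hψ i) (hψ' i)

end main

end

end Pool.Agent.TH504.CB
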