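import Mathlib
import Pool.Agent.TH504.CB.Prod

/-!
# Hodge classes in the ideal of the divisor classes
-/

set_option linter.unusedSectionVars false

namespace Pool.Agent.TH504.CB

open Matrix Equiv Module Pool.Agent.H204R3.SP Pool.Agent.H204R3.CM Pool.Agent.H204R3.GH
  Pool.Agent.W437.HC Pool.Agent.W437.HD Pool.Agent.W437.HP Pool.Agent.TH131.GHC
  Pool.Agent.W546.GHC

noncomputable section

section ideal

variable {B : Type*} [Fintype B] [DecidableEq B] {D : Matrix B B ℂ}

theorem HL_of_isH {κ : Type*} [Fintype κ] [DecidableEq κ] {V : Submodule ℚ ((κ → B) → ℚ)}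
    (hV : ∀ c ∈ V, IsH D c) : HL D 0 V := by
  intro c hc
  refine Submodule.mem_iSup_of_mem (⟨0, by simp⟩ : {a : ℤ // |a| ≤ 0}) ⟨cst_mem_cx hc, ?_⟩
  change act D (cst ℂ c) = ((0 : ℤ) : ℂ) • cst ℂ c
  rw [show act D (cst ℂ c) = 0 from hV c hc, Int.cast_zero, zero_smul]

/-- The products of an invariant bilinear form and a Hodge class. -/
def MM (D : Matrix B B ℂ) (κ : Type) [Fintype κ] [DecidableEq κ] :
    Submodule ℚ ((κ → B) → ℚ) :=
  Submodule.span ℚ {F | ∃ (a b : κ) (β : Matrix B B ℚ) (c : ({l // l ≠ a ∧ l ≠ b} → B) → ℚ),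
    a ≠ b ∧ IsH D (bilc β) ∧ IsH D c ∧ F = mulB a b β c}

theorem isH_mulB {κ : Type*} [Fintype κ] [DecidableEq κ] {a b : κ} (hab : a ≠ b)
    {β : Matrix B B ℚ} (hβ : IsH D (bilc β)) {c : ({l // l ≠ a ∧ l ≠ b} → B) → ℚ}
    (hc : IsH D c) : IsH D (mulB a b β c) := by
  obtain ⟨fC, h1, h2⟩ := isHM_mulB (D := D) hab hβ
  change act D (cst ℂ _) = 0
  rw [← h1, h2, show act D (cst ℂ c) = 0 from hc, map_zero]

theorem isH_HM {κ κ' : Type*} [Fintype κ] [DecidableEq κ] [Fintype κ'] [DecidableEq κ']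
    {f : ((κ → B) → ℚ) →ₗ[ℚ] ((κ' → B) → ℚ)} (hf : IsHM D f) {c : (κ → B) → ℚ}
    (hc : IsH D c) : IsH D (f c) := by
  obtain ⟨fC, h1, h2⟩ := hf
  change act D (cst ℂ _) = 0
  rw [← h1, h2, show act D (cst ℂ c) = 0 from hc, map_zero]

theorem isH_MM {κ : Type} [Fintype κ] [DecidableEq κ] {c : (κ → B) → ℚ} (hc : c ∈ MM D κ) :
    IsH D c := by
  induction hc using Submodule.span_induction with
  | mem F hF =>
    obtain ⟨a, b, β, c, hab, hβ, hc, rfl⟩ := hF
    exact isH_mulB hab hβ hc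
  | zero =>
    change act D (cst ℂ 0) = 0
    rw [cst_zero, act_zero_right]
  | add x y _ _ hx hy =>
    change act D (cst ℂ (x + y)) = 0
    rw [cst_add, act_add_right, show act D (cst ℂ x) = 0 from hx,
      show act D (cst ℂ y) = 0 from hy, add_zero]
  | smul r x _ hx =>
    change act D (cst ℂ (r • x)) = 0
    have h1 : cst ℂ (r • x) = (r : ℂ) • cst ℂ x := by
      funext I
      simp [cst]
    rw [h1, act_smul_right, show act D (cst ℂ x) = 0 from hx, smul_zero]

/-- **Hodge classes in the ideal** generated by the invariant bilinear forms are combinations of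
products of invariant bilinear forms and Hodge classes. -/
theorem mem_MM (h : PolH D) {κ : Type} [Fintype κ] [DecidableEq κ] {f : (κ → B) → ℚ}
    (hf : IsH D f) (hId : f ∈ IdQ D κ) : f ∈ MM D κ := by
  obtain ⟨P, hP1, hP2, hP3, hP4⟩ := h.exists_proj (HL_of_isH fun c hc => isH_MM hc :
    HL D 0 (MM D κ))
  have hMI : MM D κ ≤ IdQ D κ := Submodule.span_mono (by
    rintro F ⟨a, b, β, c, hab, hβ, -, rfl⟩
    exact ⟨a, b, β, c, hab, hβ, rfl⟩)
  obtain ⟨v, hv⟩ : ∃ v, v = f - P f := ⟨_, rfl⟩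
  have hvH : IsH D v := by
    rw [hv]
    exact isH_HM (isHM_sub hP4) hf
  have hvI : v ∈ IdQ D κ := by
    rw [hv]
    exact Submodule.sub_mem _ hId (hMI (hP2 f))
  have hvM : ∀ w ∈ MM D κ, EB κ h.Om v w = 0 := by
    intro w hw
    rw [hv, map_sub, LinearMap.sub_apply, hP3 f w hw, sub_self]
  have hcon : ∀ (a b : κ) (β : Matrix B B ℚ), a ≠ b → IsH D (bilc β) →
      conB a b (h.Om * β * h.Omᵀ) v = 0 := by
    intro a b β hab hβ
    have h1 : ∀ c ∈ Submodule.span ℚ {x : ({l // l ≠ a ∧ l ≠ b} → B) → ℚ | IsH D x},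
        IsH D c := by
      intro c hc
      induction hc using Submodule.span_induction with
      | mem F hF => exact hF
      | zero =>
        change act D (cst ℂ 0) = 0
        rw [cst_zero, act_zero_right]
      | add x y _ _ hx hy =>
        change act D (cst ℂ (x + y)) = 0
        rw [cst_add, act_add_right, show act D (cst ℂ x) = 0 from hx,
          show act D (cst ℂ y) = 0 from hy, add_zero]
      | smul r x _ hx =>
        change act D (cst ℂ (r • x)) = 0
        have h1 : cst ℂ (r • x) = (r : ℂ) • cst ℂ x := by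
          funext I
          simp [cst]
        rw [h1, act_smul_right, show act D (cst ℂ x) = 0 from hx, smul_zero]
    refine h.nondeg (HL_of_isH h1) (Submodule.subset_span
      (isH_HM (h.isHM_conB hab hβ) hvH)) fun c hc => ?_
    rw [← EB_mulB hab]
    exact hvM _ (Submodule.subset_span ⟨a, b, β, c, hab, hβ, h1 c hc, rfl⟩)
  have hvx : ∀ x ∈ IdQ D κ, EB κ h.Om v x = 0 := by
    intro x hx
    unfold IdQ at hx
    induction hx using Submodule.span_induction with
    | zero => rw [map_zero]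
    | add x y _ _ hx hy => rw [map_add, hx, hy, add_zero]
    | smul r x _ hx => rw [map_smul, hx, smul_zero]
    | mem F hF =>
      obtain ⟨a, b, β, c, hab, hβ, rfl⟩ := hF
      rw [EB_mulB hab, hcon a b β hab hβ, map_zero, LinearMap.zero_apply]
  have h2 : ∀ c ∈ Submodule.span ℚ {v}, IsH D c := by
    intro c hc
    obtain ⟨r, rfl⟩ := Submodule.mem_span_singleton.1 hc
    change act D (cst ℂ (r • v)) = 0
    have h1 : cst ℂ (r • v) = (r : ℂ) • cst ℂ v := by
      funext I
      simp [cst]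
    rw [h1, act_smul_right, show act D (cst ℂ v) = 0 from hvH, smul_zero]
  have hv0 : v = 0 := by
    refine h.nondeg (HL_of_isH h2) (Submodule.mem_span_singleton_self v) fun c hc => ?_
    obtain ⟨r, rfl⟩ := Submodule.mem_span_singleton.1 hc
    rw [map_smul, hvx v hvI, smul_zero]
  rw [hv, sub_eq_zero] at hv0
  rw [hv0]
  exact hP2 f

end ideal

section lef

variable {g : ℕ}

/-- The signs of the symplectic form. -/
def sgn (x : Fin g ⊕ Fin g) : ℚ := Sum.elim (fun _ => 1) (fun _ => -1) x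

theorem JJ_eq (x y : Fin g ⊕ Fin g) : JJ Sum.swap sgn x y = Om g ℚ x y := by
  unfold JJ
  rcases x with x | x <;> rcases y with y | y
  · simp [Om]
  · simp [Om, sgn, Matrix.one_apply, eq_comm]
  · simp only [Om, sgn, Sum.swap_inr, Sum.inl.injEq, Sum.elim_inr, fromBlocks_apply₂₁,
      Matrix.neg_apply, Matrix.one_apply]
    by_cases h : x = y
    · rw [if_pos h, if_pos h.symm]
    · rw [if_neg h, if_neg (Ne.symm h), neg_zero]
  · simp [Om]

theorem isH_Om {Z : Matrix (Fin g) (Fin g) ℂ} (hZ : Zᵀ = Z) : IsH (DZ Z) (bilc (Om g ℚ)) := by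
  change act (DZ Z) (cst ℂ (bilc (Om g ℚ))) = 0
  have h1 : cst ℂ (bilc (Om g ℚ)) = bilc ((Om g ℚ).map (fun x : ℚ => (x : ℂ))) := rfl
  have h2 := DZ_sp hZ
  rw [h1]
  funext I
  rw [act_bilc]
  have h3 := congrFun (congrFun h2 (I 0)) (I 1)
  exact h3

/-- Antisymmetric tensors of degree more than `g` are in the ideal of the polarization. -/
theorem mem_IdQ_of_anti {Z : Matrix (Fin g) (Fin g) ℂ} (hZ : Zᵀ = Z) {κ : Type} [Fintype κ]
    [DecidableEq κ] (hcard : g < Fintype.card κ) {G : (κ → Fin g ⊕ Fin g) → ℚ}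
    (hG : ∀ p p' : κ, p ≠ p' → ∀ X, G (fun k => X (swap p p' k)) = -G X) :
    G ∈ IdQ (DZ Z) κ := by
  have h1 : G ∈ IdlR (κ := κ) (fun _ : Fin g ⊕ Fin g => ()) Sum.swap sgn := by
    refine mem_IdlR_of_anti (fun x => Sum.swap_swap x) ?_ ?_ (fun _ => rfl) Finset.univ () ?_
      (fun _ _ _ _ => rfl) (fun p _ p' _ hpp X => hG p p' hpp X)
    · intro x
      rcases x with x | x <;> simp [sgn]
    · intro x
      rcases x with x | x <;> simp [sgn]
    · rw [Finset.card_univ]
      have h2 : Fintype.card {r : Fin g ⊕ Fin g // () = ()} = g + g := by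
        rw [Fintype.card_subtype]
        simp
      rw [h2]
      omega
  refine (Submodule.span_le.2 ?_ : IdlR (κ := κ) _ _ _ ≤ IdQ (DZ Z) κ) h1
  rintro F ⟨a, b, q, G', hab, hG', rfl⟩
  obtain ⟨c, hc⟩ := exists_rest hab hG'
  refine Submodule.subset_span ⟨a, b, Om g ℚ, c, hab, isH_Om hZ, ?_⟩
  funext X
  rw [mulB_apply, ← JJ_eq, hc X]
  rfl

end lef

end

end Pool.Agent.TH504.CB
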