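import Mathlib
import Pool.Agent.TH504.CB.Low1
import Pool.Agent.TH504.VY.Flat

/-!
# Hodge classes on abelian varieties of dimension at most three
-/

set_option linter.unusedSectionVars false

namespace Pool.Agent.TH504.CB

open Matrix Equiv Module Pool.Agent.H204R3.SP Pool.Agent.H204R3.CM Pool.Agent.H204R3.GH
  Pool.Agent.W437.HC Pool.Agent.W437.HD Pool.Agent.W437.HP Pool.Agent.TH131.GHC
  Pool.Agent.W546.GHC Pool.Agent.TH504.VY

noncomputable section

section part

/-- Coordinates on a direct factor of a complex torus. -/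
structure Part {W T : Type*} [AddCommGroup W] [Module ℚ W] [AddCommGroup T] [Module ℂ T]
    (per : W →+ T) {B : Type*} [Fintype B] [DecidableEq B] (J : Matrix B B ℝ) where
  /-- the coordinates -/
  A : W →ₗ[ℚ] (B → ℚ)
  /-- the section -/
  E : (B → ℚ) →ₗ[ℚ] W
  AE : ∀ x, A (E x) = x
  /-- the real coordinates -/
  AR : T →ₗ[ℝ] (B → ℝ)
  /-- the real section -/
  ER : (B → ℝ) →ₗ[ℝ] T
  AR_per : ∀ w, AR (per w) = fun i => ((A w i : ℚ) : ℝ)
  ER_per : ∀ x, ER (fun i => ((x i : ℚ) : ℝ)) = per (E x)
  AR_rot : ∀ (z : ℂ) u, AR (z • u) = z.re • AR u + z.im • (J *ᵥ AR u)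
  ER_rot : ∀ x, ER (J *ᵥ x) = Complex.I • ER x

variable {W T : Type*} [AddCommGroup W] [Module ℚ W] [AddCommGroup T] [Module ℂ T]
  {per : W →+ T} {B : Type*} [Fintype B] [DecidableEq B] {J : Matrix B B ℝ}
  (Fr : Part per J) {κ : Type} [Fintype κ] [DecidableEq κ]
  {D : Matrix B B ℂ} (hD : D = (-Complex.I) • J.map (fun x : ℝ => (x : ℂ)))

/-- The coordinates of a form. -/
def Part.cf (f : W [⋀^κ]→ₗ[ℚ] ℚ) : (κ → B) → ℚ :=
  fun I => f (fun k => Fr.E (Pi.single (I k) 1))

theorem Part.expand {f : W [⋀^κ]→ₗ[ℚ] ℚ} (hf : ∀ v, f v = f (fun k => Fr.E (Fr.A (v k))))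
    (v : κ → W) : f v = evalF (Fr.cf f) (fun k => Fr.A (v k)) := by
  rw [hf]
  have h1 := multi_eq (f.toMultilinearMap.compLinearMap (fun _ => Fr.E)) (fun k => Fr.A (v k))
  exact h1

include hD in
theorem isH_part {f : W [⋀^κ]→ₗ[ℚ] ℚ} (hf : IsHodge per f) : IsH D (Fr.cf f) := by
  obtain ⟨ψ, hψ1, hψ2⟩ := hf
  rw [act_real hD]
  have h1 : ∀ x : κ → B → ℝ,
      ψ (fun k => Fr.ER (x k)) = evalF (cst ℝ (Fr.cf f)) x := by
    intro x
    rw [show ψ (fun k => Fr.ER (x k)) = ψ.compLinearMap (fun _ => Fr.ER) x from rfl,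
      multi_eq]
    congr 1
    funext I
    change ψ (fun k => Fr.ER (Pi.single (I k) 1)) = ((Fr.cf f I : ℚ) : ℝ)
    unfold Part.cf
    rw [← hψ1]
    congr 1
    funext k
    rw [← Fr.ER_per]
    congr 1
    funext i
    by_cases hi : i = I k
    · subst hi
      rw [Pi.single_eq_same, Pi.single_eq_same, Rat.cast_one]
    · rw [Pi.single_eq_of_ne hi, Pi.single_eq_of_ne hi, Rat.cast_zero]
  apply act_of_rotate
  intro θ x
  rw [← h1, ← h1]
  refine Eq.trans ?_ (hψ2 (Complex.cos θ + Complex.sin θ * Complex.I) (by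
    rw [← Complex.exp_mul_I, Complex.norm_exp_ofReal_mul_I]) _)
  congr 1
  funext k
  rw [map_add, map_smul, map_smul, Fr.ER_rot, add_smul, mul_smul]
  congr 1
  · rw [← Complex.ofReal_cos]
    exact (RCLike.real_smul_eq_coe_smul (K := ℂ) (Real.cos θ) (Fr.ER (x k)))
  · rw [← Complex.ofReal_sin]
    exact (RCLike.real_smul_eq_coe_smul (K := ℂ) (Real.sin θ) (Complex.I • Fr.ER (x k)))

include hD in
theorem isHodge_part (hJ : J * J = -1) {c : (κ → B) → ℚ} (hc : IsH D c) :
    IsHodge per (MultilinearMap.alternatization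
      ((evalM c).compLinearMap (fun _ => Fr.A))) := by
  refine isHodge_alt ((evalM (cst ℝ c)).compLinearMap (fun _ => Fr.AR))
    (fun v => ?_) (fun z hz u => ?_)
  · rw [MultilinearMap.compLinearMap_apply, MultilinearMap.compLinearMap_apply, evalM_apply,
      evalM_apply, evalF_castK]
    congr 1
    funext k
    exact Fr.AR_per (v k)
  · rw [MultilinearMap.compLinearMap_apply, MultilinearMap.compLinearMap_apply, evalM_apply,
      evalM_apply]
    have h1 : z.re = Real.cos z.arg ∧ z.im = Real.sin z.arg := by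
      have h2 := Complex.norm_mul_cos_arg z
      have h3 := Complex.norm_mul_sin_arg z
      rw [hz, one_mul] at h2 h3
      exact ⟨h2.symm, h3.symm⟩
    have h2 : (fun k => Fr.AR (z • u k)) = fun k => Real.cos z.arg • Fr.AR (u k) +
        Real.sin z.arg • (J *ᵥ Fr.AR (u k)) := by
      funext k
      rw [Fr.AR_rot, h1.1, h1.2]
    rw [h2]
    exact rot_of_act hJ ((act_real hD).1 hc) z.arg _

end part

section wedge

variable {W T : Type} [AddCommGroup W] [Module ℚ W] [AddCommGroup T] [Module ℂ T]
  {per : W →+ T}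

/-- The wedge product of alternating forms, before alternation. -/
def wd {r l k : ℕ} (e : (Fin r × Fin 2) ⊕ Fin l ≃ Fin k) (B : Fin r → W [⋀^Fin 2]→ₗ[ℚ] ℚ)
    (η : W [⋀^Fin l]→ₗ[ℚ] ℚ) : W [⋀^Fin k]→ₗ[ℚ] ℚ :=
  MultilinearMap.alternatization (prodForm e (fun s => (B s).toMultilinearMap)
    η.toMultilinearMap)

theorem wd_apply {r l k : ℕ} (e : (Fin r × Fin 2) ⊕ Fin l ≃ Fin k)
    (B : Fin r → W [⋀^Fin 2]→ₗ[ℚ] ℚ) (η : W [⋀^Fin l]→ₗ[ℚ] ℚ) (v : Fin k → W) :
    wd e B η v = ∑ σ : Perm (Fin k), ((Perm.sign σ : ℤ) : ℚ) *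
      ((∏ s, B s (fun ε => v (σ (e (Sum.inl (s, ε)))))) *
        η (fun r => v (σ (e (Sum.inr r))))) := by
  change MultilinearMap.alternatization _ v = _
  rw [MultilinearMap.alternatization_apply]
  refine Finset.sum_congr rfl fun σ _ => ?_
  rw [Units.smul_def, zsmul_eq_mul, MultilinearMap.domDomCongr_apply, prodForm_apply]
  rfl

theorem vec_two (v : Fin 2 → W) : v = ![v 0, v 1] := by
  funext ε
  fin_cases ε <;> rfl

/-- The wedge product of divisor classes and a polynomial in divisor classes is a polynomial in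
divisor classes. -/
theorem wd_mem {r l k : ℕ} (e : (Fin r × Fin 2) ⊕ Fin l ≃ Fin k)
    (B : Fin r → W [⋀^Fin 2]→ₗ[ℚ] ℚ) (hB : ∀ s, IsHodge per (B s)) {η : W [⋀^Fin l]→ₗ[ℚ] ℚ}
    (hη : η ∈ divisorSpan per l) : wd e B η ∈ divisorSpan per k := by
  classical
  unfold divisorSpan at hη
  induction hη using Submodule.span_induction with
  | zero =>
    have h1 : wd e B 0 = 0 := by
      ext v
      rw [wd_apply]
      simp
    rw [h1]
    exact Submodule.zero_mem _
  | add x y _ _ hx hy =>
    have h1 : wd e B (x + y) = wd e B x + wd e B y := by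
      ext v
      rw [AlternatingMap.add_apply, wd_apply, wd_apply, wd_apply, ← Finset.sum_add_distrib]
      refine Finset.sum_congr rfl fun σ _ => ?_
      rw [AlternatingMap.add_apply]
      ring
    rw [h1]
    exact Submodule.add_mem _ hx hy
  | smul a x _ hx =>
    have h1 : wd e B (a • x) = a • wd e B x := by
      ext v
      rw [AlternatingMap.smul_apply, wd_apply, wd_apply, smul_eq_mul, Finset.mul_sum]
      refine Finset.sum_congr rfl fun σ _ => ?_
      rw [AlternatingMap.smul_apply, smul_eq_mul]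
      ring
    rw [h1]
    exact Submodule.smul_mem _ _ hx
  | mem η hη =>
    obtain ⟨r', e', C, hC, hη⟩ := hη
    -- the form before alternation
    let h : MultilinearMap ℚ (fun _ : Fin l => W) ℚ :=
      MultilinearMap.domDomCongr e' (prodMap (fun s => (C s).toMultilinearMap))
    have hh : ∀ v : Fin l → W, h v = ∏ s, C s (fun ε => v (e' (s, ε))) := by
      intro v
      change prodMap (fun s => (C s).toMultilinearMap) (fun p => v (e' p)) = _
      rw [prodMap_apply]
      rfl
    have hηh : η = MultilinearMap.alternatization h := by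
      ext v
      rw [hη, MultilinearMap.alternatization_apply]
      refine Finset.sum_congr rfl fun σ _ => ?_
      rw [Units.smul_def, zsmul_eq_mul, MultilinearMap.domDomCongr_apply, hh]
      congr 1
      refine Finset.prod_congr rfl fun s _ => ?_
      exact congrArg (fun w => C s w) (vec_two (fun ε => v (σ (e' (s, ε))))).symm
    let b : Fin r → MultilinearMap ℚ (fun _ : Fin 2 => W) ℚ :=
      fun s => (1 / 2 : ℚ) • (B s).toMultilinearMap
    have hb : ∀ s, MultilinearMap.alternatization (b s) = B s := by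
      intro s
      have h1 : MultilinearMap.alternatization (b s) =
          (1 / 2 : ℚ) • MultilinearMap.alternatization (B s).toMultilinearMap := by
        ext v
        rw [AlternatingMap.smul_apply, MultilinearMap.alternatization_apply,
          MultilinearMap.alternatization_apply, Finset.smul_sum]
        refine Finset.sum_congr rfl fun σ _ => ?_
        rw [MultilinearMap.domDomCongr_apply, MultilinearMap.domDomCongr_apply,
          smul_comm (1 / 2 : ℚ)]
        rfl
      have h2 := AlternatingMap.coe_alternatization (B s)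
      change MultilinearMap.alternatization (B s).toMultilinearMap = _ at h2
      rw [h1, h2, Fintype.card_fin]
      ext v
      rw [AlternatingMap.smul_apply, AlternatingMap.smul_apply, smul_eq_mul, nsmul_eq_mul,
        ← mul_assoc]
      norm_num [Nat.factorial]
    let E : Fin (r + r') × Fin 2 ≃ Fin k :=
      ((Equiv.prodCongr finSumFinEquiv.symm (Equiv.refl (Fin 2))).trans
        (Equiv.sumProdDistrib _ _ _)).trans ((Equiv.sumCongr (Equiv.refl _) e').trans e)
    let C' : Fin (r + r') → W [⋀^Fin 2]→ₗ[ℚ] ℚ := fun s => Sum.elim B C (finSumFinEquiv.symm s)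
    let G : W [⋀^Fin k]→ₗ[ℚ] ℚ := MultilinearMap.alternatization
      (MultilinearMap.domDomCongr E (prodMap (fun s => (C' s).toMultilinearMap)))
    have hG : ∀ v, G v = ∑ σ : Perm (Fin k), ((Perm.sign σ : ℤ) : ℚ) *
        ∏ s, C' s (fun ε => v (σ (E (s, ε)))) := by
      intro v
      change MultilinearMap.alternatization _ v = _
      rw [MultilinearMap.alternatization_apply]
      refine Finset.sum_congr rfl fun σ _ => ?_
      rw [Units.smul_def, zsmul_eq_mul, MultilinearMap.domDomCongr_apply,
        MultilinearMap.domDomCongr_apply, prodMap_apply]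
      rfl
    have hGm : G ∈ divisorSpan per k := by
      refine Submodule.subset_span ⟨r + r', E, C', fun s => ?_, fun v => ?_⟩
      · change IsHodge per (Sum.elim B C (finSumFinEquiv.symm s))
        rcases finSumFinEquiv.symm s with s' | s'
        · exact hB s'
        · exact hC s'
      · rw [hG]
        refine Finset.sum_congr rfl fun σ _ => ?_
        congr 1
        refine Finset.prod_congr rfl fun s _ => ?_
        exact congrArg (fun w => C' s w) (vec_two (fun ε => v (σ (E (s, ε)))))
    have hfin : wd e B η = (((2 : ℚ) ^ r * (l.factorial : ℚ)) * (1 / 2 : ℚ) ^ r) • G := by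
      ext v
      rw [wd_apply, AlternatingMap.smul_apply, smul_eq_mul, hG, hηh]
      have h1 := alt_gen e b h v
      simp only [hb] at h1
      rw [h1, mul_assoc ((2 : ℚ) ^ r * (l.factorial : ℚ)) ((1 / 2 : ℚ) ^ r),
        Finset.mul_sum (a := (1 / 2 : ℚ) ^ r)]
      congr 1
      refine Finset.sum_congr rfl fun σ _ => ?_
      have h2 : ∏ s, b s (fun ε => v (σ (e (Sum.inl (s, ε))))) =
          (1 / 2 : ℚ) ^ r * ∏ s, B s (fun ε => v (σ (e (Sum.inl (s, ε))))) := by
        have h3 : ∀ s, b s (fun ε => v (σ (e (Sum.inl (s, ε))))) =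
            (1 / 2 : ℚ) * B s (fun ε => v (σ (e (Sum.inl (s, ε))))) := fun s => rfl
        rw [Finset.prod_congr rfl fun s _ => h3 s, Finset.prod_mul_distrib, Finset.prod_const,
          Finset.card_univ, Fintype.card_fin]
      have h4 : ∏ s, C' s (fun ε => v (σ (E (s, ε)))) =
          (∏ s, B s (fun ε => v (σ (e (Sum.inl (s, ε)))))) *
            ∏ s, C s (fun ε => v (σ (e (Sum.inr (e' (s, ε)))))) := by
        rw [← Equiv.prod_comp finSumFinEquiv, Fintype.prod_sum_type]
        congr 1
        · refine Finset.prod_congr rfl fun s _ => ?_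
          change (Sum.elim B C (finSumFinEquiv.symm (finSumFinEquiv (Sum.inl s)))) (fun ε => v (σ
            (e ((Equiv.sumCongr (Equiv.refl _) e') ((Equiv.sumProdDistrib _ _ _)
              (finSumFinEquiv.symm (finSumFinEquiv (Sum.inl s)), ε)))))) = _
          rw [Equiv.symm_apply_apply]
          rfl
        · refine Finset.prod_congr rfl fun s _ => ?_
          change (Sum.elim B C (finSumFinEquiv.symm (finSumFinEquiv (Sum.inr s)))) (fun ε => v (σ
            (e ((Equiv.sumCongr (Equiv.refl _) e') ((Equiv.sumProdDistrib _ _ _)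
              (finSumFinEquiv.symm (finSumFinEquiv (Sum.inr s)), ε)))))) = _
          rw [Equiv.symm_apply_apply]
          rfl
      rw [h2, hh, h4]
      ring
    rw [hfin]
    exact Submodule.smul_mem _ _ hGm

end wedge

end

end Pool.Agent.TH504.CB
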