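import Mathlib
import Pool.Agent.TH504.CB.Low2
import Pool.Agent.TH504.CB.Defs

/-!
# Hodge classes on abelian varieties of dimension at most three are polynomials in divisor classes
-/

set_option linter.unusedSectionVars false

namespace Pool.Agent.TH504.CB

open Matrix Equiv Module Pool.Agent.H204R3.SP Pool.Agent.H204R3.CM Pool.Agent.H204R3.GH
  Pool.Agent.W437.HC Pool.Agent.W437.HD Pool.Agent.W437.HP Pool.Agent.TH131.GHC
  Pool.Agent.W546.GHC Pool.Agent.TH504.VY Pool.Agent.W437.HR

noncomputable section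

section alt

variable {W T : Type*} [AddCommGroup W] [Module ℚ W] [AddCommGroup T] [Module ℂ T]
  (per : W →+ T) (same : W → W → Prop)

/-- The wedge products of a Hodge class of degree two and a Hodge class. -/
def oneSet (k : ℕ) : Set (W [⋀^Fin k]→ₗ[ℚ] ℚ) :=
  {f | ∃ (l : ℕ) (e : (Fin 1 × Fin 2) ⊕ Fin l ≃ Fin k) (B : Fin 1 → W [⋀^Fin 2]→ₗ[ℚ] ℚ)
    (η : W [⋀^Fin l]→ₗ[ℚ] ℚ), (∀ s, IsHodge per (B s)) ∧ IsHodge per η ∧
      Only same (fun v => η v) ∧
    ∀ v : Fin k → W, f v = ∑ σ : Equiv.Perm (Fin k), ((Equiv.Perm.sign σ : ℤ) : ℚ) *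
      ((∏ s, B s (fun ε => v (σ (e (Sum.inl (s, ε)))))) *
        η (fun r => v (σ (e (Sum.inr r)))))}

/-- The products before alternation. -/
def SO (κ : Type) : Set ((κ → W) → ℚ) :=
  {F | ∃ (l : ℕ) (e : (Fin 1 × Fin 2) ⊕ Fin l ≃ κ)
    (b : Fin 1 → MultilinearMap ℚ (fun _ : Fin 2 => W) ℚ)
    (η : MultilinearMap ℚ (fun _ : Fin l => W) ℚ),
    (∀ s, IsHodge per (MultilinearMap.alternatization (b s))) ∧
    IsHodge per (MultilinearMap.alternatization η) ∧ Only same (fun v => η v) ∧
    F = fun v => (∏ s, b s (fun ε => v (e (Sum.inl (s, ε))))) * η (fun r => v (e (Sum.inr r)))}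

variable {per same}

theorem alt_SO {i : ℕ} (f : W [⋀^Fin i]→ₗ[ℚ] ℚ)
    (hf : (fun v => f v) ∈ Submodule.span ℚ (SO per same (Fin i))) :
    f ∈ Submodule.span ℚ (oneSet per same i) := by
  classical
  have hA : altFun (R := ℚ) (fun v => f v) ∈
      Submodule.map (altFun (R := ℚ)) (Submodule.span ℚ (SO per same (Fin i))) :=
    Submodule.mem_map_of_mem hf
  rw [Submodule.map_span, altFun_alt] at hA
  let K : (W [⋀^Fin i]→ₗ[ℚ] ℚ) →ₗ[ℚ] ((Fin i → W) → ℚ) :=
    { toFun := fun g v => g v
      map_add' := fun _ _ => rfl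
      map_smul' := fun _ _ => rfl }
  have hKinj : Function.Injective K := fun g g' h => AlternatingMap.ext fun v => congrFun h v
  have hsub : altFun (R := ℚ) '' (SO per same (Fin i)) ⊆
      (Submodule.span ℚ (oneSet per same i)).map K := by
    rintro _ ⟨_, ⟨k, e, b, η, hb, hη, hη', rfl⟩, rfl⟩
    let A : Fin 1 → W [⋀^Fin 2]→ₗ[ℚ] ℚ := fun s => MultilinearMap.alternatization (b s)
    let H : W [⋀^Fin k]→ₗ[ℚ] ℚ := MultilinearMap.alternatization η
    let g : W [⋀^Fin i]→ₗ[ℚ] ℚ := MultilinearMap.alternatization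
      (prodForm e (fun s => (A s).toMultilinearMap) H.toMultilinearMap)
    have hg : ∀ v, g v = ∑ σ : Perm (Fin i), ((Perm.sign σ : ℤ) : ℚ) *
        ((∏ s, A s (fun ε => v (σ (e (Sum.inl (s, ε)))))) *
          H (fun r => v (σ (e (Sum.inr r))))) := by
      intro v
      change MultilinearMap.alternatization _ v = _
      rw [MultilinearMap.alternatization_apply]
      refine Finset.sum_congr rfl fun σ _ => ?_
      rw [Units.smul_def, zsmul_eq_mul, MultilinearMap.domDomCongr_apply, prodForm_apply]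
      rfl
    have hH : Only same (fun v => H v) := by
      intro v v' hvv
      change MultilinearMap.alternatization η v = MultilinearMap.alternatization η v'
      rw [MultilinearMap.alternatization_apply, MultilinearMap.alternatization_apply]
      refine Finset.sum_congr rfl fun σ _ => ?_
      rw [MultilinearMap.domDomCongr_apply, MultilinearMap.domDomCongr_apply]
      congr 1
      exact hη' _ _ fun a => hvv (σ a)
    have hgT : g ∈ oneSet per same i := ⟨k, e, A, H, hb, hη, hH, hg⟩
    refine ⟨(((2 : ℚ) ^ 1 * (k.factorial : ℚ))⁻¹) • g,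
      Submodule.smul_mem _ _ (Submodule.subset_span hgT), ?_⟩
    rw [map_smul]
    funext v
    have h2 : (K g) v = ((2 : ℚ) ^ 1 * (k.factorial : ℚ)) *
        ∑ σ : Perm (Fin i), ((Perm.sign σ : ℤ) : ℚ) *
          ((∏ s, b s (fun ε => v (σ (e (Sum.inl (s, ε)))))) *
            η (fun r => v (σ (e (Sum.inr r))))) := by
      change g v = _
      rw [hg v]
      exact alt_gen e b η v
    have h6 : (2 : ℚ) ^ 1 * (k.factorial : ℚ) ≠ 0 :=
      mul_ne_zero (pow_ne_zero _ two_ne_zero) (Nat.cast_ne_zero.2 (Nat.factorial_ne_zero _))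
    rw [Pi.smul_apply, h2, smul_eq_mul, ← mul_assoc, inv_mul_cancel₀ h6, one_mul]
    rfl
  have h1 : ((Fintype.card (Fin i)).factorial : ℚ) • (fun v => f v) ∈
      (Submodule.span ℚ (oneSet per same i)).map K := Submodule.span_le.2 hsub hA
  have hne : ((Fintype.card (Fin i)).factorial : ℚ) ≠ 0 :=
    Nat.cast_ne_zero.2 (Nat.factorial_ne_zero _)
  have h2 : (fun v => f v) ∈ (Submodule.span ℚ (oneSet per same i)).map K := by
    have h3 := Submodule.smul_mem _ (((Fintype.card (Fin i)).factorial : ℚ))⁻¹ h1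
    rwa [smul_smul, inv_mul_cancel₀ hne, one_smul] at h3
  obtain ⟨f', hf', hff⟩ := h2
  have h3 : f' = f := hKinj hff
  rw [← h3]
  exact hf'

end alt

/-- Split off two positions. -/
theorem exists_split {κ : Type} [DecidableEq κ] {a b : κ} (hab : a ≠ b) :
    ∃ e₁ : (Fin 1 × Fin 2) ⊕ {l // l ≠ a ∧ l ≠ b} ≃ κ,
      e₁ (Sum.inl (0, 0)) = a ∧ e₁ (Sum.inl (0, 1)) = b ∧ ∀ l, e₁ (Sum.inr l) = l.1 := by
  let F : (Fin 1 × Fin 2) ⊕ {l // l ≠ a ∧ l ≠ b} → κ :=
    Sum.elim (fun p => if p.2 = 0 then a else b) (fun l => l.1)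
  have hF : Function.Bijective F := by
    constructor
    · rintro (⟨s, ε⟩ | l) (⟨s', ε'⟩ | l') h
      · have hs : s = s' := Subsingleton.elim _ _
        subst hs
        fin_cases ε <;> fin_cases ε'
        · rfl
        · exact absurd h hab
        · exact absurd h (Ne.symm hab)
        · rfl
      · exfalso
        fin_cases ε
        · exact l'.2.1 h.symm
        · exact l'.2.2 h.symm
      · exfalso
        fin_cases ε'
        · exact l.2.1 h
        · exact l.2.2 h
      · exact congrArg Sum.inr (Subtype.ext h)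
    · intro k
      by_cases h1 : k = a
      · exact ⟨Sum.inl (0, 0), h1.symm⟩
      · by_cases h2 : k = b
        · exact ⟨Sum.inl (0, 1), h2.symm⟩
        · exact ⟨Sum.inr ⟨k, h1, h2⟩, rfl⟩
  exact ⟨Equiv.ofBijective F hF, rfl, rfl, fun _ => rfl⟩

section low

variable {W T : Type} [AddCommGroup W] [Module ℚ W] [AddCommGroup T] [Module ℂ T]
  {per : W →+ T} {g : ℕ} {Z : Matrix (Fin g) (Fin g) ℂ} (hZ : Zᵀ = Z) (hpos : (imM Z).PosDef)
  (Fr : Part per (JR Z))

include hZ hpos in
/-- Hodge classes of large degree are combinations of products. -/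
theorem mem_oneSet {k : ℕ} (hk : g < k) {f : W [⋀^Fin k]→ₗ[ℚ] ℚ} (hf : IsHodge per f)
    (hf' : Only (fun w w' => Fr.A w = Fr.A w') (fun v => f v)) :
    f ∈ Submodule.span ℚ (oneSet per (fun w w' => Fr.A w = Fr.A w') k) := by
  classical
  apply alt_SO
  have hJ : JR Z * JR Z = -1 := JR_sq (hpos.isUnit.map Matrix.detMonoidHom)
  have hexp : ∀ v, f v = f (fun k => Fr.E (Fr.A (v k))) := fun v =>
    hf' _ _ fun a => (Fr.AE _).symm
  have hc : IsH (DZ Z) (Fr.cf f) := isH_part Fr rfl hf
  have hanti : ∀ p p' : Fin k, p ≠ p' → ∀ X : Fin k → Fin g ⊕ Fin g,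
      Fr.cf f (fun k => X (swap p p' k)) = -Fr.cf f X := by
    intro p p' hpp X
    exact f.map_swap (fun k => Fr.E (Pi.single (X k) 1)) hpp
  have hM := mem_MM (polOf hZ hpos) hc (mem_IdQ_of_anti hZ (by rwa [Fintype.card_fin]) hanti)
  let K : ((Fin k → Fin g ⊕ Fin g) → ℚ) →ₗ[ℚ] ((Fin k → W) → ℚ) :=
    { toFun := fun c v => evalF c (fun k => Fr.A (v k))
      map_add' := fun c d => by
        funext v
        change evalF (c + d) _ = evalF c _ + evalF d _
        unfold evalF
        simp only [Pi.add_apply, add_mul, Finset.sum_add_distrib]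
      map_smul' := fun r c => by
        funext v
        change evalF (r • c) _ = r * evalF c _
        unfold evalF
        simp only [Pi.smul_apply, smul_eq_mul, mul_assoc, Finset.mul_sum] }
  have h1 : (fun v => f v) = K (Fr.cf f) := funext fun v => Fr.expand hexp v
  rw [h1]
  have h2 := Submodule.mem_map_of_mem (f := K) hM
  unfold MM at h2
  rw [Submodule.map_span] at h2
  refine Submodule.span_le.2 ?_ h2
  rintro _ ⟨_, ⟨a, b, β, c, hab, hβ, hc, rfl⟩, rfl⟩
  obtain ⟨e₂⟩ : Nonempty (Fin (Fintype.card {l // l ≠ a ∧ l ≠ b}) ≃ {l // l ≠ a ∧ l ≠ b}) :=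
    ⟨(Fintype.equivFin _).symm⟩
  let c2 : (Fin (Fintype.card {l // l ≠ a ∧ l ≠ b}) → Fin g ⊕ Fin g) → ℚ :=
    fun I => c (fun k => I (e₂.symm k))
  have hc2 : IsH (DZ Z) c2 := isH_reindex (DZ Z) e₂ hc
  let η : MultilinearMap ℚ (fun _ : Fin (Fintype.card {l // l ≠ a ∧ l ≠ b}) => W) ℚ :=
    (evalM c2).compLinearMap (fun _ => Fr.A)
  let bb : MultilinearMap ℚ (fun _ : Fin 2 => W) ℚ :=
    (evalM (bilc β)).compLinearMap (fun _ => Fr.A)
  obtain ⟨e₁, he₁, he₁'⟩ : ∃ e₁ : (Fin 1 × Fin 2) ⊕ {l // l ≠ a ∧ l ≠ b} ≃ Fin k,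
      e₁ (Sum.inl (0, 0)) = a ∧ e₁ (Sum.inl (0, 1)) = b ∧ ∀ l, e₁ (Sum.inr l) = l.1 :=
    exists_split hab
  have h3 : K (mulB a b β c) = fun v : Fin k → W =>
      (∏ s : Fin 1, bb (fun ε => v (((Equiv.sumCongr (Equiv.refl _) e₂).trans e₁)
        (Sum.inl (s, ε))))) * η (fun r => v (((Equiv.sumCongr (Equiv.refl _) e₂).trans e₁)
        (Sum.inr r))) := by
    funext v
    change evalF (mulB a b β c) (fun k => Fr.A (v k)) = _
    rw [evalF_mulB hab, Fintype.prod_unique]
    congr 1
    · change _ = evalF (bilc β) (fun ε => Fr.A (v (e₁ (Sum.inl (0, ε)))))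
      rw [evalF_bilc]
      rw [he₁, he₁'.1]
    · change _ = evalF c2 (fun r => Fr.A (v (e₁ (Sum.inr (e₂ r)))))
      rw [evalF_reindex e₂ c]
      simp only [he₁'.2]
      rfl
  rw [h3]
  refine Submodule.subset_span ⟨_, _, fun _ => bb, η, fun _ => ?_, ?_, ?_, rfl⟩
  · exact isHodge_part Fr rfl hJ hβ
  · exact isHodge_part Fr rfl hJ hc2
  · intro v v' hvv
    change evalF c2 (fun r => Fr.A (v r)) = evalF c2 (fun r => Fr.A (v' r))
    congr 1
    funext r
    exact hvv r

include hZ hpos in
/-- **Hodge classes on abelian varieties of dimension at most three** are combinations of products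
of divisor classes. -/
theorem low_dim (hg : g ≤ 3) : ∀ (k : ℕ) (f : W [⋀^Fin k]→ₗ[ℚ] ℚ), IsHodge per f →
    Only (fun w w' => Fr.A w = Fr.A w') (fun v => f v) → f ∈ divisorSpan per k := by
  classical
  intro k
  induction k using Nat.strong_induction_on with
  | _ k ih =>
    intro f hf hf'
    have hexp : ∀ v, f v = f (fun k => Fr.E (Fr.A (v k))) := fun v =>
      hf' _ _ fun a => (Fr.AE _).symm
    by_cases hodd : Odd k
    · have h1 : Fr.cf f = 0 := isH_odd (DZ_sq (hpos.isUnit.map Matrix.detMonoidHom))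
        (isH_part Fr rfl hf) (by rwa [Fintype.card_fin])
      have h2 : f = 0 := by
        ext v
        rw [Fr.expand hexp, h1, evalF_zero]
        rfl
      rw [h2]
      exact Submodule.zero_mem _
    · by_cases hk : 3 < k
      · refine (Submodule.span_le.2 ?_ : Submodule.span ℚ (oneSet per _ k) ≤ _)
          (mem_oneSet hZ hpos Fr (by omega) hf hf')
        rintro f' ⟨l, e, B, η, hB, hη, hη', hfη⟩
        have h1 : f' = wd e B η := by
          ext v
          rw [hfη, wd_apply]
        have hl : l < k := by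
          have h2 := Fintype.card_congr e
          simp only [Fintype.card_sum, Fintype.card_prod, Fintype.card_fin] at h2
          omega
        rw [h1]
        exact wd_mem e B hB (ih l hl η hη hη')
      · rcases Nat.lt_or_ge k 2 with h2 | h2
        · have hk0 : k = 0 := by
            rcases Nat.lt_or_ge k 1 with h3 | h3
            · omega
            · exact absurd (by rw [show k = 1 by omega]; exact odd_one) hodd
          subst hk0
          let G : W [⋀^Fin 0]→ₗ[ℚ] ℚ := AlternatingMap.constOfIsEmpty ℚ W (Fin 0) (1 : ℚ)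
          have h1 : f = (f ![]) • G := by
            ext v
            rw [AlternatingMap.smul_apply, smul_eq_mul]
            change f v = f ![] * 1
            rw [mul_one, Subsingleton.elim v ![]]
          rw [h1]
          refine Submodule.smul_mem _ _ (Submodule.subset_span
            ⟨0, Equiv.equivOfIsEmpty _ _, fun s => s.elim0, fun s => s.elim0, fun v => ?_⟩)
          change (1 : ℚ) = _
          simp
        · have hk2 : k = 2 := by
            rcases Nat.lt_or_ge k 3 with h3 | h3
            · omega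
            · exact absurd (by rw [show k = 3 by omega]; exact ⟨1, rfl⟩) hodd
          subst hk2
          have h1 := wd_mem (Equiv.sumEmpty (Fin 1 × Fin 2) (Fin 0) |>.trans
            (Equiv.uniqueProd (Fin 2) (Fin 1))) (fun _ : Fin 1 => f) (fun _ => hf)
            (ih 0 (by omega) (AlternatingMap.constOfIsEmpty ℚ W (Fin 0) (1 : ℚ)) ?_ ?_)
          · have h2 : f = (1 / 2 : ℚ) • wd (Equiv.sumEmpty (Fin 1 × Fin 2) (Fin 0) |>.trans
                (Equiv.uniqueProd (Fin 2) (Fin 1))) (fun _ : Fin 1 => f)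
                (AlternatingMap.constOfIsEmpty ℚ W (Fin 0) (1 : ℚ)) := by
              ext v
              rw [AlternatingMap.smul_apply, wd_apply, smul_eq_mul]
              have h3 : ∀ σ : Perm (Fin 2), ((Perm.sign σ : ℤ) : ℚ) *
                  ((∏ s : Fin 1, f (fun ε => v (σ ((Equiv.sumEmpty (Fin 1 × Fin 2) (Fin 0) |>.trans
                    (Equiv.uniqueProd (Fin 2) (Fin 1))) (Sum.inl (s, ε)))))) *
                    (AlternatingMap.constOfIsEmpty ℚ W (Fin 0) (1 : ℚ)) (fun r => v (σ
                      ((Equiv.sumEmpty (Fin 1 × Fin 2) (Fin 0) |>.trans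
                    (Equiv.uniqueProd (Fin 2) (Fin 1))) (Sum.inr r))))) = f v := by
                intro σ
                rw [Fintype.prod_unique]
                change ((Perm.sign σ : ℤ) : ℚ) * (f (fun ε => v (σ ε)) * 1) = _
                have h4 := f.map_perm v σ
                change f (fun ε => v (σ ε)) = _ at h4
                rw [h4, mul_one, Units.smul_def, zsmul_eq_mul, ← mul_assoc, ← Int.cast_mul,
                  ← Units.val_mul, Int.units_mul_self]
                simp
              rw [Finset.sum_congr rfl fun σ _ => h3 σ, Finset.sum_const, Finset.card_univ,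
                Fintype.card_perm, Fintype.card_fin, nsmul_eq_mul, ← mul_assoc]
              norm_num [Nat.factorial]
            rw [h2]
            exact Submodule.smul_mem _ _ h1
          · exact ⟨MultilinearMap.constOfIsEmpty ℝ _ (1 : ℝ), fun v => by
              change (1 : ℝ) = ((1 : ℚ) : ℝ)
              norm_num, fun z hz u => rfl⟩
          · intro v v' _
            rfl

end low

end

end Pool.Agent.TH504.CB
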