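import Mathlib
import Pool.Agent.W437.HQ.Fr
import Pool.Agent.W437.HR.Low
import Pool.Agent.TH504.VL.KS

/-!
# Bounds for the number of moduli
-/

set_option linter.unusedSectionVars false

namespace Pool.Agent.TH504.CB

open Matrix Module Pool.Agent.W437.HC Pool.Agent.W437.HD Pool.Agent.W548.Odd
  Pool.Agent.W437.HR Pool.Agent.W437.HQ Pool.Agent.H204R3.CM

noncomputable section

section lin

variable {n : Type*} [Fintype n] [DecidableEq n]

/-- Spaces of symmetric matrices. -/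
theorem sym_bound (V : Submodule ℂ (Matrix n n ℂ)) (hsym : ∀ X ∈ V, Xᵀ = X) :
    2 * finrank ℂ V ≤ Fintype.card n * (Fintype.card n + 1) := by
  let Φ : V →ₗ[ℂ] (Sym2 n → ℂ) :=
    { toFun := fun X s => X.1 (Quot.out s).1 (Quot.out s).2
      map_add' := fun X Y => rfl
      map_smul' := fun r X => rfl }
  have hinj : Function.Injective Φ := by
    rw [← LinearMap.ker_eq_bot, LinearMap.ker_eq_bot']
    intro X hX
    apply Subtype.ext
    ext i j
    have h1 := congrFun hX s(i, j)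
    change X.1 (Quot.out s(i, j)).1 (Quot.out s(i, j)).2 = 0 at h1
    have h2 : s((Quot.out s(i, j)).1, (Quot.out s(i, j)).2) = s(i, j) := Quot.out_eq s(i, j)
    have h3 := Sym2.eq_iff.1 h2
    rcases h3 with ⟨h3, h4⟩ | ⟨h3, h4⟩
    · rw [h3, h4] at h1
      exact h1
    · rw [h3, h4] at h1
      have h5 := congrFun (congrFun (hsym X.1 X.2) i) j
      rw [Matrix.transpose_apply] at h5
      rw [← h5]
      exact h1
  have h1 := LinearMap.finrank_le_finrank_of_injective hinj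
  rw [Module.finrank_fintype_fun_eq_card, Sym2.card] at h1
  have h2 : (Fintype.card n + 1).choose 2 * 2 = (Fintype.card n + 1) * Fintype.card n := by
    rw [Nat.choose_two_right, Nat.add_sub_cancel, Nat.div_mul_cancel]
    rw [mul_comm]
    exact (Nat.even_mul_succ_self _).two_dvd
  calc 2 * finrank ℂ V ≤ 2 * (Fintype.card n + 1).choose 2 := Nat.mul_le_mul_left 2 h1
  _ = Fintype.card n * (Fintype.card n + 1) := by rw [mul_comm, h2, mul_comm]

/-- Spaces of symmetric matrices which are skew for an invertible hermitian matrix. -/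
theorem skew_bound {H : Matrix n n ℂ} (hH : H.IsHermitian) (hdet : H.det ≠ 0)
    (V : Submodule ℂ (Matrix n n ℂ)) (hsym : ∀ X ∈ V, Xᵀ = X)
    (hV : ∀ X ∈ V, H * X + X * Hᵀ = 0) : 4 * finrank ℂ V ≤ Fintype.card n ^ 2 := by
  classical
  obtain ⟨U, hU⟩ : ∃ U : Matrix n n ℂ, U = hH.eigenvectorUnitary := ⟨_, rfl⟩
  have hUU : star U * U = 1 := by rw [hU]; exact Unitary.coe_star_mul_self _
  have hUU' : U * star U = 1 := mul_eq_one_comm.1 hUU
  obtain ⟨lam, hlam⟩ : ∃ lam : n → ℝ, lam = hH.eigenvalues := ⟨_, rfl⟩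
  have hspec : H = U * diagonal (fun i => (lam i : ℂ)) * star U := by
    have h1 := hH.spectral_theorem
    rw [Unitary.conjStarAlgAut_apply] at h1
    rw [hU, hlam]
    exact h1
  have hlam0 : ∀ i, lam i ≠ 0 := by
    intro i hi
    apply hdet
    rw [hH.det_eq_prod_eigenvalues]
    refine Finset.prod_eq_zero (Finset.mem_univ i) ?_
    rw [← hlam, hi]
    simp
  have hUH : star U * H = diagonal (fun i => (lam i : ℂ)) * star U := by
    rw [hspec, ← Matrix.mul_assoc, ← Matrix.mul_assoc, hUU, Matrix.one_mul]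
  have hHU : Hᵀ * (star U)ᵀ = (star U)ᵀ * diagonal (fun i => (lam i : ℂ)) := by
    rw [← Matrix.transpose_mul, hUH, Matrix.transpose_mul, Matrix.diagonal_transpose]
  have hY : ∀ X ∈ V, ∀ i j, ((lam i : ℂ) + (lam j : ℂ)) * (star U * X * (star U)ᵀ) i j = 0 := by
    intro X hX i j
    have h1 : diagonal (fun i => (lam i : ℂ)) * (star U * X * (star U)ᵀ) +
        (star U * X * (star U)ᵀ) * diagonal (fun i => (lam i : ℂ)) = 0 := by
      have h2 : diagonal (fun i => (lam i : ℂ)) * (star U * X * (star U)ᵀ) =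
          star U * (H * X) * (star U)ᵀ := by
        rw [← Matrix.mul_assoc, ← Matrix.mul_assoc, ← hUH]
        simp only [Matrix.mul_assoc]
      have h3 : (star U * X * (star U)ᵀ) * diagonal (fun i => (lam i : ℂ)) =
          star U * (X * Hᵀ) * (star U)ᵀ := by
        rw [Matrix.mul_assoc, ← hHU]
        simp only [Matrix.mul_assoc]
      rw [h2, h3, ← Matrix.add_mul, ← Matrix.mul_add, hV X hX, Matrix.mul_zero, Matrix.zero_mul]
    have h2 := congrFun (congrFun h1 i) j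
    rw [Matrix.add_apply, Matrix.diagonal_mul, Matrix.mul_diagonal, Matrix.zero_apply] at h2
    rw [add_mul, mul_comm (lam j : ℂ)]
    exact h2
  have hYs : ∀ X ∈ V, (star U * X * (star U)ᵀ)ᵀ = star U * X * (star U)ᵀ := by
    intro X hX
    rw [Matrix.transpose_mul, Matrix.transpose_mul, Matrix.transpose_transpose, hsym X hX,
      Matrix.mul_assoc]
  let Φ : V →ₗ[ℂ] ({i // 0 < lam i} × {i // lam i < 0} → ℂ) :=
    { toFun := fun X p => (star U * X.1 * (star U)ᵀ) p.1.1 p.2.1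
      map_add' := fun X Y => by
        funext p
        change (star U * (X.1 + Y.1) * (star U)ᵀ) p.1.1 p.2.1 = _
        rw [Matrix.mul_add, Matrix.add_mul]
        rfl
      map_smul' := fun r X => by
        funext p
        change (star U * (r • X.1) * (star U)ᵀ) p.1.1 p.2.1 = _
        rw [Matrix.mul_smul, Matrix.smul_mul]
        rfl }
  have hinj : Function.Injective Φ := by
    rw [← LinearMap.ker_eq_bot, LinearMap.ker_eq_bot']
    intro X hX
    have h1 : ∀ i j, 0 < lam i → lam j < 0 → (star U * X.1 * (star U)ᵀ) i j = 0 :=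
      fun i j hi hj => congrFun hX (⟨i, hi⟩, ⟨j, hj⟩)
    have h2 : star U * X.1 * (star U)ᵀ = 0 := by
      ext i j
      rw [Matrix.zero_apply]
      by_contra hne
      have h3 := (mul_eq_zero.1 (hY X.1 X.2 i j)).resolve_right hne
      have h4 : lam i + lam j = 0 := by exact_mod_cast h3
      rcases lt_or_gt_of_ne (hlam0 i) with h5 | h5
      · have h6 := h1 j i (by linarith) h5
        have h7 := congrFun (congrFun (hYs X.1 X.2) i) j
        rw [Matrix.transpose_apply] at h7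
        exact hne (by rw [← h7, h6])
      · exact hne (h1 i j h5 (by linarith))
    have h3 : X.1 = U * (star U * X.1 * (star U)ᵀ) * Uᵀ := by
      have h4 : (star U)ᵀ * Uᵀ = 1 := by rw [← Matrix.transpose_mul, hUU', Matrix.transpose_one]
      have h5 : U * (star U * X.1 * (star U)ᵀ) * Uᵀ = (U * star U) * X.1 * ((star U)ᵀ * Uᵀ) := by
        simp only [Matrix.mul_assoc]
      rw [h5, hUU', h4, Matrix.one_mul, Matrix.mul_one]
    apply Subtype.ext
    rw [h3, h2, Matrix.mul_zero, Matrix.zero_mul]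
    rfl
  have h1 := LinearMap.finrank_le_finrank_of_injective hinj
  rw [Module.finrank_fintype_fun_eq_card, Fintype.card_prod] at h1
  have h2 : Fintype.card {i // 0 < lam i} + Fintype.card {i // lam i < 0} ≤ Fintype.card n := by
    rw [← Fintype.card_sum]
    refine Fintype.card_le_of_injective
      (Sum.elim (fun i : {i // 0 < lam i} => i.1) (fun i : {i // lam i < 0} => i.1)) ?_
    rintro (a | a) (b | b) h
    · exact congrArg Sum.inl (Subtype.ext h)
    · exfalso
      have h3 : a.1 = b.1 := h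
      have h4 := a.2
      rw [h3] at h4
      exact lt_asymm h4 b.2
    · exfalso
      have h3 : a.1 = b.1 := h
      have h4 := a.2
      rw [h3] at h4
      exact lt_asymm h4 b.2
    · exact congrArg Sum.inr (Subtype.ext h)
  calc 4 * finrank ℂ V ≤ 4 * (Fintype.card {i // 0 < lam i} * Fintype.card {i // lam i < 0}) :=
        Nat.mul_le_mul_left 4 h1
  _ ≤ (Fintype.card {i // 0 < lam i} + Fintype.card {i // lam i < 0}) ^ 2 := by
        have h3 : ∀ a b : ℕ, 4 * (a * b) ≤ (a + b) ^ 2 := by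
          intro a b
          zify
          nlinarith [sq_nonneg ((a : ℤ) - b)]
        exact h3 _ _
  _ ≤ Fintype.card n ^ 2 := Nat.pow_le_pow_left h2 2

end lin

section point

variable {g : ℕ} {Z : Matrix (Fin g) (Fin g) ℂ}

/-- Matrices commuting with the Hodge operator act on the eigenspace. -/
theorem exists_M (hY : IsUnit (imM Z).det) {A : Matrix (Fin g ⊕ Fin g) (Fin g ⊕ Fin g) ℂ}
    (h : A * DZ Z = DZ Z * A) : ∃ M : Matrix (Fin g) (Fin g) ℂ, A * TT Z = TT Z * M := by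
  have hu := isUnit_bar_sub hY
  obtain ⟨Zb, hZb⟩ : ∃ Zb, Zb = Z.map (starRingEnd ℂ) := ⟨_, rfl⟩
  rw [← hZb] at hu
  obtain ⟨R', hR⟩ := LM_RM hu
  have h1 : DZ Z * (A * TT Z) = A * TT Z := by
    rw [← Matrix.mul_assoc, ← h, Matrix.mul_assoc, DZ_TT hY]
  have h2 : DZ Z * LM Zb = LM Zb := by rw [hZb]; exact DZ_LM_bar hY
  obtain ⟨Y, hYd⟩ : ∃ Y, Y = A * TT Z := ⟨_, rfl⟩
  rw [← hYd] at h1 ⊢
  have h3 : (2 : ℂ) • Y = (1 + DZ Z) * Y := by
    rw [Matrix.add_mul, Matrix.one_mul, h1, two_smul]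
  have h4 : (1 + DZ Z) * Y = (1 + DZ Z) * (LM Z * RM Z Zb + LM Zb * R') * Y := by
    rw [hR, Matrix.mul_one]
  have h5 : (1 + DZ Z) * (LM Z * RM Z Zb + LM Zb * R') = (2 : ℂ) • (LM Zb * R') := by
    rw [Matrix.mul_add, ← Matrix.mul_assoc, ← Matrix.mul_assoc, Matrix.add_mul, Matrix.one_mul,
      DZ_LM hY, add_neg_cancel, Matrix.zero_mul, zero_add, Matrix.add_mul, Matrix.one_mul, h2,
      ← two_smul ℂ (LM Zb), Matrix.smul_mul]
  have h6 : Y = LM Zb * R' * Y := by
    rw [h4, h5, Matrix.smul_mul] at h3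
    exact smul_right_injective _ (two_ne_zero' ℂ) h3
  have h7 : LM Zb = (-(1 / 2) : ℂ) • (TT Z * (Zb - Z)) := by
    rw [Pool.Agent.TH504.VL.TT_eq hY, ← hZb, Matrix.smul_mul, smul_smul, Matrix.mul_assoc,
      nonsing_inv_mul _ hu, Matrix.mul_one]
    norm_num
  refine ⟨(-(1 / 2) : ℂ) • ((Zb - Z) * R' * Y), ?_⟩
  rw [Matrix.mul_smul, ← Matrix.mul_assoc, ← Matrix.mul_assoc, ← Matrix.smul_mul,
    ← Matrix.smul_mul, ← h7]
  exact h6

/-- **Skew endomorphisms bound the number of moduli**. -/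
theorem moduli_bound (hZ : Zᵀ = Z) (hpos : (imM Z).PosDef) (hs : IsSimpleAV Z)
    {ψ : Matrix (Fin g ⊕ Fin g) (Fin g ⊕ Fin g) ℚ} (h0 : ψ ≠ 0)
    (hcomm : cq ψ * DZ Z = DZ Z * cq ψ) (hskew : (cq ψ)ᵀ * Om g ℂ + Om g ℂ * cq ψ = 0)
    (V : Submodule ℂ (Matrix (Fin g) (Fin g) ℂ)) (hsym : ∀ X ∈ V, Xᵀ = X)
    (hV : ∀ X ∈ V, cq ψ * (TT Z * X * (TT Z)ᵀ * Om g ℂ) =
      (TT Z * X * (TT Z)ᵀ * Om g ℂ) * cq ψ) : 4 * finrank ℂ V ≤ g ^ 2 := by
  have hY : IsUnit (imM Z).det := hpos.isUnit.map Matrix.detMonoidHom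
  obtain ⟨A, hA⟩ : ∃ A, A = cq ψ := ⟨_, rfl⟩
  rw [← hA] at hcomm hskew hV
  obtain ⟨M, hM⟩ := exists_M hY hcomm
  have hAc : A.map (starRingEnd ℂ) = A := by
    rw [hA]
    ext i j
    simp [cq]
  have hMB : A * TB Z = TB Z * M.map (starRingEnd ℂ) := by
    have h1 := congrArg (fun X => X.map (starRingEnd ℂ)) hM
    simp only [Matrix.map_mul, TT_conj, hAc] at h1
    exact h1
  -- the kernel
  have hker : ∀ v, A *ᵥ v = 0 → v = 0 := by
    let C : Submodule ℂ (Fin g ⊕ Fin g → ℂ) :=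
      { carrier := {v | A *ᵥ v = 0}
        zero_mem' := mulVec_zero _
        add_mem' := fun {x y} hx hy => by
          change A *ᵥ (x + y) = 0
          rw [mulVec_add, show A *ᵥ x = 0 from hx, show A *ᵥ y = 0 from hy, add_zero]
        smul_mem' := fun r x hx => by
          change A *ᵥ (r • x) = 0
          rw [mulVec_smul, show A *ᵥ x = 0 from hx, smul_zero] }
    have hbot : C = ⊥ := by
      by_contra hne
      have htop := stable_eq_top hY hs C ?_ ?_ hne
      · apply h0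
        ext i j
        have h1 : (Pi.single j 1 : Fin g ⊕ Fin g → ℂ) ∈ C := by
          rw [htop]
          trivial
        have h2 : A *ᵥ Pi.single j 1 = 0 := h1
        rw [mulVec_single_one] at h2
        have h3 := congrFun h2 i
        rw [hA] at h3
        change ((ψ i j : ℚ) : ℂ) = 0 at h3
        exact_mod_cast h3
      · intro σ v hv
        change A *ᵥ _ = 0
        have hv' : A *ᵥ v = 0 := hv
        funext i
        have h1 := congrArg σ (congrFun hv' i)
        rw [Pi.zero_apply, map_zero] at h1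
        rw [Pi.zero_apply, ← h1, hA]
        simp [mulVec, dotProduct, cq, map_sum]
      · intro v hv
        change A *ᵥ (DZ Z *ᵥ v) = 0
        have hv' : A *ᵥ v = 0 := hv
        rw [mulVec_mulVec, hcomm, ← mulVec_mulVec, hv', mulVec_zero]
    intro v hv
    have h1 : v ∈ C := hv
    rwa [hbot, Submodule.mem_bot] at h1
  -- the hermitian form
  obtain ⟨y, hy, hyy⟩ := exists_sqrt hpos.inv
  rw [star_eq_conjTranspose, conjTranspose_eq_transpose_of_trivial] at hyy
  obtain ⟨yi, hyyi⟩ : ∃ yi, y * yi = 1 := hy.exists_right_inv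
  have hyiy : yi * y = 1 := mul_eq_one_comm.1 hyyi
  obtain ⟨c, hc⟩ : ∃ c, c = cm y := ⟨_, rfl⟩
  obtain ⟨ci, hci⟩ : ∃ ci, ci = cm yi := ⟨_, rfl⟩
  have hcic : ci * c = 1 := by rw [hc, hci, ← cm_mul, hyiy, cm_one]
  have hcci : c * ci = 1 := by rw [hc, hci, ← cm_mul, hyyi, cm_one]
  have hcT : cᵀ * ciᵀ = 1 := by rw [← transpose_mul, hcic, transpose_one]
  have hciT : ciᵀ * cᵀ = 1 := by rw [← transpose_mul, hcci, transpose_one]
  have hcm : c.map (starRingEnd ℂ) = c := by
    rw [hc]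
    ext i j
    simp [cm]
  have hcim : ci.map (starRingEnd ℂ) = ci := by
    rw [hci]
    ext i j
    simp [cm]
  have hK : cm (imM Z)⁻¹ = cᵀ * c := by
    have h1 : cm yᵀ = cᵀ := by
      rw [hc]
      unfold cm
      rw [transpose_map]
    rw [hyy, cm_mul, h1, hc]
  have hOmA : Om g ℂ * A = -(Aᵀ * Om g ℂ) := eq_neg_of_add_eq_zero_right hskew
  have hTA : (TT Z)ᵀ * Om g ℂ * A = -(Mᵀ * ((TT Z)ᵀ * Om g ℂ)) := by
    rw [Matrix.mul_assoc, hOmA, Matrix.mul_neg, ← Matrix.mul_assoc, ← transpose_mul, hM,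
      transpose_mul, Matrix.mul_assoc]
  have hKM : -(Mᵀ * (cᵀ * c)) = (cᵀ * c) * M.map (starRingEnd ℂ) := by
    have h1 : (TT Z)ᵀ * Om g ℂ * A * TB Z = (TT Z)ᵀ * Om g ℂ * TB Z * M.map (starRingEnd ℂ) := by
      rw [Matrix.mul_assoc, hMB, ← Matrix.mul_assoc]
    rw [hTA, Matrix.neg_mul, Matrix.mul_assoc, TT_TB hZ hY, hK, Matrix.mul_smul, ← smul_neg,
      Matrix.smul_mul] at h1
    exact smul_right_injective _ (by norm_num [Complex.I_ne_zero] : (2 * Complex.I : ℂ) ≠ 0) h1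
  obtain ⟨P, hP⟩ : ∃ P, P = c * M * ci := ⟨_, rfl⟩
  have hPs : P.map (starRingEnd ℂ) = -Pᵀ := by
    have h1 : P.map (starRingEnd ℂ) = c * M.map (starRingEnd ℂ) * ci := by
      rw [hP, Matrix.map_mul, Matrix.map_mul, hcm, hcim]
    have h2 : Pᵀ = ciᵀ * Mᵀ * cᵀ := by
      rw [hP, transpose_mul, transpose_mul, Matrix.mul_assoc]
    have h3 := congrArg (fun X => ciᵀ * X * ci) hKM
    have h4 : ciᵀ * -(Mᵀ * (cᵀ * c)) * ci = -(ciᵀ * Mᵀ * cᵀ) := by
      have h5 : ciᵀ * -(Mᵀ * (cᵀ * c)) * ci = -(ciᵀ * Mᵀ * cᵀ * (c * ci)) := by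
        simp only [Matrix.mul_assoc, Matrix.mul_neg, Matrix.neg_mul]
      rw [h5, hcci, Matrix.mul_one]
    have h6 : ciᵀ * ((cᵀ * c) * M.map (starRingEnd ℂ)) * ci = c * M.map (starRingEnd ℂ) * ci := by
      have h7 : ciᵀ * ((cᵀ * c) * M.map (starRingEnd ℂ)) * ci =
          (ciᵀ * cᵀ) * (c * M.map (starRingEnd ℂ) * ci) := by
        simp only [Matrix.mul_assoc]
      rw [h7, hciT, Matrix.one_mul]
    simp only [h4, h6] at h3
    rw [h1, h2, ← h3]
  have hHerm : (Complex.I • P).IsHermitian := by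
    change (Complex.I • P)ᴴ = Complex.I • P
    rw [conjTranspose_smul]
    have h1 : Pᴴ = -P := by
      have h2 := congrArg Matrix.transpose hPs
      rw [Matrix.transpose_neg, Matrix.transpose_transpose] at h2
      exact h2
    rw [h1]
    simp
  have hdetH : (Complex.I • P).det ≠ 0 := by
    rw [← isUnit_iff_ne_zero, ← Matrix.isUnit_iff_isUnit_det, ← Matrix.mulVec_injective_iff_isUnit]
    suffices hinj : ∀ v : Fin g → ℂ, (Complex.I • P) *ᵥ v = 0 → v = 0 by
      intro v w hvw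
      have h1 := hinj (v - w) (by rw [mulVec_sub]; exact sub_eq_zero.2 hvw)
      exact sub_eq_zero.1 h1
    intro v hv
    have h1 : P *ᵥ v = 0 := by
      have h2 : (Complex.I • P) *ᵥ v = 0 := hv
      rw [smul_mulVec] at h2
      exact (smul_eq_zero.1 h2).resolve_left Complex.I_ne_zero
    have h2 : M *ᵥ (ci *ᵥ v) = 0 := by
      have h3 : ci *ᵥ (P *ᵥ v) = M *ᵥ (ci *ᵥ v) := by
        rw [mulVec_mulVec, mulVec_mulVec, hP, ← Matrix.mul_assoc, ← Matrix.mul_assoc, hcic,
          Matrix.one_mul]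
      rw [← h3, h1, mulVec_zero]
    have h3 : TT Z *ᵥ (ci *ᵥ v) = 0 := by
      apply hker
      rw [mulVec_mulVec, hM, ← mulVec_mulVec, h2, mulVec_zero]
    have h4 : ci *ᵥ v = 0 := by
      have h5 : ((TB Z)ᵀ * Om g ℂ) *ᵥ (TT Z *ᵥ (ci *ᵥ v)) = 0 := by rw [h3, mulVec_zero]
      rw [mulVec_mulVec, TB_TT hZ hY, hK, smul_mulVec] at h5
      have h6 := (smul_eq_zero.1 h5).resolve_left (by norm_num [Complex.I_ne_zero])
      have h7 : (ci * ciᵀ) *ᵥ ((cᵀ * c) *ᵥ (ci *ᵥ v)) = 0 := by rw [h6, mulVec_zero]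
      rw [mulVec_mulVec] at h7
      have h8 : ci * ciᵀ * (cᵀ * c) = 1 := by
        have h9 : ci * ciᵀ * (cᵀ * c) = ci * (ciᵀ * cᵀ) * c := by simp only [Matrix.mul_assoc]
        rw [h9, hciT, Matrix.mul_one, hcic]
      rwa [h8, one_mulVec] at h7
    have h5 : v = c *ᵥ (ci *ᵥ v) := by rw [mulVec_mulVec, hcci, one_mulVec]
    rw [h5, h4, mulVec_zero]
  -- the relation
  have hrel : ∀ X ∈ V, M * X + X * Mᵀ = 0 := by
    intro X hX
    apply TT_inj hZ hY
    have h1 := hV X hX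
    have h2 : A * (TT Z * X * (TT Z)ᵀ * Om g ℂ) = TT Z * (M * X) * (TT Z)ᵀ * Om g ℂ := by
      have h3 : A * (TT Z * X * (TT Z)ᵀ * Om g ℂ) = (A * TT Z) * X * (TT Z)ᵀ * Om g ℂ := by
        simp only [Matrix.mul_assoc]
      rw [h3, hM]
      simp only [Matrix.mul_assoc]
    have h3 : (TT Z * X * (TT Z)ᵀ * Om g ℂ) * A = -(TT Z * (X * Mᵀ) * (TT Z)ᵀ * Om g ℂ) := by
      have h4 : (TT Z * X * (TT Z)ᵀ * Om g ℂ) * A = TT Z * X * ((TT Z)ᵀ * Om g ℂ * A) := by
        simp only [Matrix.mul_assoc]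
      rw [h4, hTA]
      simp only [Matrix.mul_assoc, Matrix.mul_neg]
    rw [h2, h3] at h1
    rw [Matrix.mul_add, Matrix.add_mul, Matrix.add_mul, h1, neg_add_cancel]
  -- the transformed space
  let φ : Matrix (Fin g) (Fin g) ℂ →ₗ[ℂ] Matrix (Fin g) (Fin g) ℂ :=
    { toFun := fun N => c * N * cᵀ
      map_add' := fun N N' => by rw [mul_add, add_mul]
      map_smul' := fun a N => by
        rw [mul_smul_comm, smul_mul_assoc]
        rfl }
  have hφ : ∀ N, φ N = c * N * cᵀ := fun N => rfl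
  have hinj : Function.Injective φ := by
    have hφi : ∀ N : Matrix (Fin g) (Fin g) ℂ, ci * φ N * ciᵀ = N := by
      intro N
      have h2 : ci * φ N * ciᵀ = (ci * c) * N * (cᵀ * ciᵀ) := by
        rw [hφ]
        simp only [mul_assoc]
      rw [h2, hcic, hcT, one_mul, mul_one]
    intro N N' h
    rw [← hφi N, h, hφi N']
  have hfr : finrank ℂ (V.map φ) = finrank ℂ V :=
    (LinearEquiv.finrank_eq (Submodule.equivMapOfInjective φ hinj V)).symm
  rw [← hfr]
  have h1 := skew_bound hHerm hdetH (V.map φ) ?_ ?_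
  · rwa [Fintype.card_fin] at h1
  · rintro _ ⟨N, hN, rfl⟩
    rw [hφ, transpose_mul, transpose_mul, transpose_transpose, hsym N hN, mul_assoc]
  · rintro _ ⟨N, hN, rfl⟩
    rw [hφ, Matrix.transpose_smul, Matrix.smul_mul, Matrix.mul_smul, ← smul_add]
    have h2 : P * (c * N * cᵀ) + c * N * cᵀ * Pᵀ = c * (M * N + N * Mᵀ) * cᵀ := by
      have h3 : P * (c * N * cᵀ) = c * (M * N) * cᵀ := by
        have h4 : P * (c * N * cᵀ) = c * M * (ci * c) * N * cᵀ := by
          rw [hP]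
          simp only [Matrix.mul_assoc]
        rw [h4, hcic, Matrix.mul_one]
        simp only [Matrix.mul_assoc]
      have h5 : c * N * cᵀ * Pᵀ = c * (N * Mᵀ) * cᵀ := by
        have h6 : c * N * cᵀ * Pᵀ = c * N * (cᵀ * ciᵀ) * Mᵀ * cᵀ := by
          rw [hP, transpose_mul, transpose_mul]
          simp only [Matrix.mul_assoc]
        rw [h6, hcT, Matrix.mul_one]
        simp only [Matrix.mul_assoc]
      rw [h3, h5, Matrix.mul_add, Matrix.add_mul]
    rw [h2, hrel N hN, Matrix.mul_zero, Matrix.zero_mul, smul_zero]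

end point

end

end Pool.Agent.TH504.CB
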