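import Mathlib
import Pool.Agent.TH131.GHC.Ind5
import Pool.Agent.TH131.GHC.Rel7

/-!
# Subalgebras of the Hodge Lie algebra which move all factors
-/

set_option linter.unusedSectionVars false

namespace Pool.Agent.TH504.CB

open Matrix Equiv Module Pool.Agent.H204R3.SP Pool.Agent.H204R3.CM Pool.Agent.W437.HC
  Pool.Agent.W437.HD Pool.Agent.W437.HP Pool.Agent.W437.HR Pool.Agent.W548.Odd
  Pool.Agent.TH125.Small Pool.Agent.TH131.GHC

noncomputable section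

section gen

variable {ι : Type} [Fintype ι] [DecidableEq ι] {g : ι → ℕ}
  (Z : ∀ i, Matrix (Fin (g i)) (Fin (g i)) ℂ)

/-- An ideal of the Hodge Lie algebra of a product which acts on all factors contains the Hodge
operator. -/
theorem mem_of_moving (hZ : ∀ i, (Z i)ᵀ = Z i) (hpos : ∀ i, (imM (Z i)).PosDef)
    (hp : ∀ i, HasPcs (DZ (Z i))) (hs : ∀ i, IsSimpleAV (Z i))
    {k : Submodule ℂ (Matrix (Fin (NB g) ⊕ Fin (NB g)) (Fin (NB g) ⊕ Fin (NB g)) ℂ)}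
    (hk : GalD (DZ (bigD ℂ Z)) k)
    (hgen : ∀ i, ∃ X ∈ k, X * (cK ℂ (pm g ℚ i))ᵀ ≠ 0) : DZ (bigD ℂ Z) ∈ k := by
  have h : PolH (DZ (bigD ℂ Z)) := polOf (bigD_symm hZ) (imM_bigD_posDef Z hpos)
  have hS : Simp (DZ (bigD ℂ Z)) := simp_prod Z hZ hpos hp
  have hbl := fun i X hX => exists_bl Z hZ hpos i (X := X) hX
  have hpT := pmT_DZ Z hZ hpos
  obtain ⟨D, hDdef⟩ : ∃ D, D = DZ (bigD ℂ Z) := ⟨_, rfl⟩
  rw [← hDdef] at h hS hk hbl hpT ⊢
  -- the vectors killed by the algebra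
  let C0 : Submodule ℂ (Fin (NB g) ⊕ Fin (NB g) → ℂ) :=
    { carrier := {v | ∀ X ∈ k, X *ᵥ v = 0}
      zero_mem' := fun X _ => mulVec_zero _
      add_mem' := fun {x y} hx hy X hX => by rw [mulVec_add, hx X hX, hy X hX, add_zero]
      smul_mem' := fun r x hx X hX => by rw [mulVec_smul, hx X hX, smul_zero] }
  have hblk : ∀ i, ∀ v : Fin (g i) ⊕ Fin (g i) → ℂ, (cK ℂ (pm g ℚ i))ᵀ *ᵥ v ∈ C0 → v = 0 := by
    intro i
    let Ci : Submodule ℂ (Fin (g i) ⊕ Fin (g i) → ℂ) := C0.comap (mulVecLin (cK ℂ (pm g ℚ i))ᵀ)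
    have hCi : ∀ v, v ∈ Ci ↔ ∀ X ∈ k, X *ᵥ ((cK ℂ (pm g ℚ i))ᵀ *ᵥ v) = 0 :=
      fun v => Iff.rfl
    have hbot : Ci = ⊥ := by
      by_contra hne
      have htop := stable_eq_top ((hpos i).isUnit.map Matrix.detMonoidHom) (hs i) Ci ?_ ?_ hne
      · obtain ⟨X, hX, hX0⟩ := hgen i
        apply hX0
        ext x y
        have h3 : (Pi.single y 1 : Fin (g i) ⊕ Fin (g i) → ℂ) ∈ Ci := by
          rw [htop]
          trivial
        rw [hCi] at h3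
        have h4 := congrFun (h3 _ hX) x
        rw [mulVec_mulVec, mulVec_single_one] at h4
        exact h4
      · intro σ v hv
        rw [hCi] at hv ⊢
        intro X hX
        have h1 := hv _ (hk.gal σ.symm X hX)
        funext x
        have h2 := congrArg σ (congrFun h1 x)
        rw [Pi.zero_apply, map_zero] at h2
        rw [Pi.zero_apply, ← h2]
        simp [mulVec, dotProduct, cK, map_sum]
      · intro v hv
        rw [hCi] at hv ⊢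
        intro X hX
        have h1 : (cK ℂ (pm g ℚ i))ᵀ *ᵥ (DZ (Z i) *ᵥ v) = D *ᵥ ((cK ℂ (pm g ℚ i))ᵀ *ᵥ v) := by
          rw [mulVec_mulVec, mulVec_mulVec, hpT]
        rw [h1, mulVec_mulVec]
        have h2 : X * D = D * X + (X * D - D * X) := by abel
        have h3 : X * D - D * X ∈ k := h.ideal hk hX (D_mem D)
        rw [h2, add_mulVec, ← mulVec_mulVec, hv X hX, mulVec_zero, hv _ h3, add_zero]
    intro v hv
    have h1 : v ∈ Ci := hv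
    rwa [hbot, Submodule.mem_bot] at h1
  have hC0 : ∀ v ∈ C0, v = 0 := by
    intro v hv
    have h1 : v = ∑ i, (cK ℂ (pm g ℚ i))ᵀ *ᵥ (cK ℂ (pm g ℚ i) *ᵥ v) := by
      conv_lhs => rw [← one_mulVec v, ← pm_totC, sum_mulVec]
      exact Finset.sum_congr rfl fun i _ => (mulVec_mulVec _ _ _).symm
    rw [h1]
    refine Finset.sum_eq_zero fun i _ => ?_
    rw [hblk i (cK ℂ (pm g ℚ i) *ᵥ v), mulVec_zero]
    intro X hX
    obtain ⟨Y, -, h2, h3⟩ := hbl i X (hk.le hX)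
    rw [mulVec_mulVec, h2, ← mulVec_mulVec, mulVec_mulVec _ Y, ← h3,
      ← mulVec_mulVec _ (cK ℂ (pm g ℚ i)), hv X hX, mulVec_zero, mulVec_zero]
  -- the complement is zero
  obtain ⟨D1, hD1, hD2⟩ := h.cmpl_sum hk (D_mem D)
  have hc := h.cmpl_galD hk
  have h5 : D - D1 = 0 := by
    have h6 : ∀ v, (D - D1) *ᵥ v = 0 := by
      intro v
      apply hC0
      intro X hX
      rw [mulVec_mulVec, hS k (cmpl D k) hk.le hc.le
        (fun X hX Y hY => h.ideal hk hX hY) (fun X hX Y hY => h.ideal hc hX hY)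
        (fun X hX Y hY => h.cmpl_bracket hk hX hY) X hX _ hD2, zero_mulVec]
    ext x y
    have h7 := congrFun (h6 (Pi.single y 1)) x
    rw [mulVec_single_one] at h7
    exact h7
  rw [sub_eq_zero] at h5
  rwa [h5]

end gen

section sub

variable {ι : Type} [Fintype ι] [DecidableEq ι] {g : ι → ℕ} (S : ι → Prop) [DecidablePred S]

/-- The dimensions of some of the factors. -/
abbrev gS (g : ι → ℕ) (S : ι → Prop) : {i // S i} → ℕ := fun i => g i.1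

/-- The projection to the product of some of the factors. -/
def QS (g : ι → ℕ) (S : ι → Prop) [DecidablePred S] :
    Matrix (Fin (NB (gS g S)) ⊕ Fin (NB (gS g S))) (Fin (NB g) ⊕ Fin (NB g)) ℚ :=
  ∑ i : {i // S i}, (pm (gS g S) ℚ i)ᵀ * pm g ℚ i.1

theorem pm_QS (i : {i // S i}) : pm (gS g S) ℚ i * QS g S = pm g ℚ i.1 := by
  unfold QS
  rw [Matrix.mul_sum, Finset.sum_eq_single i]
  · rw [← Matrix.mul_assoc, pm_same, Matrix.one_mul]
  · intro j _ hj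
    rw [← Matrix.mul_assoc, pm_off ℚ (Ne.symm hj), Matrix.zero_mul]
  · intro h
    exact absurd (Finset.mem_univ _) h

theorem QS_pmT (i : {i // S i}) : QS g S * (pm g ℚ i.1)ᵀ = (pm (gS g S) ℚ i)ᵀ := by
  unfold QS
  rw [Matrix.sum_mul, Finset.sum_eq_single i]
  · rw [Matrix.mul_assoc, pm_same, Matrix.mul_one]
  · intro j _ hj
    rw [Matrix.mul_assoc, pm_off ℚ (fun h => hj (Subtype.ext h)), Matrix.mul_zero]
  · intro h
    exact absurd (Finset.mem_univ _) h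

theorem QS_pmT_of_not {i : ι} (hi : ¬S i) : QS g S * (pm g ℚ i)ᵀ = 0 := by
  unfold QS
  rw [Matrix.sum_mul]
  refine Finset.sum_eq_zero fun j _ => ?_
  have hji : j.1 ≠ i := by
    rintro rfl
    exact hi j.2
  rw [Matrix.mul_assoc, pm_off ℚ hji, Matrix.mul_zero]

theorem QS_QST : QS g S * (QS g S)ᵀ = 1 := by
  have h1 : (QS g S)ᵀ = ∑ i : {i // S i}, (pm g ℚ i.1)ᵀ * pm (gS g S) ℚ i := by
    unfold QS
    rw [Matrix.transpose_sum]
    refine Finset.sum_congr rfl fun i _ => ?_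
    rw [Matrix.transpose_mul, Matrix.transpose_transpose]
  rw [h1, Matrix.mul_sum, ← pm_tot (g := gS g S) ℚ]
  refine Finset.sum_congr rfl fun i _ => ?_
  rw [← Matrix.mul_assoc, QS_pmT]

theorem QST_QS : (QS g S)ᵀ * QS g S = ∑ i : {i // S i}, (pm g ℚ i.1)ᵀ * pm g ℚ i.1 := by
  have h1 : (QS g S)ᵀ = ∑ i : {i // S i}, (pm g ℚ i.1)ᵀ * pm (gS g S) ℚ i := by
    unfold QS
    rw [Matrix.transpose_sum]
    refine Finset.sum_congr rfl fun i _ => ?_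
    rw [Matrix.transpose_mul, Matrix.transpose_transpose]
  rw [h1, Matrix.sum_mul]
  refine Finset.sum_congr rfl fun i _ => ?_
  rw [Matrix.mul_assoc, pm_QS]

variable (Z : ∀ i, Matrix (Fin (g i)) (Fin (g i)) ℂ)

/-- Some of the factors. -/
abbrev ZS (S : ι → Prop) : ∀ i : {i // S i}, Matrix (Fin (gS g S i)) (Fin (gS g S i)) ℂ :=
  fun i => Z i.1

theorem pm_DZ' (hZ : ∀ i, (Z i)ᵀ = Z i) (hpos : ∀ i, (imM (Z i)).PosDef) (i : ι) :
    cK ℂ (pm g ℚ i) * DZ (bigD ℂ Z) = DZ (Z i) * cK ℂ (pm g ℚ i) :=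
  (blocksOf Z hZ hpos).com i

theorem QS_DZ (hZ : ∀ i, (Z i)ᵀ = Z i) (hpos : ∀ i, (imM (Z i)).PosDef) :
    cK ℂ (QS g S) * DZ (bigD ℂ Z) = DZ (bigD ℂ (ZS Z S)) * cK ℂ (QS g S) := by
  unfold QS
  rw [cK_sum, Matrix.sum_mul, Matrix.mul_sum]
  refine Finset.sum_congr rfl fun i _ => ?_
  have h2 := pmT_DZ (g := gS g S) (ZS Z S) (fun i => hZ i.1) (fun i => hpos i.1) i
  rw [cK_mul, Matrix.mul_assoc, pm_DZ' Z hZ hpos, ← Matrix.mul_assoc, ← Matrix.mul_assoc,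
    cK_transpose, h2]

theorem QST_DZ (hZ : ∀ i, (Z i)ᵀ = Z i) (hpos : ∀ i, (imM (Z i)).PosDef) :
    DZ (bigD ℂ Z) * (cK ℂ (QS g S))ᵀ = (cK ℂ (QS g S))ᵀ * DZ (bigD ℂ (ZS Z S)) := by
  have h1 : (cK ℂ (QS g S))ᵀ =
      ∑ i : {i // S i}, (cK ℂ (pm g ℚ i.1))ᵀ * cK ℂ (pm (gS g S) ℚ i) := by
    unfold QS
    rw [cK_sum, Matrix.transpose_sum]
    refine Finset.sum_congr rfl fun i _ => ?_
    rw [cK_mul, Matrix.transpose_mul, cK_transpose, Matrix.transpose_transpose]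
  rw [h1, Matrix.sum_mul, Matrix.mul_sum]
  refine Finset.sum_congr rfl fun i _ => ?_
  have h2 := pm_DZ' (g := gS g S) (ZS Z S) (fun i => hZ i.1) (fun i => hpos i.1) i
  rw [← Matrix.mul_assoc, pmT_DZ Z hZ hpos, Matrix.mul_assoc, Matrix.mul_assoc, h2]

/-- **The Hodge operator of a factor is in the Hodge Lie algebra** if for each simple factor of
this factor there is an element of the Hodge Lie algebra which acts on it and does not act on the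
complement. -/
theorem DS_mem (hZ : ∀ i, (Z i)ᵀ = Z i) (hpos : ∀ i, (imM (Z i)).PosDef)
    (hp : ∀ i, S i → HasPcs (DZ (Z i))) (hs : ∀ i, S i → IsSimpleAV (Z i))
    (hgen : ∀ i, S i → ∃ X ∈ lieM (DZ (bigD ℂ Z)) ℂ, (∀ j, ¬S j → X * (cK ℂ (pm g ℚ j))ᵀ = 0) ∧
      X * (cK ℂ (pm g ℚ i))ᵀ ≠ 0) :
    (cK ℂ (QS g S))ᵀ * DZ (bigD ℂ (ZS Z S)) * cK ℂ (QS g S) ∈ lieM (DZ (bigD ℂ Z)) ℂ := by
  have hbl := fun i X hX => exists_bl Z hZ hpos i (X := X) hX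
  have hQD := QS_DZ S Z hZ hpos
  have hQTD := QST_DZ S Z hZ hpos
  have hpT := pmT_DZ Z hZ hpos
  obtain ⟨D, hDdef⟩ : ∃ D, D = DZ (bigD ℂ Z) := ⟨_, rfl⟩
  rw [← hDdef] at hbl hQD hQTD hpT hgen ⊢
  have hsame : ∀ i, cK ℂ (pm g ℚ i) * (cK ℂ (pm g ℚ i))ᵀ = 1 := pm_sameC
  have htot : ∑ i, (cK ℂ (pm g ℚ i))ᵀ * cK ℂ (pm g ℚ i) = 1 := pm_totC
  obtain ⟨Q, hQ⟩ : ∃ Q, Q = cK ℂ (QS g S) := ⟨_, rfl⟩
  have hQQ : Q * Qᵀ = 1 := by rw [hQ, ← cK_transpose, ← cK_mul, QS_QST, cK_one]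
  have hQTQ : Qᵀ * Q = ∑ i : {i // S i}, (cK ℂ (pm g ℚ i.1))ᵀ * cK ℂ (pm g ℚ i.1) := by
    rw [hQ, ← cK_transpose, ← cK_mul, QST_QS, cK_sum]
    exact Finset.sum_congr rfl fun i _ => cK_mul ℂ _ _
  have hsplit : Qᵀ * Q + ∑ i : {i // ¬S i}, (cK ℂ (pm g ℚ i.1))ᵀ * cK ℂ (pm g ℚ i.1) = 1 := by
    rw [hQTQ, ← htot]
    exact Fintype.sum_subtype_add_sum_subtype S
      (fun i => (cK ℂ (pm g ℚ i))ᵀ * cK ℂ (pm g ℚ i))
  rw [← hQ] at hQD hQTD ⊢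
  -- the ideal
  let k : Submodule ℂ (Matrix (Fin (NB g) ⊕ Fin (NB g)) (Fin (NB g) ⊕ Fin (NB g)) ℂ) :=
    { carrier := {X | X ∈ lieM D ℂ ∧ ∀ j, ¬S j → X * (cK ℂ (pm g ℚ j))ᵀ = 0}
      zero_mem' := ⟨Submodule.zero_mem _, fun j _ => Matrix.zero_mul _⟩
      add_mem' := fun {X Y} hX hY => ⟨Submodule.add_mem _ hX.1 hY.1, fun j hj => by
        rw [Matrix.add_mul, hX.2 j hj, hY.2 j hj, add_zero]⟩
      smul_mem' := fun r X hX => ⟨Submodule.smul_mem _ _ hX.1, fun j hj => by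
        rw [Matrix.smul_mul, hX.2 j hj, smul_zero]⟩ }
  have hkr : ∀ X ∈ k, X * (Qᵀ * Q) = X := by
    intro X hX
    have h1 : X * (Qᵀ * Q + ∑ i : {i // ¬S i},
        (cK ℂ (pm g ℚ i.1))ᵀ * cK ℂ (pm g ℚ i.1)) = X := by rw [hsplit, Matrix.mul_one]
    rw [Matrix.mul_add, Matrix.mul_sum, Finset.sum_eq_zero, add_zero] at h1
    · exact h1
    · intro i _
      rw [← Matrix.mul_assoc, hX.2 i.1 i.2, Matrix.zero_mul]
  have hkl : ∀ X ∈ k, (Qᵀ * Q) * X = X := by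
    intro X hX
    have h1 : (Qᵀ * Q + ∑ i : {i // ¬S i},
        (cK ℂ (pm g ℚ i.1))ᵀ * cK ℂ (pm g ℚ i.1)) * X = X := by rw [hsplit, Matrix.one_mul]
    rw [Matrix.add_mul, Matrix.sum_mul, Finset.sum_eq_zero, add_zero] at h1
    · exact h1
    · intro i _
      obtain ⟨Y, -, h2, h3⟩ := hbl i.1 X hX.1
      have h4 : Y = 0 := by
        have h5 : cK ℂ (pm g ℚ i.1) * (X * (cK ℂ (pm g ℚ i.1))ᵀ) = Y := by
          rw [h2, ← Matrix.mul_assoc, hsame, Matrix.one_mul]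
        rw [← h5, hX.2 i.1 i.2, Matrix.mul_zero]
      rw [Matrix.mul_assoc, h3, h4, Matrix.zero_mul, Matrix.mul_zero]
  let conj : Matrix (Fin (NB g) ⊕ Fin (NB g)) (Fin (NB g) ⊕ Fin (NB g)) ℂ →ₗ[ℂ]
      Matrix (Fin (NB (gS g S)) ⊕ Fin (NB (gS g S))) (Fin (NB (gS g S)) ⊕ Fin (NB (gS g S))) ℂ :=
    { toFun := fun X => Q * X * Qᵀ
      map_add' := fun X Y => by rw [Matrix.mul_add, Matrix.add_mul]
      map_smul' := fun a X => by rw [Matrix.mul_smul, Matrix.smul_mul, RingHom.id_apply] }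
  have hGal : GalD (DZ (bigD ℂ (ZS Z S))) (k.map conj) := by
    refine ⟨?_, ?_, ?_⟩
    · rintro _ ⟨X, hX, rfl⟩
      change Q * X * Qᵀ ∈ _
      rw [hQ]
      refine lieM_blk (P := QS g S) (Q := (QS g S)ᵀ) (by rw [← hQ]; exact hQD) (QS_QST S) hX.1 ?_
      rw [cK_transpose, ← hQ]
      have h1 := hkl X hX
      calc X * Qᵀ = (Qᵀ * Q * X) * Qᵀ := by rw [h1]
      _ = Qᵀ * (Q * X * Qᵀ) := by simp only [Matrix.mul_assoc]
    · rintro σ _ ⟨X, hX, rfl⟩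
      refine ⟨X.map σ, ⟨map_mem_aut hX.1 (σ : ℂ →+* ℂ), fun j hj => ?_⟩, ?_⟩
      · have h1 := congrArg (fun M => M.map σ) (hX.2 j hj)
        rw [Matrix.map_mul] at h1
        have h2 : ((cK ℂ (pm g ℚ j))ᵀ).map σ = (cK ℂ (pm g ℚ j))ᵀ := by
          ext x y
          simp [cK]
        rw [h2] at h1
        rw [h1]
        ext x y
        simp
      · change Q * X.map σ * Qᵀ = (Q * X * Qᵀ).map σ
        have h2 : Q.map σ = Q := by
          rw [hQ]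
          ext x y
          simp [cK]
        have h3 : (Qᵀ).map σ = Qᵀ := by
          rw [hQ]
          ext x y
          simp [cK]
        rw [Matrix.map_mul, Matrix.map_mul, h2, h3]
    · rintro _ ⟨X, hX, rfl⟩
      refine ⟨D * X - X * D, ⟨lieM_bracket D (D_mem D) hX.1, fun j hj => ?_⟩, ?_⟩
      · rw [Matrix.sub_mul, Matrix.mul_assoc, hX.2 j hj, Matrix.mul_zero, Matrix.mul_assoc, hpT,
          ← Matrix.mul_assoc, hX.2 j hj, Matrix.zero_mul, sub_zero]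
      · change Q * (D * X - X * D) * Qᵀ = DZ (bigD ℂ (ZS Z S)) * (Q * X * Qᵀ) -
          (Q * X * Qᵀ) * DZ (bigD ℂ (ZS Z S))
        have e1 : DZ (bigD ℂ (ZS Z S)) * (Q * X * Qᵀ) = Q * (D * X) * Qᵀ := by
          rw [← Matrix.mul_assoc, ← Matrix.mul_assoc, ← hQD]
          simp only [Matrix.mul_assoc]
        have e2 : (Q * X * Qᵀ) * DZ (bigD ℂ (ZS Z S)) = Q * (X * D) * Qᵀ := by
          rw [Matrix.mul_assoc, ← hQTD]
          simp only [Matrix.mul_assoc]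
        rw [e1, e2, Matrix.mul_sub, Matrix.sub_mul]
  have hmem := mem_of_moving (g := gS g S) (ZS Z S) (fun i => hZ i.1) (fun i => hpos i.1)
    (fun i => hp i.1 i.2) (fun i => hs i.1 i.2) hGal (fun i => by
      obtain ⟨X, hX, h1, h2⟩ := hgen i.1 i.2
      refine ⟨_, ⟨X, ⟨hX, h1⟩, rfl⟩, fun h3 => h2 ?_⟩
      change Q * X * Qᵀ * (cK ℂ (pm (gS g S) ℚ i))ᵀ = 0 at h3
      have h4 : Qᵀ * (cK ℂ (pm (gS g S) ℚ i))ᵀ = (cK ℂ (pm g ℚ i.1))ᵀ := by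
        rw [← Matrix.transpose_mul, hQ, ← cK_mul, pm_QS]
      rw [Matrix.mul_assoc, h4] at h3
      have h5 := hkl X ⟨hX, h1⟩
      calc X * (cK ℂ (pm g ℚ i.1))ᵀ = (Qᵀ * Q * X) * (cK ℂ (pm g ℚ i.1))ᵀ := by rw [h5]
      _ = Qᵀ * (Q * X * (cK ℂ (pm g ℚ i.1))ᵀ) := by simp only [Matrix.mul_assoc]
      _ = 0 := by rw [h3, Matrix.mul_zero])
  obtain ⟨X, hX, h1⟩ := hmem
  have h1' : Q * X * Qᵀ = DZ (bigD ℂ (ZS Z S)) := h1
  have h2 : Qᵀ * DZ (bigD ℂ (ZS Z S)) * Q = X := by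
    rw [← h1']
    have h3 : Qᵀ * (Q * X * Qᵀ) * Q = (Qᵀ * Q) * X * (Qᵀ * Q) := by
      simp only [Matrix.mul_assoc]
    rw [h3, hkl X hX, hkr X hX]
  rw [h2]
  exact hX.1

end sub

end

end Pool.Agent.TH504.CB
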