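import Mathlib
import Pool.Agent.TH504.VL.KS
import Pool.Agent.TH504.CB.Gen
import Pool.Agent.TH504.CB.Prod

/-!
# The derivatives of the period matrix of a product
-/

set_option linter.unusedSectionVars false

namespace Pool.Agent.TH504.CB

open Matrix Equiv Module Pool.Agent.H204R3.SP Pool.Agent.H204R3.CM Pool.Agent.W437.HC
  Pool.Agent.W437.HD Pool.Agent.W437.HP Pool.Agent.W437.HR Pool.Agent.W548.Odd
  Pool.Agent.TH131.GHC Pool.Agent.TH504.VL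

noncomputable section

section block

variable {ι : Type} [Fintype ι] [DecidableEq ι] {g : ι → ℕ}
  (Z : ∀ i, Matrix (Fin (g i)) (Fin (g i)) ℂ)

theorem pmT_r10 (i : ι) : (pm g ℂ i)ᵀ * r10 (g i) = r10 (NB g) * (qm g ℂ i)ᵀ := by
  unfold pm r10
  rw [fromBlocks_transpose, fromBlocks_mul_fromRows, fromRows_mul]
  simp

theorem TT_big (hZ : ∀ i, (Z i)ᵀ = Z i) (hpos : ∀ i, (imM (Z i)).PosDef) (i : ι) :
    TT (bigD ℂ Z) * (qm g ℂ i)ᵀ = (pm g ℂ i)ᵀ * TT (Z i) := by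
  have h1 := pmT_DZ Z hZ hpos i
  rw [cK_pm] at h1
  unfold Pool.Agent.W437.HD.TT
  rw [Matrix.mul_assoc, ← pmT_r10, ← Matrix.mul_assoc, ← Matrix.mul_assoc, Matrix.add_mul,
    Matrix.one_mul, h1, Matrix.mul_add, Matrix.mul_one]

theorem pm_OmC (i : ι) : pm g ℂ i * Om (NB g) ℂ = Om (g i) ℂ * pm g ℂ i := by
  unfold pm Om
  rw [fromBlocks_multiply, fromBlocks_multiply]
  simp

theorem TTT_Om_pmT (hZ : ∀ i, (Z i)ᵀ = Z i) (hpos : ∀ i, (imM (Z i)).PosDef) (i : ι) :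
    (TT (bigD ℂ Z))ᵀ * Om (NB g) ℂ * (pm g ℂ i)ᵀ =
      (qm g ℂ i)ᵀ * ((TT (Z i))ᵀ * Om (g i) ℂ) := by
  have h1 : ∀ j, qm g ℂ j * ((TT (bigD ℂ Z))ᵀ * Om (NB g) ℂ * (pm g ℂ i)ᵀ) =
      qm g ℂ j * ((qm g ℂ i)ᵀ * ((TT (Z i))ᵀ * Om (g i) ℂ)) := by
    intro j
    have h2 : qm g ℂ j * (TT (bigD ℂ Z))ᵀ = (TT (Z j))ᵀ * pm g ℂ j := by
      have h3 := congrArg Matrix.transpose (TT_big Z hZ hpos j)
      rw [Matrix.transpose_mul, Matrix.transpose_mul, Matrix.transpose_transpose,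
        Matrix.transpose_transpose] at h3
      exact h3
    rw [← Matrix.mul_assoc, ← Matrix.mul_assoc, h2, Matrix.mul_assoc (TT (Z j))ᵀ, pm_OmC,
      ← Matrix.mul_assoc (qm g ℂ j)]
    by_cases h : j = i
    · subst h
      rw [Matrix.mul_assoc, Matrix.mul_assoc (Om (g j) ℂ), pm_same, Matrix.mul_one, qm_same,
        Matrix.one_mul]
    · rw [Matrix.mul_assoc, Matrix.mul_assoc (Om (g j) ℂ), pm_off ℂ h, Matrix.mul_zero,
        Matrix.mul_zero, qm_off ℂ h, Matrix.zero_mul]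
  have h2 : ∀ M : Matrix (Fin (NB g)) (Fin (g i) ⊕ Fin (g i)) ℂ,
      M = ∑ j, (qm g ℂ j)ᵀ * (qm g ℂ j * M) := by
    intro M
    conv_lhs => rw [← Matrix.one_mul M, ← qm_tot ℂ, Matrix.sum_mul]
    exact Finset.sum_congr rfl fun j _ => Matrix.mul_assoc _ _ _
  rw [h2 ((TT (bigD ℂ Z))ᵀ * Om (NB g) ℂ * (pm g ℂ i)ᵀ),
    h2 ((qm g ℂ i)ᵀ * ((TT (Z i))ᵀ * Om (g i) ℂ))]
  exact Finset.sum_congr rfl fun j _ => by rw [h1]

/-- The blocks of the nilpotent elements. -/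
theorem N_pmT (hZ : ∀ i, (Z i)ᵀ = Z i) (hpos : ∀ i, (imM (Z i)).PosDef)
    (X : ∀ i, Matrix (Fin (g i)) (Fin (g i)) ℂ) (i : ι) :
    TT (bigD ℂ Z) * bigD ℂ X * (TT (bigD ℂ Z))ᵀ * Om (NB g) ℂ * (cK ℂ (pm g ℚ i))ᵀ =
      (pm g ℂ i)ᵀ * (TT (Z i) * X i * (TT (Z i))ᵀ * Om (g i) ℂ) := by
  rw [cK_pm]
  calc TT (bigD ℂ Z) * bigD ℂ X * (TT (bigD ℂ Z))ᵀ * Om (NB g) ℂ * (pm g ℂ i)ᵀ =
      TT (bigD ℂ Z) * bigD ℂ X * ((TT (bigD ℂ Z))ᵀ * Om (NB g) ℂ * (pm g ℂ i)ᵀ) := by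
        simp only [Matrix.mul_assoc]
    _ = TT (bigD ℂ Z) * (bigD ℂ X * (qm g ℂ i)ᵀ) * ((TT (Z i))ᵀ * Om (g i) ℂ) := by
        rw [TTT_Om_pmT Z hZ hpos]
        simp only [Matrix.mul_assoc]
    _ = (TT (bigD ℂ Z) * (qm g ℂ i)ᵀ) * X i * ((TT (Z i))ᵀ * Om (g i) ℂ) := by
        rw [bigD_qmT]
        simp only [Matrix.mul_assoc]
    _ = _ := by
        rw [TT_big Z hZ hpos]
        simp only [Matrix.mul_assoc]

end block

section point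

variable {ι : Type} [Fintype ι] [DecidableEq ι] {g : ι → ℕ}
  (Z : ∀ i, Matrix (Fin (g i)) (Fin (g i)) ℂ) (S : ι → Prop) [DecidablePred S]

/-- **Hodge classes on the products** of a factor, which contains for each simple factor a
deformation which only moves this factor, and a complement. -/
theorem point_main (hZ : ∀ i, (Z i)ᵀ = Z i) (hpos : ∀ i, (imM (Z i)).PosDef)
    (hp : ∀ i, S i → HasPcs (DZ (Z i))) (hs : ∀ i, S i → IsSimpleAV (Z i))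
    (hgen : ∀ i, S i → ∃ X ∈ lieM (DZ (bigD ℂ Z)) ℂ, (∀ j, ¬S j → X * (cK ℂ (pm g ℚ j))ᵀ = 0) ∧
      X * (cK ℂ (pm g ℚ i))ᵀ ≠ 0) {n : ℕ} (c : Fin n → ι) {k : ℕ}
    {f : (∀ j, Fin (g (c j)) ⊕ Fin (g (c j)) → ℚ) [⋀^Fin k]→ₗ[ℚ] ℚ}
    (hf : IsHodge (perFam Z c) f) :
    f ∈ Submodule.span ℚ (prodSet (perFam Z c) (fun w w' => ∀ j, ¬S (c j) → w j = w' j) k) := by
  have hpolS : PolH (DZ (bigD ℂ (ZS Z S))) :=
    polOf (bigD_symm (g := gS g S) (fun i => hZ i.1))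
      (imM_bigD_posDef (g := gS g S) (ZS Z S) (fun i => hpos i.1))
  refine mem_prodSet (frameOf Z hpos c) (D := DZ (bigD ℂ Z)) rfl
    (JR_sq ((imM_bigD_posDef _ hpos).isUnit.map Matrix.detMonoidHom))
    (D' := DZ (bigD ℂ (ZS Z S))) (Q := QS g S) ?_ (QS_QST S) (QS_DZ S Z hZ hpos)
    (QST_DZ S Z hZ hpos) (DS_mem S Z hZ hpos hp hs hgen) hpolS.dd ?_ hf
  · intro w w' hw j
    change (1 - (QS g S)ᵀ * QS g S) *ᵥ ((pm g ℚ (c j))ᵀ *ᵥ w j) =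
      (1 - (QS g S)ᵀ * QS g S) *ᵥ ((pm g ℚ (c j))ᵀ *ᵥ w' j)
    by_cases hS : S (c j)
    · have h1 : (1 - (QS g S)ᵀ * QS g S) * (pm g ℚ (c j))ᵀ = 0 := by
        have h2 := QS_pmT (g := g) S ⟨c j, hS⟩
        have h3 : (QS g S)ᵀ * (pm (gS g S) ℚ ⟨c j, hS⟩)ᵀ = (pm g ℚ (c j))ᵀ := by
          rw [← Matrix.transpose_mul, pm_QS]
        rw [Matrix.sub_mul, Matrix.one_mul, Matrix.mul_assoc, h2, h3, sub_self]
      rw [mulVec_mulVec, mulVec_mulVec, h1, zero_mulVec, zero_mulVec]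
    · rw [hw j hS]
  · intro r κ _ _ x hr hx
    exact le_IJ hpolS (coreP_prod (g := gS g S) (ZS Z S) (fun i => hZ i.1) (fun i => hpos i.1)
        (fun i => hp i.1 i.2))
      (fun _ c hc => mem_MS_prod (g := gS g S) (ZS Z S) (fun i => hZ i.1) (fun i => hpos i.1)
        (fun i => hp i.1 i.2) c hc) r κ 0 _ (Pool.Agent.TH504.VY.HL_span hx) (by
        rw [hr]
        push_cast
        ring_nf
        rfl) (Submodule.mem_span_singleton_self _)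

end point

section family

variable {ι : Type} [Fintype ι] [DecidableEq ι] {g : ι → ℕ} {d : ℕ}

/-- The Kodaira-Spencer map of a product. -/
theorem ksMap_big {U : Set (Fin d → ℂ)} (Z : ∀ i, (Fin d → ℂ) → Matrix (Fin (g i)) (Fin (g i)) ℂ)
    (hol : ∀ i a b, AnalyticOnNhd ℂ (fun t => Z i t a b) U) {t : Fin d → ℂ} (ht : t ∈ U)
    (u : Fin d → ℂ) :
    ksMap (fun t => bigD ℂ (fun i => Z i t)) t u = bigD ℂ (fun i => ksMap (Z i) t u) := by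
  have hd : ∀ i a b, HasFDerivAt (fun t => Z i t a b) (fderiv ℂ (fun t => Z i t a b) t) t :=
    fun i a b => ((hol i a b) t ht).differentiableAt.hasFDerivAt
  ext x y
  change fderiv ℂ (fun t => bigD ℂ (fun i => Z i t) x y) t u = _
  have h1 : (fun t => bigD ℂ (fun i => Z i t) x y) = fun t => ∑ i, ∑ a, (∑ b,
      (qm g ℂ i)ᵀ x b * Z i t b a) * qm g ℂ i a y := by
    funext t
    unfold bigD
    simp only [Matrix.sum_apply, Matrix.mul_apply]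
  rw [h1]
  have h2 : HasFDerivAt (fun t => ∑ i, ∑ a, (∑ b, (qm g ℂ i)ᵀ x b * Z i t b a) * qm g ℂ i a y)
      (∑ i, ∑ a, (qm g ℂ i a y) • (∑ b, ((qm g ℂ i)ᵀ x b) •
        fderiv ℂ (fun t => Z i t b a) t)) t := by
    refine HasFDerivAt.fun_sum fun i _ => HasFDerivAt.fun_sum fun a _ => ?_
    refine HasFDerivAt.mul_const ?_ _
    refine HasFDerivAt.fun_sum fun b _ => ?_
    exact (hd i b a).const_mul _
  rw [h2.fderiv]
  unfold bigD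
  simp only [Matrix.sum_apply, Matrix.mul_apply, _root_.sum_apply, _root_.smul_apply, smul_eq_mul]
  refine Finset.sum_congr rfl fun i _ => Finset.sum_congr rfl fun a _ => ?_
  rw [mul_comm]
  rfl

theorem bigD_inj {X Y : ∀ i, Matrix (Fin (g i)) (Fin (g i)) ℂ} (h : bigD ℂ X = bigD ℂ Y) :
    X = Y := by
  funext i
  have h1 : qm g ℂ i * bigD ℂ X * (qm g ℂ i)ᵀ = qm g ℂ i * bigD ℂ Y * (qm g ℂ i)ᵀ := by rw [h]
  rwa [qm_bigD, qm_bigD, Matrix.mul_assoc, Matrix.mul_assoc, qm_same, Matrix.mul_one,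
    Matrix.mul_one] at h1

end family

end

end Pool.Agent.TH504.CB
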