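import Mathlib
import Pool.Agent.TH504.CB.Bound
import Pool.Agent.TH504.CB.Ks
import Pool.Agent.TH504.VY.Rich

/-!
# Families with many moduli
-/

set_option linter.unusedSectionVars false

namespace Pool.Agent.TH504.CB

open Matrix Module Pool.Agent.W437.HC Pool.Agent.W437.HD Pool.Agent.W437.HP Pool.Agent.W548.Odd
  Pool.Agent.W437.HR Pool.Agent.W437.HQ Pool.Agent.H204R3.CM Pool.Agent.TH504.VL
  Pool.Agent.TH504.VY Pool.Agent.TH131.GHC

noncomputable section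

section numeric

theorem sum_sq_le {ι : Type*} (s : Finset ι) (g : ι → ℕ) :
    ∑ i ∈ s, g i ^ 2 ≤ (∑ i ∈ s, g i) ^ 2 := by
  classical
  induction s using Finset.induction_on with
  | empty => simp
  | insert a s ha ih =>
    rw [Finset.sum_insert ha, Finset.sum_insert ha]
    nlinarith [Nat.zero_le (g a * ∑ i ∈ s, g i)]

theorem sum_mul_le {ι : Type*} (s : Finset ι) (g : ι → ℕ) :
    ∑ i ∈ s, g i * (g i + 1) ≤ (∑ i ∈ s, g i) * (∑ i ∈ s, g i + 1) := by
  classical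
  induction s using Finset.induction_on with
  | empty => simp
  | insert a s ha ih =>
    rw [Finset.sum_insert ha, Finset.sum_insert ha]
    nlinarith [Nat.zero_le (g a * ∑ i ∈ s, g i)]

/-- The numerical condition. -/
theorem numeric {r s ρ D : ℕ} (h1 : (r + s) ^ 2 < 4 * D)
    (h2 : (ρ + 1) ^ 2 + 2 * (r + s - ρ - 1) * (r + s - ρ) < 4 * D)
    (h3 : 4 * D ≤ r ^ 2 + 2 * (s * (s + 1))) : r ≤ ρ := by
  by_contra hcon
  push Not at hcon
  obtain ⟨a, rfl⟩ : ∃ a, r = ρ + 1 + a := ⟨r - (ρ + 1), by omega⟩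
  have e1 : ρ + 1 + a + s - ρ - 1 = a + s := by omega
  have e2 : ρ + 1 + a + s - ρ = a + s + 1 := by omega
  rw [e1, e2] at h2
  by_cases hs : 2 * (ρ + 1 + a + s) ≤ 3 * s + 2
  · -- the other end
    have h4 : (ρ + 1 + a) ^ 2 + 2 * (s * (s + 1)) ≤
        (ρ + 1) ^ 2 + 2 * (a + s) * (a + s + 1) := by
      obtain ⟨b, hb⟩ : ∃ b, 3 * s + 2 = 2 * (ρ + 1 + a + s) + b :=
        ⟨3 * s + 2 - 2 * (ρ + 1 + a + s), by omega⟩
      have hs' : s = 2 * ρ + 2 * a + b := by omega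
      subst hs'
      nlinarith [Nat.zero_le (a * ρ), Nat.zero_le (a * a), Nat.zero_le (a * b)]
    omega
  · push Not at hs
    have h4 : (ρ + 1 + a) ^ 2 + 2 * (s * (s + 1)) ≤ (ρ + 1 + a + s) ^ 2 := by
      nlinarith [Nat.zero_le s]
    omega

end numeric

section rank

variable {E : Type*} [AddCommGroup E] [Module ℂ E] [FiniteDimensional ℂ E] {ι : Type}
  [Fintype ι] [DecidableEq ι] {F : ι → Type} [∀ i, AddCommGroup (F i)] [∀ i, Module ℂ (F i)]

/-- The vectors killed by some of the maps. -/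
def KK0 (L : ∀ i, E →ₗ[ℂ] F i) (s : Set ι) : Submodule ℂ E where
  carrier := {u | ∀ i ∈ s, L i u = 0}
  zero_mem' := fun i _ => map_zero _
  add_mem' := fun {x y} hx hy i hi => by rw [map_add, hx i hi, hy i hi, add_zero]
  smul_mem' := fun r x hx i hi => by rw [map_smul, hx i hi, smul_zero]

theorem rank_sum (L : ∀ i, E →ₗ[ℂ] F i) (A : Finset ι)
    (hA : ∀ u, (∀ i ∈ A, L i u = 0) → ∀ i, L i u = 0) :
    finrank ℂ (LinearMap.range (LinearMap.pi L)) ≤ ∑ i ∈ A, finrank ℂ (LinearMap.range (L i)) := by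
  have key : ∀ s : Finset ι, finrank ℂ E ≤
      finrank ℂ (KK0 L s) + ∑ i ∈ s, finrank ℂ (LinearMap.range (L i)) := by
    intro s
    induction s using Finset.induction_on with
    | empty =>
      have h1 : KK0 L ((∅ : Finset ι) : Set ι) = ⊤ := by
        rw [eq_top_iff]
        intro u _ i hi
        simp at hi
      rw [h1, finrank_top, Finset.sum_empty, add_zero]
    | insert a s ha ih =>
      rw [Finset.sum_insert ha]
      have h1 : KK0 L ((insert a s : Finset ι) : Set ι) = LinearMap.ker (L a) ⊓ KK0 L s := by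
        ext u
        constructor
        · intro hu
          exact ⟨hu a (by simp), fun i hi => hu i (by
            rw [Finset.coe_insert]
            exact Set.mem_insert_of_mem a hi)⟩
        · rintro ⟨h2, h3⟩ i hi
          rw [Finset.coe_insert] at hi
          rcases hi with rfl | hi
          · exact h2
          · exact h3 i hi
      have h2 := Submodule.finrank_sup_add_finrank_inf_eq (LinearMap.ker (L a)) (KK0 L s)
      have h3 := Submodule.finrank_le (LinearMap.ker (L a) ⊔ KK0 L s)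
      have h4 := LinearMap.finrank_range_add_finrank_ker (L a)
      rw [h1]
      omega
  have h1 := key A
  have h2 := LinearMap.finrank_range_add_finrank_ker (LinearMap.pi L)
  have h3 : KK0 L (A : Set ι) = LinearMap.ker (LinearMap.pi L) := by
    ext u
    rw [LinearMap.mem_ker]
    constructor
    · intro hu
      funext i
      exact hA u (fun i hi => hu i hi) i
    · intro hu i _
      exact congrFun hu i
  rw [h3] at h1
  omega

end rank

section centre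

variable {g d : ℕ} {U : Set (Fin d → ℂ)} {Z : (Fin d → ℂ) → Matrix (Fin g) (Fin g) ℂ}

/-- Families which are not moving have few moduli. -/
theorem few_moduli (hU : IsOpen U) (hol : ∀ i j, AnalyticOnNhd ℂ (fun t => Z t i j) U)
    (hper : ∀ t ∈ U, (Z t)ᵀ = Z t ∧ (imM (Z t)).PosDef) (hsim : ∃ s ∈ U, IsSimpleAV (Z s))
    (hM : ¬IsMovingFamily U Z) {t : Fin d → ℂ} (ht : t ∈ U)
    (hvg : ∀ s ∈ U, DZ (Z s) ∈ lieM (DZ (Z t)) ℂ) :
    4 * finrank ℂ (LinearMap.range (ksMap Z t)) ≤ g ^ 2 := by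
  have hW : IsPer (Z '' U) := by
    rintro _ ⟨t, ht, rfl⟩
    exact hper t ht
  have hY : IsUnit (imM (Z t)).det := (hper t ht).2.isUnit.map Matrix.detMonoidHom
  by_cases hreal : HasRealCentre U Z
  · have h1 : ¬(g - 1) ^ 2 < 8 * finrank ℂ (LinearMap.range (ksMap Z t)) := fun h =>
      hM ⟨hol, hper, hsim, Or.inr ⟨hreal, Or.inr ⟨t, ht, h⟩⟩⟩
    push Not at h1
    have h2 : (g - 1) ^ 2 ≤ g ^ 2 := Nat.pow_le_pow_left (Nat.sub_le g 1) 2
    omega
  · unfold HasRealCentre at hreal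
    push Not at hreal
    obtain ⟨φ, hφ, -, hne⟩ := hreal
    obtain ⟨s, hs, hss⟩ := hsim
    have hst : IsSimpleAV (Z t) :=
      simple_of_mem (hper t ht).1 (hper t ht).2 (hper s hs).2 (hvg s hs) hss
    obtain ⟨M, hMφ⟩ := hφ t ht
    have hcφ : cq φ * DZ (Z t) = DZ (Z t) * cq φ := endo_comm hY hMφ
    have hne' : φᵀ * Om g ℚ ≠ Om g ℚ * φ := hne
    -- the skew endomorphism
    obtain ⟨ψ, hψ⟩ : ∃ ψ, ψ = φ + Om g ℚ * φᵀ * Om g ℚ := ⟨_, rfl⟩
    have hOO : Om g ℚ * Om g ℚ = -1 := Om_sq ℚ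
    have hOOc : Om g ℂ * Om g ℂ = -1 := Om_sq ℂ
    have hOmψ : Om g ℚ * ψ = Om g ℚ * φ - φᵀ * Om g ℚ := by
      rw [hψ, Matrix.mul_add, ← Matrix.mul_assoc, ← Matrix.mul_assoc, hOO, Matrix.neg_mul,
        Matrix.one_mul, Matrix.neg_mul, ← sub_eq_add_neg]
    have hψ0 : ψ ≠ 0 := by
      intro h0
      rw [h0, Matrix.mul_zero] at hOmψ
      exact hne' (sub_eq_zero.1 hOmψ.symm).symm
    have hcqψ : cq ψ = cq φ + Om g ℂ * (cq φ)ᵀ * Om g ℂ := by
      have h1 : ∀ A B : Matrix (Fin g ⊕ Fin g) (Fin g ⊕ Fin g) ℚ, cq (A * B) = cq A * cq B :=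
        fun A B => Matrix.map_mul (f := Rat.castHom ℂ)
      have h2 : ∀ A B : Matrix (Fin g ⊕ Fin g) (Fin g ⊕ Fin g) ℚ, cq (A + B) = cq A + cq B := by
        intro A B
        ext i j
        simp [cq]
      have h3 : cq (Om g ℚ) = Om g ℂ := Om_map ℂ
      have h4 : cq φᵀ = (cq φ)ᵀ := rfl
      rw [hψ, h2, h1, h1, h3, h4]
    have hOt : (Om g ℂ)ᵀ = -Om g ℂ := Om_transpose ℂ
    have hskew : (cq ψ)ᵀ * Om g ℂ + Om g ℂ * cq ψ = 0 := by
      rw [hcqψ, transpose_add, transpose_mul, transpose_mul, transpose_transpose, hOt]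
      have h1 : ((cq φ)ᵀ + -Om g ℂ * (cq φ * -Om g ℂ)) * Om g ℂ +
          Om g ℂ * (cq φ + Om g ℂ * (cq φ)ᵀ * Om g ℂ) =
          (cq φ)ᵀ * Om g ℂ + Om g ℂ * cq φ * (Om g ℂ * Om g ℂ) + Om g ℂ * cq φ +
            (Om g ℂ * Om g ℂ) * ((cq φ)ᵀ * Om g ℂ) := by noncomm_ring
      rw [h1, hOOc]
      noncomm_ring
    have hDOm : Om g ℂ * (DZ (Z t))ᵀ = -(DZ (Z t) * Om g ℂ) := by
      have h1 := DZ_Om (hper t ht).1
      have h2 : Om g ℂ * ((DZ (Z t))ᵀ * Om g ℂ) * Om g ℂ =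
          Om g ℂ * (-(Om g ℂ * DZ (Z t))) * Om g ℂ := by rw [h1]
      have h3 : Om g ℂ * ((DZ (Z t))ᵀ * Om g ℂ) * Om g ℂ =
          Om g ℂ * (DZ (Z t))ᵀ * (Om g ℂ * Om g ℂ) := by noncomm_ring
      have h4 : Om g ℂ * (-(Om g ℂ * DZ (Z t))) * Om g ℂ =
          -((Om g ℂ * Om g ℂ) * DZ (Z t) * Om g ℂ) := by noncomm_ring
      rw [h3, h4, hOOc] at h2
      have h5 : Om g ℂ * (DZ (Z t))ᵀ * -1 = -(Om g ℂ * (DZ (Z t))ᵀ) := by noncomm_ring
      have h6 : -(-1 * DZ (Z t) * Om g ℂ) = DZ (Z t) * Om g ℂ := by noncomm_ring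
      rw [h5, h6] at h2
      rw [← h2, neg_neg]
    have hDOm' : Om g ℂ * DZ (Z t) = -((DZ (Z t))ᵀ * Om g ℂ) := by
      rw [DZ_Om (hper t ht).1, neg_neg]
    have hcT : (DZ (Z t))ᵀ * (cq φ)ᵀ = (cq φ)ᵀ * (DZ (Z t))ᵀ := by
      rw [← transpose_mul, ← transpose_mul, hcφ]
    have hcomm : cq ψ * DZ (Z t) = DZ (Z t) * cq ψ := by
      rw [hcqψ, Matrix.add_mul, Matrix.mul_add, hcφ]
      congr 1
      calc Om g ℂ * (cq φ)ᵀ * Om g ℂ * DZ (Z t) =
          -(Om g ℂ * ((cq φ)ᵀ * (DZ (Z t))ᵀ) * Om g ℂ) := by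
            rw [Matrix.mul_assoc (Om g ℂ * (cq φ)ᵀ), hDOm']
            noncomm_ring
        _ = DZ (Z t) * (Om g ℂ * (cq φ)ᵀ * Om g ℂ) := by
            rw [← hcT]
            have h1 : -(Om g ℂ * ((DZ (Z t))ᵀ * (cq φ)ᵀ) * Om g ℂ) =
                -((Om g ℂ * (DZ (Z t))ᵀ) * (cq φ)ᵀ * Om g ℂ) := by noncomm_ring
            rw [h1, hDOm]
            noncomm_ring
    refine moduli_bound (hper t ht).1 (hper t ht).2 hst hψ0 hcomm hskew _ ?_ ?_
    · rintro _ ⟨u, rfl⟩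
      exact (ks_mem hU hol hW ht u).1
    · rintro _ ⟨u, rfl⟩
      have h1 : LA (DZ '' (Z '' U)) ≤ lieM (DZ (Z t)) ℂ := by
        refine LA_le_lieM ?_
        rintro _ ⟨_, ⟨s', hs', rfl⟩, rfl⟩
        exact hvg s' hs'
      exact comm_lie (hper t ht).1 hcomm (h1 (ks_mem hU hol hW ht u).2)

end centre

end

end Pool.Agent.TH504.CB
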