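import Mathlib
import Pool.Agent.TH504.CB.Fam
import Pool.Agent.TH504.CB.Defs

/-!
# Hodge classes on families with many moduli
-/

set_option linter.unusedSectionVars false

namespace Pool.Agent.TH504.CB

open Matrix Module Pool.Agent.W437.HC Pool.Agent.W437.HD Pool.Agent.W437.HP Pool.Agent.W548.Odd
  Pool.Agent.W437.HR Pool.Agent.W437.HQ Pool.Agent.H204R3.CM Pool.Agent.TH504.VL
  Pool.Agent.TH504.VY Pool.Agent.TH131.GHC Pool.Agent.TH125

noncomputable section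

section transport

variable {ι : Type} [Fintype ι] [DecidableEq ι] {g : ι → ℕ}

/-- Transport of Hodge classes. -/
theorem hodge_transport {Z Z' : ∀ i, Matrix (Fin (g i)) (Fin (g i)) ℂ}
    (hpos : ∀ i, (imM (Z i)).PosDef) (hpos' : ∀ i, (imM (Z' i)).PosDef)
    (hm : DZ (bigD ℂ Z') ∈ lieM (DZ (bigD ℂ Z)) ℂ) {n k : ℕ} (c : Fin n → ι)
    {f : (∀ j, Fin (g (c j)) ⊕ Fin (g (c j)) → ℚ) [⋀^Fin k]→ₗ[ℚ] ℚ}
    (hf : IsHodge (perFam Z c) f) : IsHodge (perFam Z' c) f := by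
  have hJ : JR (bigD ℂ Z') * JR (bigD ℂ Z') = -1 :=
    JR_sq ((imM_bigD_posDef Z' hpos').isUnit.map Matrix.detMonoidHom)
  have h1 : ∀ σ : Fin k → Fin n, IsH (DZ (bigD ℂ Z')) ((frameOf Z' hpos' c).cf σ f) := by
    intro σ
    have h2 := isH_cf (frameOf Z hpos c) (D := DZ (bigD ℂ Z)) rfl hf σ
    exact lieM_kills _ hm h2
  have h2 : f.toMultilinearMap = ∑ σ : Fin k → Fin n,
      (evalM ((frameOf Z' hpos' c).cf σ f)).compLinearMap
        (fun i => (frameOf Z' hpos' c).a (σ i)) := by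
    refine MultilinearMap.ext fun v => ?_
    rw [_root_.sum_apply]
    exact (frameOf Z' hpos' c).expand f v
  have h3 : (k.factorial : ℚ) • f = ∑ σ : Fin k → Fin n, MultilinearMap.alternatization
      ((evalM ((frameOf Z' hpos' c).cf σ f)).compLinearMap
        (fun i => (frameOf Z' hpos' c).a (σ i))) := by
    rw [← map_sum, ← h2]
    have h4 := AlternatingMap.coe_alternatization f
    change MultilinearMap.alternatization f.toMultilinearMap = _ at h4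
    rw [h4, Fintype.card_fin]
    exact Nat.cast_smul_eq_nsmul ℚ _ f
  have hne : (k.factorial : ℚ) ≠ 0 := Nat.cast_ne_zero.2 (Nat.factorial_ne_zero _)
  have h4 : f = (k.factorial : ℚ)⁻¹ • (k.factorial : ℚ) • f := by
    rw [smul_smul, inv_mul_cancel₀ hne, one_smul]
  rw [h4, h3]
  exact isHodge_smul _ (isHodge_sum _ fun σ _ =>
    isHodge_pf (frameOf Z' hpos' c) (D := DZ (bigD ℂ Z')) rfl hJ (h1 σ) σ)

end transport

section good

variable {ι : Type} [Fintype ι] [DecidableEq ι] {g : ι → ℕ} {d : ℕ}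

/-- A very general point. -/
structure Good (U : Set (Fin d → ℂ)) (Z : ∀ i, (Fin d → ℂ) → Matrix (Fin (g i)) (Fin (g i)) ℂ)
    (D : ℕ) (t : Fin d → ℂ) : Prop where
  mem : t ∈ U
  lie : ∀ s ∈ U, DZ (bigD ℂ (fun i => Z i s)) ∈ lieM (DZ (bigD ℂ (fun i => Z i t))) ℂ
  liei : ∀ i, ∀ s ∈ U, DZ (Z i s) ∈ lieM (DZ (Z i t)) ℂ
  pcs : ∀ i, IsMovingFamily U (Z i) → HasPcs (DZ (Z i t))
  rank : D ≤ modNum Z t
  ksne : ∀ i, IsMovingFamily U (Z i) → ksMap (Z i) t ≠ 0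

/-- The map to the block diagonal matrices. -/
def bigL (g : ι → ℕ) : (∀ i, Matrix (Fin (g i)) (Fin (g i)) ℂ) →ₗ[ℂ]
    Matrix (Fin (NB g)) (Fin (NB g)) ℂ where
  toFun X := bigD ℂ X
  map_add' X Y := by
    unfold bigD
    rw [← Finset.sum_add_distrib]
    exact Finset.sum_congr rfl fun i _ => by rw [Pi.add_apply, Matrix.mul_add, Matrix.add_mul]
  map_smul' r X := by
    unfold bigD
    rw [RingHom.id_apply, Finset.smul_sum]
    exact Finset.sum_congr rfl fun i _ => by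
      rw [Pi.smul_apply, Matrix.mul_smul, Matrix.smul_mul]

variable {U : Set (Fin d → ℂ)} (hU : IsOpen U)
  {Z : ∀ i, (Fin d → ℂ) → Matrix (Fin (g i)) (Fin (g i)) ℂ}
  (hZ : ∀ i, IsPeriodFamily U (Z i))

include hZ in
theorem modNum_big {t : Fin d → ℂ} (ht : t ∈ U) : modNum Z t =
    finrank ℂ (LinearMap.range (ksMap (fun t => bigD ℂ (fun i => Z i t)) t)) := by
  have h1 : ksMap (fun t => bigD ℂ (fun i => Z i t)) t =
      (bigL g) ∘ₗ (LinearMap.pi fun i => ksMap (Z i) t) := by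
    refine LinearMap.ext fun u => ?_
    exact ksMap_big Z (fun i => (hZ i).1) ht u
  rw [h1, LinearMap.range_comp]
  have hinj : Function.Injective (bigL g) := fun X Y h => bigD_inj h
  exact (LinearEquiv.finrank_eq (Submodule.equivMapOfInjective (bigL g) hinj _))

/-- Moving families have a nonzero derivative. -/
theorem exists_deriv {m : ℕ} {Y : (Fin d → ℂ) → Matrix (Fin m) (Fin m) ℂ} (hU : IsOpen U)
    (hc : IsPreconnected U) (hY : IsPeriodFamily U Y) (hM : IsMovingFamily U Y) :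
    ∃ h : (Fin d → ℂ) → ℂ, AnalyticOnNhd ℂ h U ∧ (∃ s ∈ U, h s ≠ 0) ∧
      ∀ t, h t ≠ 0 → ksMap Y t ≠ 0 := by
  by_cases hz : ∀ s ∈ U, ∀ a b u, fderiv ℂ (fun t => Y t a b) s u = 0
  · exfalso
    obtain ⟨s, hs, -⟩ := hY.2.2
    obtain ⟨s', hs', hne⟩ := moving_nonconst hU hM s hs
    apply hne
    ext a b
    refine hU.is_const_of_fderiv_eq_zero (𝕜 := ℂ) (f := fun t => Y t a b) hc ?_ ?_ hs' hs
    · exact (hY.1 a b).differentiableOn
    · intro x hx
      exact ContinuousLinearMap.ext fun u => hz x hx a b u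
  · push Not at hz
    obtain ⟨s, hs, a, b, u, hne⟩ := hz
    refine ⟨fun t => fderiv ℂ (fun t => Y t a b) t u, ?_, ⟨s, hs, hne⟩, fun t ht h0 => ht ?_⟩
    · exact (ContinuousLinearMap.apply ℂ ℂ u).comp_analyticOnNhd (hY.1 a b).fderiv
    · have h1 := congrFun (congrFun (LinearMap.congr_fun h0 u) a) b
      exact h1

include hU hZ in
/-- The very general points. -/
theorem exists_thin (hc : IsPreconnected U) {s : Fin d → ℂ} (hs : s ∈ U) :
    ∃ F : ℕ → (Fin d → ℂ) → ℂ, IsThin U F ∧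
      ∀ t ∈ U, (∀ m, F m t ≠ 0) → Good U Z (modNum Z s) t := by
  classical
  have hYi : ∀ i, ∀ t ∈ U, IsUnit (imM (Z i t)).det := fun i t ht =>
    ((hZ i).2.1 t ht).2.isUnit.map Matrix.detMonoidHom
  have hYb : ∀ t ∈ U, IsUnit (imM (bigD ℂ (fun i => Z i t))).det := fun t ht =>
    (imM_bigD_posDef (fun i => Z i t) fun i => ((hZ i).2.1 t ht).2).isUnit.map
      Matrix.detMonoidHom
  have hbol : ∀ a b, AnalyticOnNhd ℂ (fun t => bigD ℂ (fun i => Z i t) a b) U := by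
    intro a b
    unfold bigD
    simp only [Matrix.sum_apply, Matrix.mul_apply, Matrix.transpose_apply]
    refine Finset.analyticOnNhd_fun_sum _ fun i _ => Finset.analyticOnNhd_fun_sum _ fun x _ => ?_
    refine AnalyticOnNhd.mul ?_ analyticOnNhd_const
    refine Finset.analyticOnNhd_fun_sum _ fun y _ => ?_
    exact AnalyticOnNhd.mul analyticOnNhd_const ((hZ i).1 _ _)
  choose T hT f hf hfs hft using fun i => vg_functions (Z i) (hZ i).1 (hYi i)
  obtain ⟨T', hT', f', hf', hfs', hft'⟩ := vg_functions (fun t => bigD ℂ (fun i => Z i t)) hbol hYb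
  have hmp : ∀ i, ∃ h : (Fin d → ℂ) → ℂ, AnalyticOnNhd ℂ h U ∧ (∃ s ∈ U, h s ≠ 0) ∧
      (IsMovingFamily U (Z i) → ∀ t ∈ U, h t ≠ 0 →
        (∀ s ∈ U, DZ (Z i s) ∈ lieM (DZ (Z i t)) ℂ) → HasPcs (DZ (Z i t))) := by
    intro i
    by_cases hM : IsMovingFamily U (Z i)
    · obtain ⟨h, h1, h2, h3⟩ := moving_pcs hU hM
      exact ⟨h, h1, h2, fun _ => h3⟩
    · exact ⟨fun _ => 1, analyticOnNhd_const, ⟨s, hs, one_ne_zero⟩, fun h => absurd h hM⟩
  choose h hh hhs hht using hmp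
  have hmk : ∀ i, ∃ h : (Fin d → ℂ) → ℂ, AnalyticOnNhd ℂ h U ∧ (∃ s ∈ U, h s ≠ 0) ∧
      (IsMovingFamily U (Z i) → ∀ t, h t ≠ 0 → ksMap (Z i) t ≠ 0) := by
    intro i
    by_cases hM : IsMovingFamily U (Z i)
    · obtain ⟨h, h1, h2, h3⟩ := exists_deriv hU hc (hZ i) hM
      exact ⟨h, h1, h2, fun _ => h3⟩
    · exact ⟨fun _ => 1, analyticOnNhd_const, ⟨s, hs, one_ne_zero⟩, fun h => absurd h hM⟩
  choose hk hkh hks hkt using hmk
  obtain ⟨h', hh', hhs', hht'⟩ := exists_minor (U := U) (s := s) hbol (modNum_big hZ hs)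
  have : ∀ i, Countable (T i) := hT
  let G : Option ((Σ i, T i) ⊕ (T' ⊕ (ι ⊕ ι))) → (Fin d → ℂ) → ℂ := fun o =>
    Option.elim o h' (Sum.elim (fun p => f p.1 p.2) (Sum.elim f' (Sum.elim h hk)))
  obtain ⟨q, hq⟩ := exists_surjective_nat (Option ((Σ i, T i) ⊕ (T' ⊕ (ι ⊕ ι))))
  have hG : ∀ o, AnalyticOnNhd ℂ (G o) U ∧ ∃ s ∈ U, G o s ≠ 0 := by
    rintro (_ | (p | p | p | p))
    · exact ⟨hh', s, hs, hhs'⟩
    · exact ⟨hf p.1 p.2, hfs p.1 p.2⟩
    · exact ⟨hf' p, hfs' p⟩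
    · exact ⟨hh p, hhs p⟩
    · exact ⟨hkh p, hks p⟩
  refine ⟨fun m => G (q m), fun m => hG (q m), fun t ht hFt => ?_⟩
  have hGt : ∀ o, G o t ≠ 0 := by
    intro o
    obtain ⟨m, rfl⟩ := hq o
    exact hFt m
  have hliei : ∀ i, ∀ s ∈ U, DZ (Z i s) ∈ lieM (DZ (Z i t)) ℂ := fun i =>
    hft i t ht fun p => hGt (some (Sum.inl ⟨i, p⟩))
  refine ⟨ht, hft' t ht fun p => hGt (some (Sum.inr (Sum.inl p))), hliei, fun i hM => ?_, ?_,
    fun i hM => hkt i hM t (hGt (some (Sum.inr (Sum.inr (Sum.inr i)))))⟩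
  · exact hht i hM t ht (hGt (some (Sum.inr (Sum.inr (Sum.inl i))))) (hliei i)
  · obtain ⟨u, hu⟩ := hht' t (hGt none)
    rw [modNum_big hZ ht]
    have h1 : LinearIndependent ℂ (fun j => (⟨ksMap (fun t => bigD ℂ fun i => Z i t) t (u j),
        u j, rfl⟩ : LinearMap.range (ksMap (fun t => bigD ℂ fun i => Z i t) t))) :=
      LinearIndependent.of_comp (Submodule.subtype _) hu
    have h2 := h1.fintype_card_le_finrank
    rwa [Fintype.card_fin] at h2

/-- The factors in the complement. -/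
def Rs (U : Set (Fin d → ℂ)) (Z : ∀ i, (Fin d → ℂ) → Matrix (Fin (g i)) (Fin (g i)) ℂ)
    (t : Fin d → ℂ) : ι → Prop :=
  fun i => ∀ u, (∀ j, ¬IsMovingFamily U (Z j) → ksMap (Z j) t u = 0) → ksMap (Z i) t u = 0

include hU hZ in
/-- The dimension of the complement. -/
theorem Good.bound {D : ℕ} {t : Fin d → ℂ} (h : Good U Z D t) {ρ : ℕ} {w : ι → ℕ}
    (hw : ∀ i, 1 ≤ w i) (h1 : (∑ i, w i * g i) ^ 2 < 4 * D)
    (h2 : (ρ + 1) ^ 2 + 2 * (∑ i, w i * g i - ρ - 1) * (∑ i, w i * g i - ρ) < 4 * D)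
    {R : Finset ι} (hR : ∀ i, i ∈ R ↔ Rs U Z t i) : ∑ i ∈ R, w i * g i ≤ ρ := by
  classical
  have hW : ∀ i, IsPer (Z i '' U) := by
    rintro i _ ⟨t, ht, rfl⟩
    exact (hZ i).2.1 t ht
  let N : Finset ι := Finset.univ.filter fun i => ¬IsMovingFamily U (Z i)
  have hN : ∀ i, i ∈ N ↔ ¬IsMovingFamily U (Z i) := fun i => by simp [N]
  have hNR : N ⊆ R := by
    intro i hi
    rw [hR]
    exact fun u hu => hu i ((hN i).1 hi)
  have hsum := rank_sum (fun i => ksMap (Z i) t) (N ∪ Rᶜ) (by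
    intro u hu i
    by_cases hi : i ∈ R
    · exact (hR i).1 hi u fun j hj => hu j (Finset.mem_union_left _ ((hN j).2 hj))
    · exact hu i (Finset.mem_union_right _ (Finset.mem_compl.2 hi)))
  have hdisj : Disjoint N Rᶜ := by
    rw [Finset.disjoint_left]
    intro i hi hi'
    exact (Finset.mem_compl.1 hi') (hNR hi)
  rw [Finset.sum_union hdisj] at hsum
  have hle : ∀ i, g i ≤ w i * g i := fun i => Nat.le_mul_of_pos_left _ (hw i)
  have hbN : 4 * ∑ i ∈ N, finrank ℂ (LinearMap.range (ksMap (Z i) t)) ≤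
      (∑ i ∈ R, w i * g i) ^ 2 := by
    rw [Finset.mul_sum]
    calc ∑ i ∈ N, 4 * finrank ℂ (LinearMap.range (ksMap (Z i) t)) ≤ ∑ i ∈ N, g i ^ 2 :=
          Finset.sum_le_sum fun i hi => few_moduli hU (hZ i).1 (hZ i).2.1 (hZ i).2.2
            ((hN i).1 hi) h.mem (h.liei i)
      _ ≤ (∑ i ∈ N, g i) ^ 2 := sum_sq_le N g
      _ ≤ (∑ i ∈ R, w i * g i) ^ 2 := Nat.pow_le_pow_left
          ((Finset.sum_le_sum_of_subset hNR).trans (Finset.sum_le_sum fun i _ => hle i)) 2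
  have hbS : 2 * ∑ i ∈ Rᶜ, finrank ℂ (LinearMap.range (ksMap (Z i) t)) ≤
      (∑ i ∈ Rᶜ, w i * g i) * (∑ i ∈ Rᶜ, w i * g i + 1) := by
    rw [Finset.mul_sum]
    refine le_trans (Finset.sum_le_sum fun i _ => ?_) ((sum_mul_le Rᶜ g).trans ?_)
    · have h3 := sym_bound (LinearMap.range (ksMap (Z i) t)) (by
        rintro _ ⟨u, rfl⟩
        exact (ks_mem hU (hZ i).1 (hW i) h.mem u).1)
      rwa [Fintype.card_fin] at h3
    · have h4 : ∑ i ∈ Rᶜ, g i ≤ ∑ i ∈ Rᶜ, w i * g i := Finset.sum_le_sum fun i _ => hle i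
      exact Nat.mul_le_mul h4 (Nat.succ_le_succ h4)
  have htot : ∑ i, w i * g i = ∑ i ∈ R, w i * g i + ∑ i ∈ Rᶜ, w i * g i :=
    (Finset.sum_add_sum_compl R _).symm
  rw [htot] at h1 h2
  have hD : D ≤ finrank ℂ (LinearMap.range (LinearMap.pi fun i => ksMap (Z i) t)) := h.rank
  refine numeric h1 h2 ?_
  omega

include hU hZ in
/-- Hodge classes at a very general point. -/
theorem Good.main {D : ℕ} {t : Fin d → ℂ} (h : Good U Z D t) {R : Finset ι}
    (hR : ∀ i, i ∈ R ↔ Rs U Z t i) {n k : ℕ} (c : Fin n → ι)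
    {f : (∀ j, Fin (g (c j)) ⊕ Fin (g (c j)) → ℚ) [⋀^Fin k]→ₗ[ℚ] ℚ}
    (hf : IsHodge (perFam (fun i => Z i t) c) f) :
    f ∈ productSpan (fun l η => IsHodge (perFam (fun i => Z i t) c) η) (fun j => c j ∈ R) k := by
  classical
  have hsymm : ∀ i, (Z i t)ᵀ = Z i t := fun i => ((hZ i).2.1 t h.mem).1
  have hpos : ∀ i, (imM (Z i t)).PosDef := fun i => ((hZ i).2.1 t h.mem).2
  have hbol : ∀ a b, AnalyticOnNhd ℂ (fun t => bigD ℂ (fun i => Z i t) a b) U := by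
    intro a b
    unfold bigD
    simp only [Matrix.sum_apply, Matrix.mul_apply, Matrix.transpose_apply]
    refine Finset.analyticOnNhd_fun_sum _ fun i _ => Finset.analyticOnNhd_fun_sum _ fun x _ => ?_
    refine AnalyticOnNhd.mul ?_ analyticOnNhd_const
    refine Finset.analyticOnNhd_fun_sum _ fun y _ => ?_
    exact AnalyticOnNhd.mul analyticOnNhd_const ((hZ i).1 _ _)
  have hWb : IsPer ((fun t => bigD ℂ (fun i => Z i t)) '' U) := by
    rintro _ ⟨s, hs, rfl⟩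
    exact ⟨bigD_symm fun i => ((hZ i).2.1 s hs).1,
      imM_bigD_posDef _ fun i => ((hZ i).2.1 s hs).2⟩
  have hmoving : ∀ i, ¬Rs U Z t i → IsMovingFamily U (Z i) := by
    intro i hi
    by_contra hM
    exact hi fun u hu => hu i hM
  have h1 := point_main (fun i => Z i t) (fun i => ¬Rs U Z t i) hsymm hpos
    (fun i hi => h.pcs i (hmoving i hi)) (fun i _ => by
      obtain ⟨s, hs, hss⟩ := (hZ i).2.2
      exact simple_of_mem (hsymm i) (hpos i) ((hZ i).2.1 s hs).2 (h.liei i s hs) hss)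
    (fun i hi => by
      unfold Rs at hi
      push Not at hi
      obtain ⟨u, hu, hne⟩ := hi
      have hN := (ks_mem hU hbol hWb h.mem u).2
      rw [ksMap_big Z (fun i => (hZ i).1) h.mem] at hN
      have hLA : LA (DZ '' ((fun t => bigD ℂ (fun i => Z i t)) '' U)) ≤
          lieM (DZ (bigD ℂ (fun i => Z i t))) ℂ := by
        refine LA_le_lieM ?_
        rintro _ ⟨_, ⟨s', hs', rfl⟩, rfl⟩
        exact h.lie s' hs'
      refine ⟨_, hLA hN, fun j hj => ?_, fun h0 => hne ?_⟩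
      · rw [not_not] at hj
        rw [N_pmT _ hsymm hpos, hj u hu, Matrix.mul_zero, Matrix.zero_mul, Matrix.zero_mul,
          Matrix.mul_zero]
      · rw [N_pmT _ hsymm hpos] at h0
        have h2 := congrArg (fun M => pm g ℂ i * M) h0
        simp only [← Matrix.mul_assoc, pm_same, Matrix.mul_zero, Matrix.one_mul] at h2
        exact TT_inj (hsymm i) ((hpos i).isUnit.map Matrix.detMonoidHom) h2) c hf
  refine Submodule.span_mono ?_ h1
  rintro F ⟨r, l, e, B, η, hB, hη, hη', hF⟩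
  refine ⟨r, l, e, B, η, hB, hη, fun v v' hvv => hη' v v' fun a j hj => ?_, hF⟩
  rw [not_not] at hj
  exact hvv a j ((hR _).2 hj)

end good

section final

variable {ι : Type} [Fintype ι] {g : ι → ℕ} {d : ℕ}

/-- **The main theorem.** -/
theorem main {U : Set (Fin d → ℂ)} (hU : IsOpen U) (hc : IsPreconnected U) (hne : U.Nonempty)
    (Z : ∀ i, (Fin d → ℂ) → Matrix (Fin (g i)) (Fin (g i)) ℂ)
    (hZ : ∀ i, IsPeriodFamily U (Z i)) :
    ∃ (R : Finset ι) (F : ℕ → (Fin d → ℂ) → ℂ), IsThin U F ∧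
      ((∀ i, IsMovingFamily U (Z i)) → R = ∅) ∧
      (∀ s ∈ U, ∀ w : ι → ℕ, (∀ i, 1 ≤ w i) → ∀ ρ : ℕ,
        (∑ i, w i * g i) ^ 2 < 4 * modNum Z s →
        (ρ + 1) ^ 2 + 2 * (∑ i, w i * g i - ρ - 1) * (∑ i, w i * g i - ρ) < 4 * modNum Z s →
        ∑ i ∈ R, w i * g i ≤ ρ) ∧
      (∃ t ∈ U, ∀ m, F m t ≠ 0) ∧
      ∀ t ∈ U, (∀ m, F m t ≠ 0) → ∀ (n : ℕ) (c : Fin n → ι) (k : ℕ)
        (f : (∀ j, Fin (g (c j)) ⊕ Fin (g (c j)) → ℚ) [⋀^Fin k]→ₗ[ℚ] ℚ),
        IsHodge (productOf (fun i => Z i t) c) f →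
          (∀ s ∈ U, IsHodge (productOf (fun i => Z i s) c) f) ∧
          f ∈ productSpan (fun _ η => ∀ s ∈ U, IsHodge (productOf (fun i => Z i s) c) η)
            (fun j => c j ∈ R) k := by
  classical
  -- a point with the largest number of moduli
  obtain ⟨s₀, hs₀, hmax⟩ : ∃ s₀ ∈ U, ∀ s ∈ U, modNum Z s ≤ modNum Z s₀ := by
    have hbd : ∀ s, modNum Z s ≤ d := by
      intro s
      have h1 := LinearMap.finrank_range_le (LinearMap.pi fun i => ksMap (Z i) s)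
      rwa [Module.finrank_fin_fun] at h1
    have hfin : (Set.image (modNum Z) U).Finite :=
      (Set.finite_Iic d).subset (by
        rintro _ ⟨s, _, rfl⟩
        exact hbd s)
    obtain ⟨m, ⟨s₀, hs₀, rfl⟩, hm⟩ := Set.exists_max_image (Set.image (modNum Z) U) id hfin
      (hne.image _)
    exact ⟨s₀, hs₀, fun s hs => hm _ ⟨s, hs, rfl⟩⟩
  obtain ⟨F, hF, hgood⟩ := exists_thin hU hZ hc hs₀
  obtain ⟨t₀, ht₀, hFt₀⟩ := exists_point hU hc hne F (fun m => (hF m).1) (fun m => (hF m).2)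
  have h0 := hgood t₀ ht₀ hFt₀
  let R : Finset ι := Finset.univ.filter fun i => Rs U Z t₀ i
  have hR : ∀ i, i ∈ R ↔ Rs U Z t₀ i := fun i => by simp [R]
  have hpos : ∀ t ∈ U, ∀ i, (imM (Z i t)).PosDef := fun t ht i => ((hZ i).2.1 t ht).2
  refine ⟨R, F, hF, fun hM => ?_, fun s hs w hw ρ h1 h2 => ?_, ⟨t₀, ht₀, hFt₀⟩,
    fun t ht hFt n c k f hf => ?_⟩
  · rw [Finset.eq_empty_iff_forall_notMem]
    intro i hi
    refine h0.ksne i (hM i) ?_
    refine LinearMap.ext fun u => ?_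
    exact (hR i).1 hi u fun j hj => absurd (hM j) hj
  · have h3 := hmax s hs
    exact h0.bound hU hZ hw (by omega) (by omega) hR
  · have h1 : ∀ s ∈ U, IsHodge (productOf (fun i => Z i s) c) f := fun s hs =>
      hodge_transport (hpos t ht) (hpos s hs) ((hgood t ht hFt).lie s hs) c hf
    refine ⟨h1, ?_⟩
    refine Submodule.span_mono ?_ (h0.main hU hZ hR c (h1 t₀ ht₀))
    rintro f' ⟨r, l, e, B, η, hB, hη, hη', hf'⟩
    exact ⟨r, l, e, B, η,
      fun a s hs => hodge_transport (hpos t₀ ht₀) (hpos s hs) (h0.lie s hs) c (hB a),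
      fun s hs => hodge_transport (hpos t₀ ht₀) (hpos s hs) (h0.lie s hs) c hη, hη', hf'⟩

end final

end

end Pool.Agent.TH504.CB
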