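import Mathlib
import Pool.Agent.TH504.CB.Low3
import Pool.Agent.TH504.CB.Main
import Pool.Agent.TH504.CB.FlatDefs

/-!
# Families with many moduli: the part of small dimension
-/

set_option linter.unusedSectionVars false

namespace Pool.Agent.TH504.CB

open Matrix Equiv Module Pool.Agent.H204R3.SP Pool.Agent.H204R3.CM Pool.Agent.H204R3.GH
  Pool.Agent.W437.HC Pool.Agent.W437.HD Pool.Agent.W437.HP Pool.Agent.TH131.GHC
  Pool.Agent.W546.GHC Pool.Agent.TH504.VY Pool.Agent.TH504.VL Pool.Agent.W437.HR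

noncomputable section

section part

variable {ι : Type} {g : ι → ℕ} (Z : ∀ i, Matrix (Fin (g i)) (Fin (g i)) ℂ) {n : ℕ}
  (c : Fin n → ι) (P : Fin n → Prop) [DecidablePred P]

/-- The coordinates on the product of the factors with `P`. -/
def partOf (hpos : ∀ i, (imM (Z i)).PosDef) :
    Part (perFam Z c) (JR (bigD ℂ (fun j : {j // P j} => Z (c j.1)))) where
  A :=
    { toFun := fun w => ∑ j : {j // P j}, (pm (fun j : {j // P j} => g (c j.1)) ℚ j)ᵀ *ᵥ w j.1
      map_add' := fun v w => by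
        rw [← Finset.sum_add_distrib]
        exact Finset.sum_congr rfl fun j _ => mulVec_add _ _ _
      map_smul' := fun r w => by
        rw [RingHom.id_apply, Finset.smul_sum]
        exact Finset.sum_congr rfl fun j _ => mulVec_smul _ r (w j.1) }
  E :=
    { toFun := fun x j => if h : P j then pm (fun j : {j // P j} => g (c j.1)) ℚ ⟨j, h⟩ *ᵥ x else 0
      map_add' := fun x y => by
        funext j
        rw [Pi.add_apply]
        split_ifs
        · exact mulVec_add _ _ _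
        · rw [add_zero]
      map_smul' := fun r x => by
        funext j
        rw [Pi.smul_apply]
        split_ifs
        · exact mulVec_smul _ r x
        · rw [smul_zero] }
  AE x := by
    change ∑ j : {j // P j}, (pm (fun j : {j // P j} => g (c j.1)) ℚ j)ᵀ *ᵥ
      (if h : P j.1 then pm (fun j : {j // P j} => g (c j.1)) ℚ ⟨j.1, h⟩ *ᵥ x else 0) = x
    have h1 : ∀ j : {j // P j}, (pm (fun j : {j // P j} => g (c j.1)) ℚ j)ᵀ *ᵥ
        (if h : P j.1 then pm (fun j : {j // P j} => g (c j.1)) ℚ ⟨j.1, h⟩ *ᵥ x else 0) =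
        ((pm (fun j : {j // P j} => g (c j.1)) ℚ j)ᵀ *
          pm (fun j : {j // P j} => g (c j.1)) ℚ j) *ᵥ x := by
      intro j
      rw [dif_pos j.2, mulVec_mulVec]
    rw [Finset.sum_congr rfl fun j _ => h1 j, ← Matrix.sum_mulVec, pm_tot, one_mulVec]
  AR :=
    { toFun := fun u => ∑ j : {j // P j}, (pm (fun j : {j // P j} => g (c j.1)) ℝ j)ᵀ *ᵥ
        invR (Z (c j.1)) (u j.1)
      map_add' := fun v w => by
        rw [← Finset.sum_add_distrib]
        exact Finset.sum_congr rfl fun j _ => by rw [Pi.add_apply, map_add, mulVec_add]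
      map_smul' := fun r w => by
        rw [RingHom.id_apply, Finset.smul_sum]
        exact Finset.sum_congr rfl fun j _ => by rw [Pi.smul_apply, map_smul, mulVec_smul] }
  ER :=
    { toFun := fun x j => if h : P j then
        perR (Z (c j)) (pm (fun j : {j // P j} => g (c j.1)) ℝ ⟨j, h⟩ *ᵥ x) else 0
      map_add' := fun x y => by
        funext j
        rw [Pi.add_apply]
        split_ifs
        · rw [mulVec_add, map_add]
        · rw [add_zero]
      map_smul' := fun r x => by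
        funext j
        rw [Pi.smul_apply]
        split_ifs
        · rw [mulVec_smul, map_smul]
          rfl
        · rw [smul_zero] }
  AR_per w := by
    change ∑ j : {j // P j}, (pm (fun j : {j // P j} => g (c j.1)) ℝ j)ᵀ *ᵥ
        invR (Z (c j.1)) (perOne (Z (c j.1)) (w j.1)) =
      fun i => (((∑ j : {j // P j}, (pm (fun j : {j // P j} => g (c j.1)) ℚ j)ᵀ *ᵥ w j.1) i : ℚ) : ℝ)
    have h1 : ∀ j : {j // P j}, (pm (fun j : {j // P j} => g (c j.1)) ℝ j)ᵀ *ᵥ
        invR (Z (c j.1)) (perOne (Z (c j.1)) (w j.1)) =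
        fun i => ((((pm (fun j : {j // P j} => g (c j.1)) ℚ j)ᵀ *ᵥ w j.1) i : ℚ) : ℝ) := by
      intro j
      rw [perOne_eq, invR_perR ((hpos (c j.1)).isUnit.map Matrix.detMonoidHom), castR_mulVec]
      congr 1
      have h1 : cK ℝ (pm (fun j : {j // P j} => g (c j.1)) ℚ j)ᵀ =
        (cK ℝ (pm (fun j : {j // P j} => g (c j.1)) ℚ j))ᵀ := rfl
      rw [h1, cK_pm]
    rw [Finset.sum_congr rfl fun j _ => h1 j]
    funext i
    rw [Finset.sum_apply, Finset.sum_apply, Rat.cast_sum]
  ER_per x := by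
    funext j
    change (if h : P j then perR (Z (c j)) (pm (fun j : {j // P j} => g (c j.1)) ℝ ⟨j, h⟩ *ᵥ
      (fun i => ((x i : ℚ) : ℝ))) else 0) = perOne (Z (c j))
        (if h : P j then pm (fun j : {j // P j} => g (c j.1)) ℚ ⟨j, h⟩ *ᵥ x else 0)
    by_cases h : P j
    · rw [dif_pos h, dif_pos h, perOne_eq, castR_mulVec, cK_pm]
    · rw [dif_neg h, dif_neg h, map_zero]
  AR_rot z u := by
    change ∑ j : {j // P j}, (pm (fun j : {j // P j} => g (c j.1)) ℝ j)ᵀ *ᵥ
        invR (Z (c j.1)) (z • u j.1) =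
      z.re • (∑ j : {j // P j}, (pm (fun j : {j // P j} => g (c j.1)) ℝ j)ᵀ *ᵥ
        invR (Z (c j.1)) (u j.1)) +
      z.im • (JR (bigD ℂ (fun j : {j // P j} => Z (c j.1))) *ᵥ
        (∑ j : {j // P j}, (pm (fun j : {j // P j} => g (c j.1)) ℝ j)ᵀ *ᵥ
        invR (Z (c j.1)) (u j.1)))
    rw [Matrix.mulVec_sum, Finset.smul_sum, Finset.smul_sum, ← Finset.sum_add_distrib]
    refine Finset.sum_congr rfl fun j _ => ?_
    have h1 := JR_pmT (fun j : {j // P j} => Z (c j.1)) (fun j => hpos (c j.1)) j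
    rw [invR_rotate ((hpos (c j.1)).isUnit.map Matrix.detMonoidHom), mulVec_add, mulVec_smul,
      mulVec_smul, mulVec_mulVec, mulVec_mulVec, h1]
  ER_rot x := by
    funext j
    change (if h : P j then perR (Z (c j)) (pm (fun j : {j // P j} => g (c j.1)) ℝ ⟨j, h⟩ *ᵥ
      (JR (bigD ℂ (fun j : {j // P j} => Z (c j.1))) *ᵥ x)) else 0) = Complex.I •
        (if h : P j then perR (Z (c j)) (pm (fun j : {j // P j} => g (c j.1)) ℝ ⟨j, h⟩ *ᵥ x) else 0)
    by_cases h : P j
    · have h1 := pm_JR (fun j : {j // P j} => Z (c j.1)) (fun j => hpos (c j.1)) ⟨j, h⟩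
      rw [dif_pos h, dif_pos h, mulVec_mulVec, h1, ← mulVec_mulVec,
        perR_JR _ ((hpos (c j)).isUnit.map Matrix.detMonoidHom)]
    · rw [dif_neg h, dif_neg h, smul_zero]

theorem part_only (hpos : ∀ i, (imM (Z i)).PosDef) {l : ℕ}
    {η : (∀ j, Fin (g (c j)) ⊕ Fin (g (c j)) → ℚ) [⋀^Fin l]→ₗ[ℚ] ℚ} (hη : IsPullback P η) :
    Only (fun w w' => (partOf Z c P hpos).A w = (partOf Z c P hpos).A w') (fun v => η v) := by
  intro v v' hvv
  refine hη v v' fun a j hj => ?_
  have key : ∀ w : ∀ j, Fin (g (c j)) ⊕ Fin (g (c j)) → ℚ,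
      pm (fun j : {j // P j} => g (c j.1)) ℚ ⟨j, hj⟩ *ᵥ (partOf Z c P hpos).A w = w j := by
    intro w
    change pm (fun j : {j // P j} => g (c j.1)) ℚ ⟨j, hj⟩ *ᵥ
      (∑ j : {j // P j}, (pm (fun j : {j // P j} => g (c j.1)) ℚ j)ᵀ *ᵥ w j.1) = w j
    rw [Matrix.mulVec_sum, Finset.sum_eq_single (⟨j, hj⟩ : {j // P j})]
    · rw [mulVec_mulVec, pm_same, one_mulVec]
    · intro i _ hi
      rw [mulVec_mulVec, pm_off ℚ (Ne.symm hi), zero_mulVec]
    · intro h
      exact absurd (Finset.mem_univ _) h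
  rw [← key (v a), ← key (v' a), hvv a]

/-- If the Hodge classes come from factors of total dimension at most three, they are polynomials
in divisor classes. -/
theorem low_productSpan (hsymm : ∀ i, (Z i)ᵀ = Z i) (hpos : ∀ i, (imM (Z i)).PosDef)
    (hdim : ∑ j : {j // P j}, g (c j.1) ≤ 3) {k : ℕ}
    {f : (∀ j, Fin (g (c j)) ⊕ Fin (g (c j)) → ℚ) [⋀^Fin k]→ₗ[ℚ] ℚ}
    (hf : f ∈ productSpan (fun _ η => IsHodge (productOf Z c) η) P k) :
    f ∈ divisorSpan (productOf Z c) k := by
  have hsy : (bigD ℂ (fun j : {j // P j} => Z (c j.1)))ᵀ =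
      bigD ℂ (fun j : {j // P j} => Z (c j.1)) := bigD_symm fun j => hsymm (c j.1)
  have hpo : (imM (bigD ℂ (fun j : {j // P j} => Z (c j.1)))).PosDef :=
    imM_bigD_posDef (fun j : {j // P j} => Z (c j.1)) fun j => hpos (c j.1)
  have hN : NB (fun j : {j // P j} => g (c j.1)) ≤ 3 := by
    unfold NB
    rw [Fintype.card_sigma]
    simpa using hdim
  unfold productSpan at hf
  induction hf using Submodule.span_induction with
  | zero => exact Submodule.zero_mem _
  | add x y _ _ hx hy => exact Submodule.add_mem _ hx hy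
  | smul a x _ hx => exact Submodule.smul_mem _ _ hx
  | mem f' hf' =>
    obtain ⟨r, l, e, B, η, hB, hη, hη', hf'⟩ := hf'
    have h1 : f' = wd e B η := by
      ext v
      rw [hf', wd_apply]
      refine Finset.sum_congr rfl fun σ _ => ?_
      congr 2
      refine Finset.prod_congr rfl fun s _ => ?_
      exact congrArg (fun w => B s w) (vec_two (fun ε => v (σ (e (Sum.inl (s, ε)))))).symm
    rw [h1]
    have h2 : η ∈ divisorSpan (perFam Z c) l :=
      low_dim hsy hpo (partOf Z c P hpos) hN l η hη (part_only Z c P hpos hη')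
    exact wd_mem e B hB h2

end part

section final

variable {ι : Type} [Fintype ι] [DecidableEq ι] {g : ι → ℕ} {d : ℕ}

/-- **The main theorem for flat classes.** -/
theorem main_flat {U : Set (Fin d → ℂ)} (hU : IsOpen U) (hc : IsPreconnected U)
    (hne : U.Nonempty) (Z : ∀ i, (Fin d → ℂ) → Matrix (Fin (g i)) (Fin (g i)) ℂ)
    (hZ : ∀ i, IsPeriodFamily U (Z i)) :
    ∃ R : Finset ι, IsSmallPart U Z R ∧ FlatClassesDecompose U Z R ∧
      FlatClassesDivisorial U Z R := by
  classical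
  obtain ⟨R, F, hF, hR, hb, ⟨t₀, ht₀, hFt₀⟩, h⟩ := main hU hc hne Z hZ
  have h0 : FlatClassesDecompose U Z R := fun n c k f hf =>
    (h t₀ ht₀ hFt₀ n c k f (hf t₀ ht₀)).2
  refine ⟨R, ⟨hR, hb⟩, h0, fun n c hdim k f hf => ?_⟩
  have h1 := h0 n c k f hf
  have h2 := low_productSpan (fun i => Z i t₀) c (fun j => c j ∈ R)
    (fun i => ((hZ i).2.1 t₀ ht₀).1) (fun i => ((hZ i).2.1 t₀ ht₀).2) (by
      rw [← Finset.sum_subtype (Finset.univ.filter fun j => c j ∈ R) (by simp)
        (fun j => g (c j))]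
      exact hdim)
    (f := f) (k := k) (by
      unfold productSpan at h1 ⊢
      refine Submodule.span_mono ?_ h1
      rintro f' ⟨r, l, e, B, η, hB, hη, hη', hf'⟩
      exact ⟨r, l, e, B, η, fun a => hB a t₀ ht₀, hη t₀ ht₀, hη', hf'⟩)
  refine Submodule.span_mono ?_ h2
  rintro f' ⟨r, e, C, hC, hf'⟩
  exact ⟨r, e, C, fun l => (h t₀ ht₀ hFt₀ n c 2 (C l) (hC l)).1, hf'⟩

end final

end

end Pool.Agent.TH504.CB
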